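import Pool.Agent.LibRk1.Defs
import Pool.Agent.LibBH2.ApproxPar
import Pool.Agent.LibBH2.TwTools

/-!
RK13. Finite generation from the descent step and heights.
-/

open WeierstrassCurve Pool.Agent.LibBH2
open scoped Classical

namespace Rk1

/-- a group in which every element is `2 U + i P + j T` has `2 G` of finite index -/
theorem rk13_finiteIndex {G : Type*} [AddCommGroup G] (P T : G)
    (h : ∀ R : G, ∃ (U : G) (i j : ℤ), R = U + U + i • P + j • T) :
    (nsmulAddMonoidHom (α := G) 2).range.FiniteIndex := by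
  set H := (nsmulAddMonoidHom (α := G) 2).range with hH
  have hfin : Finite (G ⧸ H) := by
    refine Finite.of_surjective
      (fun ab : Fin 2 × Fin 2 => (QuotientAddGroup.mk (((ab.1 : ℕ) : ℤ) • P + ((ab.2 : ℕ) : ℤ) • T) :
        G ⧸ H)) ?_
    intro q
    obtain ⟨R, rfl⟩ := QuotientAddGroup.mk_surjective q
    obtain ⟨U, i, j, rfl⟩ := h R
    refine ⟨(⟨(i % 2).toNat, by omega⟩, ⟨(j % 2).toNat, by omega⟩), ?_⟩
    rw [QuotientAddGroup.eq, hH]
    refine ⟨U + (i / 2) • P + (j / 2) • T, ?_⟩
    have hi : (((i % 2).toNat : ℕ) : ℤ) = i - 2 * (i / 2) := by omega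
    have hj : (((j % 2).toNat : ℕ) : ℤ) = j - 2 * (j / 2) := by omega
    simp only [nsmulAddMonoidHom_apply, hi, hj]
    module
  exact AddSubgroup.finiteIndex_of_finite_quotient

theorem fg_of_step (W : WeierstrassCurve ℚ) (hΔ : W.Δ ≠ 0) (P T : W.toAffine.Point)
    (h : ∀ R : W.toAffine.Point, ∃ (U : W.toAffine.Point) (i j : ℤ), R = U + U + i • P + j • T)
    (hT : T + T = 0) :
    AddGroup.FG W.toAffine.Point := by
  have hE : W.IsElliptic := ⟨isUnit_iff_ne_zero.2 hΔ⟩
  obtain ⟨C, -, hC⟩ := approxPar W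
  have hX : ∀ R : W.toAffine.Point, XIn (constHom Qb W R) := by
    rintro (_ | ⟨x, y, hxy⟩)
    · exact Or.inl (constHom Qb W).map_zero
    · exact Or.inr ⟨x, _, bc_nons Qb W hxy, rfl⟩
  let ht : W.toAffine.Point → ℝ := fun R => nh (constHom Qb W R)
  have hN : Northcott ht := by
    refine ⟨fun B => ?_⟩
    have h1 := (finite_nh_le (W := W) (L := Qb) B).preimage
      (f := constHom Qb W) (constPt_injective Qb W).injOn
    exact h1.subset fun R hR => ⟨hX R, hR⟩
  refine AddCommGroup.fg_of_descent' (h := ht) (C := C) (rk13_finiteIndex P T h)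
    (fun R => nh_nonneg' _) fun R S => ?_
  have h1 := hC Qb (constHom Qb W R) (constHom Qb W S) (hX R) (hX S)
    (by rw [← map_add]; exact hX _) (by rw [← map_sub]; exact hX _)
  rw [← map_add, ← map_sub] at h1
  have e : ht (R + S) + ht (R - S) - 2 * (ht R + ht S) =
      nh (constHom Qb W (R + S)) + nh (constHom Qb W (R - S)) - 2 * nh (constHom Qb W R) -
        2 * nh (constHom Qb W S) := by
    simp only [ht]; ring
  rw [e]
  exact h1

end Rk1
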