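import Pool.Agent.LibRk1.RankOne
import Pool.Agent.LibBH2.Family
import Pool.Agent.LibBH2.TwTools

/-!
RK15. Finiteness of the image of `W(ℚ) × W'(ℚ)`.
-/

open WeierstrassCurve Pool.Agent.LibBH2
open scoped Classical

namespace Rk1

/-- a bilinear map is torsion valued if it is so on generators up to finite index -/
theorem rk15_torsion {G₁ G₂ M : Type*} [AddCommGroup G₁] [AddCommGroup G₂] [AddCommGroup M]
    (f : G₁ →+ G₂ →+ M) (P T : G₁) (P' T' : G₂)
    (hN : ∀ R : G₁, ∃ N : ℕ, 0 < N ∧ N • R ∈ AddSubgroup.closure {P, T})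
    (hN' : ∀ R : G₂, ∃ N : ℕ, 0 < N ∧ N • R ∈ AddSubgroup.closure {P', T'})
    (h1 : IsOfFinAddOrder (f P P')) (h2 : IsOfFinAddOrder (f P T'))
    (h3 : IsOfFinAddOrder (f T P')) (h4 : IsOfFinAddOrder (f T T')) (R : G₁) (S : G₂) :
    IsOfFinAddOrder (f R S) := by
  set tor := AddCommGroup.torsion M with htor
  have hmem : ∀ x : M, x ∈ tor ↔ IsOfFinAddOrder x := fun x => Iff.rfl
  have key1 : ∀ S' : G₂, f P S' ∈ tor → f T S' ∈ tor →
      ∀ R ∈ AddSubgroup.closure {P, T}, f R S' ∈ tor := by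
    intro S' hP hT R hR
    have : AddSubgroup.closure {P, T} ≤ tor.comap (f.flip S') := by
      rw [AddSubgroup.closure_le]
      rintro x (rfl | rfl)
      · exact hP
      · exact hT
    exact this hR
  have key2 : ∀ R : G₁, f R P' ∈ tor → f R T' ∈ tor →
      ∀ S ∈ AddSubgroup.closure {P', T'}, f R S ∈ tor := by
    intro R hP hT S hS
    have : AddSubgroup.closure {P', T'} ≤ tor.comap (f R) := by
      rw [AddSubgroup.closure_le]
      rintro x (rfl | rfl)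
      · exact hP
      · exact hT
    exact this hS
  obtain ⟨N, hN0, hNR⟩ := hN R
  obtain ⟨N', hN0', hNS⟩ := hN' S
  have h5 : f (N • R) (N' • S) ∈ tor :=
    key2 _ (key1 _ h1 h3 _ hNR) (key1 _ h2 h4 _ hNR) _ hNS
  rw [map_nsmul, map_nsmul, AddMonoidHom.nsmul_apply, hmem, isOfFinAddOrder_nsmul,
    isOfFinAddOrder_nsmul] at h5
  rcases h5 with (h5 | h5) | h5
  · exact h5
  · omega
  · omega

theorem finite_image (W W' : WeierstrassCurve ℚ) (hΔ : W.Δ ≠ 0) (hΔ' : W'.Δ ≠ 0)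
    (hfg : AddGroup.FG W.toAffine.Point) (hfg' : AddGroup.FG W'.toAffine.Point)
    (P T : W.toAffine.Point) (P' T' : W'.toAffine.Point) (hT : T + T = 0) (hT' : T' + T' = 0)
    (hN : ∀ R : W.toAffine.Point, ∃ N : ℕ, 0 < N ∧ N • R ∈ AddSubgroup.closure {P, T})
    (hN' : ∀ R : W'.toAffine.Point, ∃ N : ℕ, 0 < N ∧ N • R ∈ AddSubgroup.closure {P', T'})
    (h2 : 2 • (zc (constPt Qb P) (constPt Qb P') : CH0 (W⁄Qb) (W'⁄Qb)) = 0) :
    (AddSubgroup.closure {c : CH0 (W⁄Qb) (W'⁄Qb) | ∃ (R : W.toAffine.Point)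
      (S : W'.toAffine.Point), c = zc (constPt Qb R) (constPt Qb S)} :
        Set (CH0 (W⁄Qb) (W'⁄Qb))).Finite := by
  have hE : W.IsElliptic := ⟨isUnit_iff_ne_zero.2 hΔ⟩
  have hE' : W'.IsElliptic := ⟨isUnit_iff_ne_zero.2 hΔ'⟩
  let f : W.toAffine.Point →+ W'.toAffine.Point →+ CH0 (W⁄Qb) (W'⁄Qb) :=
    AddMonoidHom.mk' (fun R => (zHom (W⁄Qb) (W'⁄Qb) (constHom Qb W R)).comp (constHom Qb W'))
      (fun R R' => by
        ext S
        simp only [map_add, AddMonoidHom.add_apply, AddMonoidHom.comp_apply])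
  have hf : ∀ R S, f R S = zc (constPt Qb R) (constPt Qb S) := fun R S => rfl
  have hr : ∀ R, IsOfFinAddOrder (f R T') := by
    intro R
    refine isOfFinAddOrder_iff_nsmul_eq_zero.2 ⟨2, by norm_num, ?_⟩
    rw [← map_nsmul, two_nsmul, hT', map_zero]
  have hl : ∀ S, IsOfFinAddOrder (f T S) := by
    intro S
    refine isOfFinAddOrder_iff_nsmul_eq_zero.2 ⟨2, by norm_num, ?_⟩
    rw [← AddMonoidHom.nsmul_apply, ← map_nsmul, two_nsmul, hT, map_zero,
      AddMonoidHom.zero_apply]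
  have h := finite_of_bilin f (rk15_torsion f P T P' T' hN hN'
    (isOfFinAddOrder_iff_nsmul_eq_zero.2 ⟨2, by norm_num, h2⟩) (hr P) (hl P') (hr T))
  exact h

end Rk1
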