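import Pool.Agent.LibRk1.Cycle

/-!
Harmonic points: on `y² = x (x² + A x + B)` the point with `x = -2 B / A`. They are pairwise
orthogonal.
-/

open WeierstrassCurve Pool.Agent.LibBH2
open scoped Classical

namespace Rk1

/-- the matching identity, with `B = (A² - σ²) / 4`, `B' = (A'² - τ²) / 4` -/
theorem harm_match {k : Type} [Field k] [CharZero k] (A A' σ τ L t : k)
    (hL : L = τ * A - σ * A') (hL0 : L ≠ 0) :
    (2 * σ * ((A' ^ 2 - τ ^ 2) / 4) / L * t +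
        -(4 * σ * τ * ((A ^ 2 - σ ^ 2) / 4) * ((A' ^ 2 - τ ^ 2) / 4)) / L ^ 2) ^ 3 +
      A' * (2 * σ * ((A' ^ 2 - τ ^ 2) / 4) / L * t +
        -(4 * σ * τ * ((A ^ 2 - σ ^ 2) / 4) * ((A' ^ 2 - τ ^ 2) / 4)) / L ^ 2) ^ 2 * t +
      ((A' ^ 2 - τ ^ 2) / 4) * (2 * σ * ((A' ^ 2 - τ ^ 2) / 4) / L * t +
        -(4 * σ * τ * ((A ^ 2 - σ ^ 2) / 4) * ((A' ^ 2 - τ ^ 2) / 4)) / L ^ 2) * t ^ 2 =
    8 * ((A ^ 2 - σ ^ 2) / 4) * ((A' ^ 2 - τ ^ 2) / 4) ^ 2 * σ * τ ^ 2 / L ^ 3 *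
      ((-(2 * τ * ((A ^ 2 - σ ^ 2) / 4)) / L + t) ^ 3 +
        A * (-(2 * τ * ((A ^ 2 - σ ^ 2) / 4)) / L + t) ^ 2 +
        ((A ^ 2 - σ ^ 2) / 4) * (-(2 * τ * ((A ^ 2 - σ ^ 2) / 4)) / L + t)) := by
  field_simp
  subst hL
  ring

theorem harm_zc (A B A' B' : ℚ) (hB : B ≠ 0) (hB' : B' ≠ 0) (hD : A ^ 2 - 4 * B ≠ 0)
    (hD' : A' ^ 2 - 4 * B' ≠ 0) (hA : A ≠ 0) (hA' : A' ≠ 0)
    (hne : A' ^ 2 * (A ^ 2 - 4 * B) ≠ A ^ 2 * (A' ^ 2 - 4 * B')) (x y x' y' : ℚ)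
    (hx : x = -(2 * B) / A) (hx' : x' = -(2 * B') / A')
    (h : (ec A B).toAffine.Nonsingular x y) (h' : (ec A' B').toAffine.Nonsingular x' y') :
    2 • (zc (constPt Qb (Affine.Point.some _ _ h)) (constPt Qb (Affine.Point.some _ _ h')) :
      CH0 ((ec A B)⁄Qb) ((ec A' B')⁄Qb)) = 0 := by
  have hE₁ := rk14_ell hB hD
  have hE₂ := rk14_ell hB' hD'
  have hy2 : y ^ 2 * A ^ 3 = 2 * B ^ 2 * (A ^ 2 - 4 * B) := by
    have h1 := ec_of_nonsing h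
    rw [h1, hx]; field_simp; ring
  have hy2' : y' ^ 2 * A' ^ 3 = 2 * B' ^ 2 * (A' ^ 2 - 4 * B') := by
    have h1 := ec_of_nonsing h'
    rw [h1, hx']; field_simp; ring
  have hy0 : y ≠ 0 := by
    rintro rfl
    rw [zero_pow two_ne_zero, zero_mul] at hy2
    exact mul_ne_zero (mul_ne_zero two_ne_zero (pow_ne_zero 2 hB)) hD hy2.symm
  have hy0' : y' ≠ 0 := by
    rintro rfl
    rw [zero_pow two_ne_zero, zero_mul] at hy2'
    exact mul_ne_zero (mul_ne_zero two_ne_zero (pow_ne_zero 2 hB')) hD' hy2'.symm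
  set φ := algebraMap ℚ Qb with hφ
  have hinj : ∀ x : ℚ, x ≠ 0 → φ x ≠ 0 := fun x hx => by
    rw [hφ, Ne, map_eq_zero_iff _ (algebraMap ℚ Qb).injective]; exact hx
  have h4 : φ 4 = 4 := map_ofNat _ 4
  have h2 : φ 2 = 2 := map_ofNat _ 2
  obtain ⟨σ, hσ⟩ := IsAlgClosed.exists_pow_nat_eq (φ (A ^ 2 - 4 * B)) (n := 2) (by norm_num)
  obtain ⟨τ, hτ⟩ := IsAlgClosed.exists_pow_nat_eq (φ (A' ^ 2 - 4 * B')) (n := 2) (by norm_num)
  have hσ0 : σ ≠ 0 := by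
    rintro rfl
    apply hinj _ hD
    rw [← hσ]; ring
  have hτ0 : τ ≠ 0 := by
    rintro rfl
    apply hinj _ hD'
    rw [← hτ]; ring
  have hBe : φ B = (φ A ^ 2 - σ ^ 2) / 4 := by
    rw [hσ, map_sub, map_mul, map_pow, h4]; ring
  have hBe' : φ B' = (φ A' ^ 2 - τ ^ 2) / 4 := by
    rw [hτ, map_sub, map_mul, map_pow, h4]; ring
  set L := τ * φ A - σ * φ A' with hL
  have hL0 : L ≠ 0 := by
    intro h0
    apply hne
    apply (algebraMap ℚ Qb).injective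
    have h5 : (σ * φ A') ^ 2 = (τ * φ A) ^ 2 := by
      have : σ * φ A' = τ * φ A := by linear_combination -h0
      rw [this]
    rw [mul_pow, mul_pow, hσ, hτ, ← map_pow, ← map_pow, ← map_mul, ← map_mul] at h5
    have h6 := (algebraMap ℚ Qb).injective h5
    rw [← hφ]
    congr 1
    linear_combination h6
  have hA0 := hinj A hA
  have hA0' := hinj A' hA'
  have hB0 := hinj B hB
  have hB0' := hinj B' hB'
  have hyy := hinj y hy0
  have hyy' := hinj y' hy0'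
  obtain ⟨z, hz⟩ := IsAlgClosed.exists_pow_nat_eq (2 * φ B * σ * φ A' / (φ A * L)) (n := 2)
    (by norm_num)
  have hzz : 2 * φ B * σ * φ A' / (φ A * L) ≠ 0 :=
    div_ne_zero (mul_ne_zero (mul_ne_zero (mul_ne_zero two_ne_zero hB0) hσ0) hA0')
      (mul_ne_zero hA0 hL0)
  have hz0 : z ≠ 0 := by
    rintro rfl
    apply hzz
    rw [← hz]; ring
  have ey : φ y ^ 2 * φ A ^ 3 = 2 * φ B ^ 2 * σ ^ 2 := by
    rw [hσ, ← map_pow, ← map_pow, ← map_mul, hy2]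
    simp only [map_mul, map_pow, h2]
  have ey' : φ y' ^ 2 * φ A' ^ 3 = 2 * φ B' ^ 2 * τ ^ 2 := by
    rw [hτ, ← map_pow, ← map_pow, ← map_mul, hy2']
    simp only [map_mul, map_pow, h2]
  have hν : (φ y' / φ y * z ^ 3) ^ 2 = 8 * φ B * φ B' ^ 2 * σ * τ ^ 2 / L ^ 3 := by
    have hz6 : z ^ 6 = (2 * φ B * σ * φ A' / (φ A * L)) ^ 3 := by rw [← hz]; ring
    have e : (φ y' / φ y * z ^ 3) ^ 2 = φ y' ^ 2 / φ y ^ 2 * z ^ 6 := by ring
    rw [e, hz6]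
    have e3 : φ y' ^ 2 = 2 * φ B' ^ 2 * τ ^ 2 / φ A' ^ 3 := by
      rw [eq_div_iff (pow_ne_zero 3 hA0'), ey']
    have e4 : φ y ^ 2 = 2 * φ B ^ 2 * σ ^ 2 / φ A ^ 3 := by
      rw [eq_div_iff (pow_ne_zero 3 hA0), ey]
    rw [e3, e4]
    field_simp
    ring
  rw [constPt_some, constPt_some]
  refine genus2_zc (W₁ := (ec A B)⁄Qb) (W₂ := (ec A' B')⁄Qb)
    (-(2 * τ * φ B) / L) (2 * σ * φ B' / L) (-(4 * σ * τ * φ B * φ B') / L ^ 2)
    (φ y' / φ y * z ^ 3) ?_ ?_ ?_ z hz0 _ _ ?_ ?_ ?_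
  · exact div_ne_zero (neg_ne_zero.2 (mul_ne_zero (mul_ne_zero (mul_ne_zero (mul_ne_zero
      (by norm_num) hσ0) hτ0) hB0) hB0')) (pow_ne_zero 2 hL0)
  · exact mul_ne_zero (div_ne_zero hyy' hyy) (pow_ne_zero 3 hz0)
  · intro t
    rw [hν]
    simp only [baseChange, map_b₂, map_b₄, map_b₆, rk14_b₂, rk14_b₄, rk14_b₆, ← hφ]
    simp only [map_mul, map_zero, h4, h2]
    have key := harm_match (φ A) (φ A') σ τ L t hL hL0
    rw [← hBe, ← hBe'] at key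
    linear_combination 4 * key
  · simp only [← hφ]
    rw [hz, hx, map_div₀, map_neg, map_mul, h2]
    field_simp
    rw [hL]
    ring
  · simp only [← hφ]
    rw [hz, hx', map_div₀, map_neg, map_mul, h2]
    field_simp
    rw [hL]
    ring
  · simp only [baseChange, ec, map_a₁, map_a₃, map_zero, zero_mul, add_zero, ← hφ]
    field_simp

/-- the diagonal -/
noncomputable def morD (W : WeierstrassCurve Qb) [W.IsElliptic] : Mor W W W where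
  T₁ := genPt W
  T₂ := genPt W
  j₁ := id
  j₂ := id
  spec _ _ h := ⟨h, h⟩

theorem self_zc (W : WeierstrassCurve Qb) [W.IsElliptic] (P : W.toAffine.Point) :
    2 • (zc P P : CH0 W W) = 0 :=
  two_zc_of P P ((morD W).vert P)

end Rk1
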