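import Pool.Agent.LibRk1.Defs

/-!
RK17. The `j`-invariants.
-/

open WeierstrassCurve

namespace Rk1

/-- the curve `y² = x³ - 4 p q x² + 2 p q² (q + 2 p) x` -/
def rkCurve (p q : ℕ) : WeierstrassCurve ℚ :=
  ⟨0, -4 * p * q, 0, 2 * p * q ^ 2 * (q + 2 * p), 0⟩

theorem rkCurve_eq (p q l : ℕ) (hlq : l = q + 2 * p) :
    rkCurve p q = ec (-(4 * p * q)) (2 * p * q ^ 2 * l) := by
  rw [rkCurve, ec, hlq]
  push_cast
  congr 1
  ring

/-- `j = - 64 (2 p - 3 q)³ / (q l²)` -/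
theorem rkCurve_j (p q l : ℕ) (hp : p ≠ 0) (hq : q ≠ 0) (hl : l ≠ 0) (hlq : l = q + 2 * p) :
    (rkCurve p q).c₄ ^ 3 / (rkCurve p q).Δ =
      -64 * (2 * p - 3 * q) ^ 3 / (q * l ^ 2) := by
  have hp0 : (p : ℚ) ≠ 0 := by exact_mod_cast hp
  have hq0 : (q : ℚ) ≠ 0 := by exact_mod_cast hq
  have hl0 : (l : ℚ) ≠ 0 := by exact_mod_cast hl
  have hlQ : (l : ℚ) = q + 2 * p := by rw [hlq]; push_cast; ring
  have h1 : (rkCurve p q).c₄ = 32 * p * q ^ 2 * (2 * p - 3 * q) := by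
    simp only [rkCurve, WeierstrassCurve.c₄, WeierstrassCurve.b₂, WeierstrassCurve.b₄]
    ring
  have h2 : (rkCurve p q).Δ = -512 * p ^ 3 * q ^ 7 * l ^ 2 := by
    simp only [rkCurve, WeierstrassCurve.Δ, WeierstrassCurve.b₂, WeierstrassCurve.b₄,
      WeierstrassCurve.b₆, WeierstrassCurve.b₈]
    rw [hlQ]
    ring
  rw [h1, h2]
  field_simp
  ring

theorem rk_val_nonneg (r : ℕ) (hr : r.Prime) (N : ℤ) (M : ℕ) (hM : ¬ r ∣ M) (hM0 : M ≠ 0) :
    0 ≤ padicValRat r ((N : ℚ) / M) := by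
  have := Fact.mk hr
  by_cases hN : N = 0
  · rw [hN]; simp
  · have hNQ : (N : ℚ) ≠ 0 := by exact_mod_cast hN
    have hMQ : (M : ℚ) ≠ 0 := by exact_mod_cast hM0
    rw [padicValRat.div hNQ hMQ, padicValRat.of_int, padicValRat.of_nat,
      padicValNat.eq_zero_of_not_dvd hM]
    simp

theorem rk_val_neg (r : ℕ) (hr : r.Prime) (N : ℤ) (M : ℕ) (hM : r ∣ M) (hM0 : M ≠ 0)
    (hN : ¬ (r : ℤ) ∣ N) :
    padicValRat r ((N : ℚ) / M) < 0 := by
  have := Fact.mk hr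
  have hN0 : N ≠ 0 := by rintro rfl; exact hN (dvd_zero _)
  have hNQ : (N : ℚ) ≠ 0 := by exact_mod_cast hN0
  have hMQ : (M : ℚ) ≠ 0 := by exact_mod_cast hM0
  rw [padicValRat.div hNQ hMQ, padicValRat.of_int, padicValRat.of_nat,
    padicValInt.eq_zero_of_not_dvd hN]
  have := (dvd_iff_padicValNat_ne_zero hM0).1 hM
  have h1 : 0 < padicValNat r M := Nat.pos_of_ne_zero this
  have h2 : (0 : ℤ) < padicValNat r M := by exact_mod_cast h1
  simp only [Nat.cast_zero, zero_sub]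
  linarith

/-- the primes where `j` is not integral are exactly `q` and `l` -/
theorem rk_val (p q l : ℕ) (hp : p.Prime) (hq : q.Prime) (hl : l.Prime) (hp8 : p % 8 = 3)
    (hq8 : q % 8 = 5) (hlq : l = q + 2 * p) (r : ℕ) (hr : r.Prime) :
    (r = q ∨ r = l → padicValRat r ((rkCurve p q).c₄ ^ 3 / (rkCurve p q).Δ) < 0) ∧
    (r ≠ q → r ≠ l → 0 ≤ padicValRat r ((rkCurve p q).c₄ ^ 3 / (rkCurve p q).Δ)) := by
  rw [rkCurve_j p q l hp.ne_zero hq.ne_zero hl.ne_zero hlq]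
  have e : (-64 * (2 * (p : ℚ) - 3 * q) ^ 3 / (q * l ^ 2) : ℚ) =
      ((-64 * (2 * p - 3 * q) ^ 3 : ℤ) : ℚ) / ((q * l ^ 2 : ℕ) : ℚ) := by
    push_cast; ring
  rw [e]
  have hM0 : q * l ^ 2 ≠ 0 := mul_ne_zero hq.ne_zero (pow_ne_zero 2 hl.ne_zero)
  have hq2 : q ≠ 2 := by rintro rfl; omega
  have hl2 : l ≠ 2 := by rintro rfl; omega
  have hq3 : q ≠ 3 := by rintro rfl; omega
  have hpq : p ≠ q := by rintro rfl; omega
  have hlq' : l ≠ q := by have := hp.pos; omega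
  constructor
  · intro h
    apply rk_val_neg r hr _ _ _ hM0
    · intro hdvd
      have hrp : Prime (r : ℤ) := Nat.prime_iff_prime_int.1 hr
      have h64 : (-64 : ℤ) = -(2 ^ 6) := by norm_num
      rcases hrp.dvd_or_dvd hdvd with h1 | h1
      · rw [h64, dvd_neg] at h1
        have h2 := hrp.dvd_of_dvd_pow h1
        have h3 : r ∣ 2 := by exact_mod_cast h2
        have h4 := (Nat.prime_dvd_prime_iff_eq hr Nat.prime_two).1 h3
        rcases h with h | h
        · exact hq2 (h ▸ h4)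
        · exact hl2 (h ▸ h4)
      · have h2 := hrp.dvd_of_dvd_pow h1
        rcases h with h | h
        · subst h
          have h3 : (r : ℤ) ∣ 2 * p := by
            have : (2 * p : ℤ) = (2 * p - 3 * r) + 3 * r := by ring
            rw [this]; exact dvd_add h2 (Dvd.intro_left _ rfl)
          have h4 : r ∣ 2 * p := by exact_mod_cast h3
          rcases (Nat.Prime.dvd_mul hr).1 h4 with h5 | h5
          · exact hq2 ((Nat.prime_dvd_prime_iff_eq hr Nat.prime_two).1 h5)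
          · exact hpq ((Nat.prime_dvd_prime_iff_eq hr hp).1 h5).symm
        · subst h
          have h3 : (r : ℤ) ∣ 4 * q := by
            have h5 : (r : ℤ) = q + 2 * p := by exact_mod_cast hlq
            have : (4 * q : ℤ) = r - (2 * p - 3 * q) := by rw [h5]; ring
            rw [this]; exact dvd_sub (dvd_refl _) h2
          have h4 : r ∣ 2 ^ 2 * q := by
            have : (4 * q : ℤ) = ((2 ^ 2 * q : ℕ) : ℤ) := by push_cast; ring
            rw [this] at h3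
            exact_mod_cast h3
          rcases (Nat.Prime.dvd_mul hr).1 h4 with h5 | h5
          · exact hl2 ((Nat.prime_dvd_prime_iff_eq hr Nat.prime_two).1 (hr.dvd_of_dvd_pow h5))
          · exact hlq' ((Nat.prime_dvd_prime_iff_eq hr hq).1 h5)
    · rcases h with h | h
      · rw [h]; exact Dvd.intro _ rfl
      · rw [h]; exact dvd_mul_of_dvd_right (dvd_pow_self l two_ne_zero) q
  · intro h1 h2
    apply rk_val_nonneg r hr _ _ _ hM0
    intro h3
    rcases (Nat.Prime.dvd_mul hr).1 h3 with h4 | h4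
    · exact h1 ((Nat.prime_dvd_prime_iff_eq hr hq).1 h4)
    · exact h2 ((Nat.prime_dvd_prime_iff_eq hr hl).1 (hr.dvd_of_dvd_pow h4))

theorem rk_nonisog (p q p' q' : ℕ) (hp : p.Prime) (hq : q.Prime) (hl : (q + 2 * p).Prime)
    (hp8 : p % 8 = 3) (hq8 : q % 8 = 5) (hp' : p'.Prime) (hq' : q'.Prime)
    (hl' : (q' + 2 * p').Prime) (hp8' : p' % 8 = 3) (hq8' : q' % 8 = 5)
    (hne : (p, q) ≠ (p', q')) :
    ∃ r : ℕ, r.Prime ∧ padicValRat r ((rkCurve p q).c₄ ^ 3 / (rkCurve p q).Δ) < 0 ∧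
      0 ≤ padicValRat r ((rkCurve p' q').c₄ ^ 3 / (rkCurve p' q').Δ) := by
  by_cases h : q = q'
  · have h2 : q + 2 * p ≠ q' + 2 * p' := by
      intro h3
      apply hne
      have : p = p' := by omega
      rw [this, h]
    refine ⟨q + 2 * p, hl, (rk_val p q _ hp hq hl hp8 hq8 rfl _ hl).1 (Or.inr rfl),
      (rk_val p' q' _ hp' hq' hl' hp8' hq8' rfl _ hl).2 ?_ h2⟩
    omega
  · refine ⟨q, hq, (rk_val p q _ hp hq hl hp8 hq8 rfl _ hq).1 (Or.inl rfl),
      (rk_val p' q' _ hp' hq' hl' hp8' hq8' rfl _ hq).2 h ?_⟩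
    omega

end Rk1
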