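import Pool.Agent.LibIG50.TJ
import Pool.Agent.LibBH2.TwTools

/-!
The subgroup generated by the classes of the points of a product of finitely generated groups.
-/

open scoped Classical
open WeierstrassCurve Pool.Agent.LibBH2 Pool.Agent.LibIG50

namespace Rk1

/-- a map that is affine in each variable -/
theorem multi_fg {r : ℕ} {G : Fin r → Type} [∀ i, AddCommGroup (G i)] {M : Type}
    [AddCommGroup M] (F : (∀ i, G i) → M)
    (hF : ∀ (b : ∀ i, G i) (i : Fin r) (x y : G i),
      F (Function.update b i (x + y)) + F (Function.update b i 0) =
        F (Function.update b i x) + F (Function.update b i y))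
    (hG : ∀ i, AddGroup.FG (G i)) : (AddSubgroup.closure (Set.range F)).FG := by
  have h1 : ∀ i, ∃ S : Finset (G i), AddSubgroup.closure (S : Set (G i)) = ⊤ :=
    fun i => (AddGroup.fg_def.1 (hG i))
  choose S hS using h1
  set B : Set (∀ i, G i) := Set.pi Set.univ (fun i => (S i : Set (G i)) ∪ {0}) with hB
  have hBfin : B.Finite := Set.Finite.pi fun i => (S i).finite_toSet.union (Set.finite_singleton 0)
  have key : ∀ (s : Finset (Fin r)) (a : ∀ i, G i), (∀ i, i ∉ s → a i ∈ (S i : Set (G i)) ∪ {0}) →
      F a ∈ AddSubgroup.closure (F '' B) := by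
    intro s
    induction s using Finset.induction_on with
    | empty =>
      intro a ha
      exact AddSubgroup.subset_closure ⟨a, fun i _ => ha i (Finset.notMem_empty i), rfl⟩
    | insert j s hj ih =>
      intro a ha
      have hb : ∀ x : G j, x ∈ (S j : Set (G j)) ∪ {0} →
          F (Function.update a j x) ∈ AddSubgroup.closure (F '' B) := by
        intro x hx
        apply ih
        intro i hi
        by_cases hij : i = j
        · subst hij
          rw [Function.update_self]
          exact hx
        · rw [Function.update_of_ne hij]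
          exact ha i (by simp [hij, hi])
      have h0 := hb 0 (Or.inr rfl)
      have hall : ∀ x : G j, x ∈ AddSubgroup.closure (S j : Set (G j)) →
          F (Function.update a j x) ∈ AddSubgroup.closure (F '' B) := by
        intro x hx
        induction hx using AddSubgroup.closure_induction with
        | mem x hx => exact hb x (Or.inl hx)
        | zero => exact h0
        | add x y _ _ hx hy =>
          have h2 := hF a j x y
          have h3 : F (Function.update a j (x + y)) = F (Function.update a j x) +
              F (Function.update a j y) - F (Function.update a j 0) := by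
            rw [← h2]; abel
          rw [h3]
          exact sub_mem (add_mem hx hy) h0
        | neg x _ hx =>
          have h2 := hF a j x (-x)
          rw [add_neg_cancel] at h2
          have h3 : F (Function.update a j (-x)) = F (Function.update a j 0) +
              F (Function.update a j 0) - F (Function.update a j x) := by
            rw [h2]; abel
          rw [h3]
          exact sub_mem (add_mem h0 h0) hx
      have := hall (a j) (by rw [hS j]; trivial)
      rwa [Function.update_eq_self] at this
  rw [AddSubgroup.fg_iff]
  refine ⟨F '' B, le_antisymm ?_ ?_, hBfin.image F⟩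
  · exact AddSubgroup.closure_mono (Set.image_subset_range F B)
  · rw [AddSubgroup.closure_le]
    rintro _ ⟨a, rfl⟩
    exact key Finset.univ a (fun i hi => absurd (Finset.mem_univ i) hi)

/-- the torsion of a finitely generated abelian group is finite -/
theorem finite_tors {M : Type} [AddCommGroup M] (H : AddSubgroup M) (hH : H.FG) :
    {x : M | x ∈ H ∧ IsOfFinAddOrder x}.Finite := by
  have h1 : Module.Finite ℤ H := by
    rw [Module.Finite.iff_addGroup_fg]
    exact (AddGroup.fg_iff_addSubgroup_fg H).2 hH
  have h2 : IsNoetherian ℤ H := isNoetherian_of_isNoetherianRing_of_finite ℤ H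
  set T : Submodule ℤ H := AddSubgroup.toIntSubmodule (AddCommGroup.torsion H) with hT
  have h3 : Module.Finite ℤ T := Module.Finite.of_fg (IsNoetherian.noetherian T)
  have h4 : AddGroup.FG T := Module.Finite.iff_addGroup_fg.1 h3
  have h5 : IsAddTorsion T := by
    rintro ⟨x, hx⟩
    have hx' : IsOfFinAddOrder x := hx
    rw [isOfFinAddOrder_iff_nsmul_eq_zero] at hx' ⊢
    obtain ⟨n, hn, h⟩ := hx'
    exact ⟨n, hn, Subtype.ext h⟩
  have h6 : Finite T := AddCommGroup.finite_of_fg_isAddTorsion T h5
  have h7 : (Set.range (fun t : T => ((t : H) : M))).Finite := Set.finite_range _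
  refine h7.subset ?_
  rintro x ⟨hx, hfin⟩
  have hx2 : IsOfFinAddOrder (⟨x, hx⟩ : H) := by
    rw [isOfFinAddOrder_iff_nsmul_eq_zero] at hfin ⊢
    obtain ⟨n, hn, h⟩ := hfin
    exact ⟨n, hn, Subtype.ext h⟩
  exact ⟨⟨⟨x, hx⟩, hx2⟩, rfl⟩

/-- the subgroup of the Chow group generated by the rational points is finitely generated -/
theorem cls_fg {r : ℕ} (W : Fin r → WeierstrassCurve ℚ) (hΔ : ∀ i, (W i).Δ ≠ 0)
    (hG : ∀ i, AddGroup.FG (W i).toAffine.Point) :
    (AddSubgroup.closure (Set.range (fun a : (∀ i, (W i).toAffine.Point) =>
      cls (fun i => (W i)⁄Qb) (Finsupp.single (fun i => constPt Qb (a i)) 1)))).FG := by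
  have hE : ∀ i, ((W i)⁄Qb).IsElliptic := by
    intro i
    have : (W i).IsElliptic := ⟨isUnit_iff_ne_zero.2 (hΔ i)⟩
    infer_instance
  refine multi_fg _ ?_ hG
  intro b i x y
  obtain ⟨G, hG⟩ := push_one (fun i => (W i)⁄Qb) (fun i => constPt Qb (b i)) i
  have h1 := congrArg G (pt_add_left (W₁ := (W i)⁄Qb) (W₂ := (W i)⁄Qb)
    (constPt Qb x) (constPt Qb y) 0)
  simp only [map_add, hG] at h1
  have h2 : ∀ z : (W i).toAffine.Point, (fun l => constPt Qb (Function.update b i z l)) =
      Function.update (fun l => constPt Qb (b l)) i (constPt Qb z) := by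
    intro z
    funext l
    by_cases hl : l = i
    · subst hl
      rw [Function.update_self, Function.update_self]
    · rw [Function.update_of_ne hl, Function.update_of_ne hl]
  have h3 := (constHom Qb (W i)).map_add x y
  simp only [constHom_apply] at h3
  simp only [h2]
  rw [h3]
  exact h1

end Rk1
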