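import Pool.Agent.LibVinogradov.Pairs3

/-!
RK16. Infinitely many primes `p = 3 mod 8`, `q = 5 mod 8` with `q + 2 p` prime.
-/

open Finset Filter Topology

namespace LSieve

/-- sums over residue classes modulo `e` -/
noncomputable def Be (P P' : Finset ℕ) (e : ℕ) : ℝ :=
  ∑ ρ ∈ range e, th (cls P e ρ) * th (cls P' e ρ)

lemma Be_eq (P P' : Finset ℕ) (e : ℕ) (he : 0 < e) : Be P P' e =
    ∑ p ∈ P, ∑ q ∈ P', if ((e : ℕ) : ℤ) ∣ (q : ℤ) - p then Real.log p * Real.log q else 0 := by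
  classical
  have hmaps : ∀ p ∈ P, p % e ∈ range e := fun p _ => mem_range.2 (Nat.mod_lt _ he)
  rw [← sum_fiberwise_of_maps_to hmaps]
  unfold Be th
  refine sum_congr rfl fun ρ _ => ?_
  rw [sum_mul_sum]
  unfold cls
  refine sum_congr rfl fun p hp => ?_
  rw [mem_filter] at hp
  rw [sum_filter]
  refine sum_congr rfl fun q _ => ?_
  have h1 : ((e : ℕ) : ℤ) ∣ (q : ℤ) - p ↔ q % e = ρ := by
    rw [← hp.2, ← Int.modEq_iff_dvd, Int.natCast_modEq_iff]
    exact eq_comm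
  by_cases h : q % e = ρ
  · rw [if_pos h, if_pos (h1.2 h)]
  · rw [if_neg h, if_neg (fun h2 => h (h1.1 h2))]

lemma diff16 {n p q : ℕ} (hp : p ∈ PP 16 5 n) (hq : q ∈ PQ 16 11 n) :
    ∃ t : ℤ, (q : ℤ) - p = 16 * t + 6 := by
  unfold PP at hp
  unfold PQ at hq
  have h1 := (mem_filter.1 hp).2.2
  have h2 := (mem_filter.1 hq).2.2
  unfold Nat.ModEq at h1 h2
  refine ⟨((q : ℤ) - p) / 16, ?_⟩
  omega

lemma Ae16_odd (n e : ℕ) (he : Odd e) :
    Ae (PP 16 5 n) (PQ 16 11 n) e = Be (PP 16 5 n) (PQ 16 11 n) e := by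
  have he0 : 0 < e := he.pos
  rw [Ae_eq _ _ _ he0, Be_eq _ _ _ he0]
  refine sum_congr rfl fun p hp => sum_congr rfl fun q hq => ?_
  obtain ⟨t, ht⟩ := diff16 hp hq
  have h1 : ((2 * e : ℕ) : ℤ) ∣ (q : ℤ) - p ↔ (e : ℤ) ∣ (q : ℤ) - p := by
    constructor
    · intro h
      exact (Dvd.intro_left (2 : ℤ) (by push_cast; ring)).trans h
    · intro h
      have h2 : (2 : ℤ) ∣ (q : ℤ) - p := ⟨8 * t + 3, by rw [ht]; ring⟩
      have h3 : IsCoprime (2 : ℤ) (e : ℤ) := by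
        have : Nat.Coprime 2 e := (Nat.coprime_two_left).2 he
        exact_mod_cast Nat.isCoprime_iff_coprime.2 this
      have := h3.mul_dvd h2 h
      push_cast
      exact this
  by_cases h : (e : ℤ) ∣ (q : ℤ) - p
  · rw [if_pos h, if_pos (h1.2 h)]
  · rw [if_neg h, if_neg (fun h2 => h (h1.1 h2))]

lemma Ae16_even (n e : ℕ) (he0 : 0 < e) (he : 2 ∣ e) :
    Ae (PP 16 5 n) (PQ 16 11 n) e = 0 := by
  rw [Ae_eq _ _ _ he0]
  refine sum_eq_zero fun p hp => sum_eq_zero fun q hq => ?_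
  obtain ⟨t, ht⟩ := diff16 hp hq
  rw [if_neg]
  rintro ⟨c, hc⟩
  obtain ⟨e', rfl⟩ := he
  push_cast at hc
  rw [ht] at hc
  have : (16 * t + 6) % 4 = 0 := by
    rw [hc, show 2 * (2 * (e' : ℤ)) * c = 4 * (e' * c) by ring]
    exact Int.mul_emod_right _ _
  omega

lemma totient_eA (A : Finset ℕ) (hA : ∀ p ∈ A, p.Prime) :
    (eA A).totient = ∏ p ∈ A, (p - 1) := by
  classical
  induction A using Finset.induction_on with
  | empty => simp [eA]
  | insert a s ha ih =>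
    have h1 : eA (insert a s) = a * eA s := by
      unfold eA; rw [prod_insert ha]
    have hap := hA a (mem_insert_self _ _)
    have h2 : a.Coprime (eA s) := by
      unfold eA
      apply Nat.Coprime.prod_right
      intro i hi
      exact (Nat.coprime_primes hap (hA i (mem_insert_of_mem hi))).2 (fun h => ha (h ▸ hi))
    rw [h1, Nat.totient_mul h2, Nat.totient_prime hap, prod_insert ha,
      ih (fun p hp => hA p (mem_insert_of_mem hp))]

lemma prod_gp2 (A : Finset ℕ) (hA : ∀ p ∈ A, p.Prime) :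
    ∏ p ∈ A, gp 2 p = if 2 ∈ A then 0 else 1 / ((eA A).totient : ℝ) := by
  split_ifs with h
  · exact prod_eq_zero h (by simp [gp])
  · rw [totient_eA A hA]
    push_cast
    rw [one_div, ← prod_inv_distrib]
    refine prod_congr rfl fun p hp => ?_
    unfold gp
    have h2 : p ≠ 2 := by rintro rfl; exact h hp
    rw [if_neg h2, if_neg h2, Nat.cast_sub (hA p hp).one_le]
    simp

lemma Ae16_tendsto (A : Finset ℕ) (hA : ∀ p ∈ A, p.Prime) :
    Tendsto (fun n : ℕ => Ae (PP 16 5 n) (PQ 16 11 n) (eA A) / ((4 * n ^ 32 : ℕ) : ℝ) ^ 2) atTop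
      (𝓝 ((∏ p ∈ A, gp 2 p) / 64)) := by
  have he0 := eA_pos hA
  rw [prod_gp2 A hA]
  by_cases hdA : 2 ∈ A
  · rw [if_pos hdA, zero_div]
    have hde : 2 ∣ eA A := dvd_prod_of_mem (fun p => p) hdA
    simp_rw [Ae16_even _ _ he0 hde, zero_div]
    exact tendsto_const_nhds
  · rw [if_neg hdA]
    set m := eA A with hm
    have hodd : Odd m := by
      rw [← Nat.not_even_iff_odd, even_iff_two_dvd]
      intro h3
      rw [hm] at h3
      unfold eA at h3
      obtain ⟨p, hp, hpd⟩ := (Nat.prime_two.prime.dvd_finsetProd_iff _).1 h3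
      have := (Nat.prime_dvd_prime_iff_eq Nat.prime_two (hA p hp)).1 hpd
      rw [this] at hdA
      exact hdA hp
    have hdm : Nat.Coprime 16 m := by
      have : Nat.Coprime (2 ^ 4) m := Nat.Coprime.pow_left 4 ((Nat.coprime_two_left).2 hodd)
      exact this
    have hφm : (0 : ℝ) < m.totient := by exact_mod_cast Nat.totient_pos.2 he0
    have h16 : Nat.totient 16 = 8 := by decide
    have hlim : ∀ ρ ∈ range m, ∀ u : ℕ, 0 < u → ∀ c : ℕ, c.Coprime 16 →
        Tendsto (fun n : ℕ => th (cls {p ∈ Ioc (u * (4 * n ^ 32)) ((u + 1) * (4 * n ^ 32)) |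
          p.Prime ∧ p ≡ c [MOD 16]} m ρ) / ((4 * n ^ 32 : ℕ) : ℝ)) atTop
        (𝓝 (if m.Coprime ρ then (8 * (m.totient : ℝ))⁻¹ else 0)) := by
      intro ρ hρ u hu c hc
      split_ifs with h
      · have h1 := class_tendsto 16 c m ρ u (u + 1) hdm (by norm_num) he0 hc h.symm
          (mem_range.1 hρ) hu (by omega)
        have h2 : (((u + 1 : ℕ) : ℝ) - u) * ((Nat.totient 16 * m.totient : ℕ) : ℝ)⁻¹ =
            (8 * (m.totient : ℝ))⁻¹ := by
          rw [h16]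
          push_cast
          ring
        rw [h2] at h1
        exact h1
      · apply tendsto_const_nhds.congr'
        filter_upwards [N_tendsto.eventually_ge_atTop m] with n hn
        rw [class_zero m ρ he0 (fun h2 => h h2.symm) n hn, zero_div]
        intro p hp
        rw [mem_filter, mem_Ioc] at hp
        refine ⟨hp.2.1, lt_of_le_of_lt ?_ hp.1.1⟩
        exact Nat.le_mul_of_pos_left _ hu
    have h1 : Tendsto (fun n : ℕ => ∑ ρ ∈ range m,
        (th (cls (PP 16 5 n) m ρ) / ((4 * n ^ 32 : ℕ) : ℝ)) *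
        (th (cls (PQ 16 11 n) m ρ) / ((4 * n ^ 32 : ℕ) : ℝ))) atTop
        (𝓝 (∑ ρ ∈ range m, (if m.Coprime ρ then (8 * (m.totient : ℝ))⁻¹ else 0) *
          (if m.Coprime ρ then (8 * (m.totient : ℝ))⁻¹ else 0))) := by
      apply tendsto_finsetSum
      intro ρ hρ
      apply Tendsto.mul
      · have := hlim ρ hρ 1 (by norm_num) 5 (by norm_num)
        simp only [one_mul] at this
        exact this
      · exact hlim ρ hρ 3 (by norm_num) 11 (by norm_num)
    have h2 : ∑ ρ ∈ range m, (if m.Coprime ρ then (8 * (m.totient : ℝ))⁻¹ else 0) *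
          (if m.Coprime ρ then (8 * (m.totient : ℝ))⁻¹ else 0) =
          1 / (m.totient : ℝ) / 64 := by
      have h3 : ∀ ρ ∈ range m, (if m.Coprime ρ then (8 * (m.totient : ℝ))⁻¹ else 0) *
          (if m.Coprime ρ then (8 * (m.totient : ℝ))⁻¹ else 0) =
          (if m.Coprime ρ then ((8 * (m.totient : ℝ))⁻¹) ^ 2 else 0) := by
        intro ρ _
        split_ifs <;> ring
      rw [sum_congr rfl h3, ← sum_filter, sum_const, nsmul_eq_mul, ← Nat.totient_eq_card_coprime]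
      field_simp
      norm_num
    rw [h2] at h1
    refine h1.congr fun n => ?_
    rw [Ae16_odd n m hodd]
    unfold Be
    rw [sum_div]
    refine sum_congr rfl fun ρ _ => ?_
    ring

/-- Lower bound for the singular series. -/
lemma singular16_ge (w : ℕ) :
    1 / 2 ≤ V (primesTo w) * ∑ A ∈ (primesTo w).powerset, (-1 : ℝ) ^ #A * ∏ p ∈ A, gp 2 p := by
  have h0 := singular_ge 0 w (by norm_num)
  refine h0.trans ?_
  rw [sum_powerset_gp, sum_powerset_gp]
  have hV : 0 ≤ V (primesTo w) :=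
    (V_pos (fun p hp => (mem_primesTo.1 hp).2)).le
  refine mul_le_mul_of_nonneg_left ?_ hV
  refine prod_le_prod (fun p hp => ?_) fun p hp => ?_
  · have h2 := (mem_primesTo.1 hp).2.two_le
    have h3 : p ≠ 0 := by omega
    unfold gp
    rw [if_neg h3]
    split_ifs with h4
    · norm_num
    · have h5 : (3 : ℝ) ≤ p := by
        have : 3 ≤ p := by omega
        exact_mod_cast this
      rw [sub_nonneg, div_le_one (by linarith)]
      linarith
  · have h2 := (mem_primesTo.1 hp).2.two_le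
    have h3 : p ≠ 0 := by omega
    unfold gp
    rw [if_neg h3]
    split_ifs with h4
    · norm_num
    · exact le_rfl

/-- Lower bound for the main term. -/
theorem main_term16 (w : ℕ) :
    ∀ᶠ n : ℕ in atTop, 48 / 100 / 64 * ((4 * n ^ 32 : ℕ) : ℝ) ^ 2 ≤
      V (primesTo w) * Cnt3 n (PP 16 5 n) (PQ 16 11 n) (ind w.factorial) := by
  set S := (primesTo w).powerset with hS
  have hSp : ∀ A ∈ S, ∀ p ∈ A, p.Prime := fun A hA p hp =>
    (mem_primesTo.1 (mem_powerset.1 hA hp)).2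
  have hlim : Tendsto (fun n : ℕ => V (primesTo w) * ((∑ A ∈ S, (-1 : ℝ) ^ #A *
      Ae (PP 16 5 n) (PQ 16 11 n) (eA A)) / ((4 * n ^ 32 : ℕ) : ℝ) ^ 2)) atTop
      (𝓝 (V (primesTo w) * (∑ A ∈ S, (-1 : ℝ) ^ #A * ((∏ p ∈ A, gp 2 p) / 64)))) := by
    apply Tendsto.const_mul
    have h1 : Tendsto (fun n : ℕ => ∑ A ∈ S, (-1 : ℝ) ^ #A *
      (Ae (PP 16 5 n) (PQ 16 11 n) (eA A) / ((4 * n ^ 32 : ℕ) : ℝ) ^ 2)) atTop
      (𝓝 (∑ A ∈ S, (-1 : ℝ) ^ #A * ((∏ p ∈ A, gp 2 p) / 64))) := by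
      apply tendsto_finsetSum
      intro A hA
      exact (Ae16_tendsto A (hSp A hA)).const_mul _
    refine h1.congr fun n => ?_
    rw [sum_div]
    refine sum_congr rfl fun A _ => ?_
    ring
  have hval : 1 / 2 / 64 ≤ V (primesTo w) * (∑ A ∈ S, (-1 : ℝ) ^ #A *
      ((∏ p ∈ A, gp 2 p) / 64)) := by
    have h1 := singular16_ge w
    have h2 : V (primesTo w) * (∑ A ∈ S, (-1 : ℝ) ^ #A *
      ((∏ p ∈ A, gp 2 p) / 64)) =
      (V (primesTo w) * ∑ A ∈ S, (-1 : ℝ) ^ #A * ∏ p ∈ A, gp 2 p) / 64 := by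
      rw [mul_div_assoc, sum_div]
      congr 1
      refine sum_congr rfl fun A _ => ?_
      ring
    rw [h2]
    gcongr
  have hlt : (48 / 100 / 64 : ℝ) < V (primesTo w) * (∑ A ∈ S, (-1 : ℝ) ^ #A *
      ((∏ p ∈ A, gp 2 p) / 64)) := lt_of_lt_of_le (by norm_num) hval
  have hev1 := hlim.eventually_const_le hlt
  filter_upwards [hev1, eventually_ge_atTop 2] with n h1 hn
  rw [Cnt3_ind n w (PP 16 5 n) (PQ 16 11 n) (filter_subset _ _) (filter_subset _ _)]
  have hN0 : (0 : ℝ) < ((4 * n ^ 32 : ℕ) : ℝ) := by positivity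
  rw [← mul_div_assoc, le_div_iff₀ (by positivity)] at h1
  exact h1

/-- **Ternary theorem modulo 16.** -/
theorem Cnt16_ge :
    ∀ᶠ n : ℕ in atTop, 1 / 192 * ((4 * n ^ 32 : ℕ) : ℝ) ^ 2 ≤
      Real.log ((2 * n ^ 32 : ℕ) : ℝ) * Cnt3 n (PP 16 5 n) (PQ 16 11 n) vI := by
  obtain ⟨w, hw, h1⟩ := Cnt3_kT_small (1 / 640) (by positivity)
  filter_upwards [h1, main_term16 w, eventually_ge_atTop 1] with n h2 h3 hn
  have h4 := h2 (PP 16 5 n) (PQ 16 11 n) (good_PP 16 5 n hn) (good_PQ 16 11 n hn)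
    (filter_subset _ _) (filter_subset _ _)
  have h5 := Cnt3_kT_eq n w.factorial (PP 16 5 n) (PQ 16 11 n)
  rw [factorial_ratio w] at h5
  have h6 := (abs_le.1 h4).1
  have h10 : (0 : ℝ) ≤ ((4 * n ^ 32 : ℕ) : ℝ) ^ 2 := by positivity
  push_cast at h3 h6 h10 ⊢
  push_cast at h5
  linarith

end LSieve

namespace Rk1

open LSieve

theorem pairs16 : {x : ℕ × ℕ | x.1.Prime ∧ x.2.Prime ∧ (x.2 + 2 * x.1).Prime ∧ x.1 % 8 = 3 ∧
    x.2 % 8 = 5}.Infinite := by
  intro hfin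
  obtain ⟨B, hB⟩ := (hfin.image Prod.snd).bddAbove
  obtain ⟨n, h, hn⟩ := ((Cnt16_ge.and (eventually_ge_atTop (B + 3)))).exists
  have hn3 : 3 ≤ n := by omega
  have h1 := Cnt3_le n 16 5 11 (by omega)
  have hlog : 0 < Real.log ((2 * n ^ 32 : ℕ) : ℝ) := by
    apply Real.log_pos
    have : 1 < 2 * n ^ 32 := by
      have : 0 < n ^ 32 := by positivity
      omega
    exact_mod_cast this
  have h2 : 0 < Cnt3 n (PP 16 5 n) (PQ 16 11 n) vI := by
    have hpos : (0 : ℝ) < 1 / 192 * ((4 * n ^ 32 : ℕ) : ℝ) ^ 2 := by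
      have : 0 < 4 * n ^ 32 := by positivity
      have : (0 : ℝ) < ((4 * n ^ 32 : ℕ) : ℝ) := by exact_mod_cast this
      positivity
    exact pos_of_mul_pos_right (hpos.trans_le h) hlog.le
  have h3 : (Pr3 n 16 5 11).Nonempty := by
    rw [nonempty_iff_ne_empty]
    intro h0
    rw [h0] at h1
    simp at h1
    linarith
  obtain ⟨⟨q, l⟩, hx⟩ := h3
  rw [Pr3, mem_filter, mem_product] at hx
  simp only at hx
  obtain ⟨⟨hp, hq⟩, ht, heq⟩ := hx
  have e3 := mem_Ioc.1 (mem_filter.1 hp).1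
  have e5 := (mem_filter.1 hp).2
  have e6 := (mem_filter.1 hq).2
  have m5 := e5.2
  have m6 := e6.2
  unfold Nat.ModEq at m5 m6
  have hmem : ((l - q) / 2, q) ∈ {x : ℕ × ℕ | x.1.Prime ∧ x.2.Prime ∧ (x.2 + 2 * x.1).Prime ∧
      x.1 % 8 = 3 ∧ x.2 % 8 = 5} := by
    refine ⟨ht, e5.1, ?_, ?_, ?_⟩
    · show (q + 2 * ((l - q) / 2)).Prime
      rw [← heq]; exact e6.1
    · show (l - q) / 2 % 8 = 3
      omega
    · show q % 8 = 5
      omega
  have h5 := hB ⟨_, hmem, rfl⟩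
  simp only at h5
  have h6 : n ≤ n ^ 32 := Nat.le_self_pow (by norm_num) n
  omega

end Rk1
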