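import Pool.Agent.LibRk1.Halve

/-!
RK11. The point `P` has infinite order.
-/

open WeierstrassCurve

namespace Rk1

theorem inf_order_aux {G : Type*} [AddCommGroup G] (P T : G) (hTT : T + T = 0)
    (hT : ∀ U : G, U + U = 0 → U = 0 ∨ U = T) (h1 : ∀ U : G, U + U ≠ T)
    (h2 : ∀ U : G, U + U ≠ P) (h3 : ∀ U : G, U + U ≠ P + T) : ¬ IsOfFinAddOrder P := by
  intro hfin
  rw [isOfFinAddOrder_iff_nsmul_eq_zero] at hfin
  obtain ⟨n, hn, hnP⟩ := hfin
  have key : ∀ (k : ℕ) (Q : G), (2 ^ k) • Q = 0 → Q = 0 ∨ Q = T := by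
    intro k
    induction k with
    | zero => intro Q hQ; left; simpa using hQ
    | succ k ih =>
      intro Q hQ
      have hQ' : (2 ^ k) • (Q + Q) = 0 := by
        rw [← two_nsmul, smul_smul, ← pow_succ]; exact hQ
      rcases ih _ hQ' with h | h
      · exact hT Q h
      · exact absurd h (h1 Q)
  obtain ⟨k, m, hm, hnm⟩ := Nat.exists_eq_two_pow_mul_odd hn.ne'
  obtain ⟨j, hj⟩ := hm
  have hQ : (2 ^ k) • (m • P) = 0 := by rw [smul_smul, ← hnm]; exact hnP
  have hmP : m • P = P + ((j • P) + (j • P)) := by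
    rw [hj, add_smul, one_smul, mul_smul, two_nsmul, add_comm]
  rcases key k _ hQ with h | h
  · rw [hmP] at h
    refine h2 (-(j • P)) ?_
    have h4 : P = -(j • P + j • P) := eq_neg_of_add_eq_zero_left h
    rw [← neg_add, ← h4]
  · rw [hmP] at h
    refine h3 (-(j • P)) ?_
    have h4 : P + T + (j • P + j • P) = 0 := by
      calc P + T + (j • P + j • P) = (P + (j • P + j • P)) + T := by abel
        _ = 0 := by rw [h, hTT]
    have h5 : P + T = -(j • P + j • P) := eq_neg_of_add_eq_zero_left h4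
    rw [← neg_add, ← h5]

theorem inf_order (a b s w : ℚ) (hb : b ≠ 0) (hbs : ¬ IsSquare b)
    (hD : ¬ IsSquare (a ^ 2 - 4 * b)) (hs : s ≠ 0) (hw : w ^ 2 = s ^ 4 + a * s ^ 2 + b)
    (hg : ¬ IsSquare (2 * s ^ 2 + a + 2 * w))
    (hgD : ¬ IsSquare ((2 * s ^ 2 + a + 2 * w) * (a ^ 2 - 4 * b)))
    (hP : (ec a b).toAffine.Nonsingular (s ^ 2) (s * w)) :
    ¬ IsOfFinAddOrder (Affine.Point.some _ _ hP : (ec a b).toAffine.Point) := by
  have hD0 : a ^ 2 - 4 * b ≠ 0 := by
    intro h
    exact hD (by rw [h]; exact ⟨0, by ring⟩)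
  have hT : (ec a b).toAffine.Nonsingular 0 0 := ec_nonsing hb hD0 (by ring)
  refine inf_order_aux _ (Affine.Point.some 0 0 hT) (T_add_T a b hT)
    (fun U hU => two_tors a b hD hT U hU) ?_ ?_ ?_
  · intro U hU
    obtain ⟨s', w', r, h1, -, h3, -⟩ := dbl_inv a b 0 0 hb hD0 hT U hU.symm
    have hs' : s' = 0 := by
      have : s' ^ 2 = 0 := h1.symm
      exact pow_eq_zero_iff (two_ne_zero) |>.mp this
    apply hbs
    refine ⟨w', ?_⟩
    rw [hs'] at h3
    linear_combination -h3
  · intro U hU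
    obtain ⟨s', w', r, h1, h2, h3, h4⟩ := dbl_inv a b _ _ hb hD0 hP U hU.symm
    have h5 : (s' - s) * (s' + s) = 0 := by linear_combination -h1
    rcases mul_eq_zero.mp h5 with h6 | h6
    · have hs' : s' = s := by linear_combination h6
      subst hs'
      have hw' : w' = w := mul_left_cancel₀ hs h2.symm
      subst hw'
      exact hg ⟨r, by linear_combination -h4⟩
    · have hs' : s' = -s := by linear_combination h6
      subst hs'
      have hw' : w' = -w := by
        apply mul_left_cancel₀ hs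
        linear_combination h2
      subst hw'
      apply hgD
      refine ⟨(2 * s ^ 2 + a + 2 * w) * r, ?_⟩
      have h7 : (2 * s ^ 2 + a + 2 * w) * r ^ 2 = a ^ 2 - 4 * b := by
        rw [h4]
        linear_combination (-4 : ℚ) * hw
      rw [← h7]
      ring
  · intro U hU
    obtain ⟨h', hadd⟩ := add_T a b _ _ (pow_ne_zero 2 hs) hP hT
    rw [hadd] at hU
    obtain ⟨s', w', r, h1, h2, h3, h4⟩ := dbl_inv a b _ _ hb hD0 h' U hU.symm
    apply hbs
    refine ⟨s * s', ?_⟩
    have hs2 : s ^ 2 ≠ 0 := pow_ne_zero 2 hs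
    rw [div_eq_iff hs2] at h1
    linear_combination h1

end Rk1
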