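import Pool.Agent.LibRk1.Step
import Pool.Agent.LibRk1.Order

/-!
The descent step for a curve whose point has a non-square abscissa.
-/

open WeierstrassCurve

namespace Rk1

/-- a point with non-zero square abscissa is a double -/
theorem sq_dbl (a b : ℚ) (hb : b ≠ 0) (hD0 : a ^ 2 - 4 * b ≠ 0)
    (h2 : ∀ c z : ℚ, c ≠ 0 → z ^ 2 = c * (c ^ 2 - 2 * a * c + (a ^ 2 - 4 * b)) →
      IsSquare c ∨ IsSquare ((a ^ 2 - 4 * b) * c))
    (X Y : ℚ) (h : (ec a b).toAffine.Nonsingular X Y) (hX0 : X ≠ 0) (hX : IsSquare X) :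
    ∃ U : (ec a b).toAffine.Point, Affine.Point.some X Y h = U + U := by
  obtain ⟨s1, hs1X⟩ := hX
  have hs1 : s1 ≠ 0 := by
    rintro rfl
    exact hX0 (by rw [hs1X]; ring)
  have hX2 : X = s1 ^ 2 := by rw [hs1X]; ring
  set w1 := Y / s1 with hw1def
  have hY : Y = s1 * w1 := by rw [hw1def]; field_simp
  have hw1 : w1 ^ 2 = s1 ^ 4 + a * s1 ^ 2 + b := by
    have h1 := ec_of_nonsing h
    rw [hX2, hY] at h1
    have h2 : s1 ^ 2 ≠ 0 := pow_ne_zero 2 hs1
    apply mul_left_cancel₀ h2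
    linear_combination h1
  set c1 := 2 * s1 ^ 2 + a + 2 * w1 with hc1
  have hcc : c1 * (2 * s1 ^ 2 + a - 2 * w1) = a ^ 2 - 4 * b := by
    rw [hc1]
    linear_combination (-4 : ℚ) * hw1
  have hc10 : c1 ≠ 0 := by
    intro h0
    rw [h0, zero_mul] at hcc
    exact hD0 hcc.symm
  have hc' : 2 * s1 ^ 2 + a - 2 * w1 = (a ^ 2 - 4 * b) / c1 := by
    rw [eq_div_iff hc10, ← hcc]; ring
  have hz : (2 * s1 * c1) ^ 2 = c1 * (c1 ^ 2 - 2 * a * c1 + (a ^ 2 - 4 * b)) := by
    rw [← hcc, hc1]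
    ring
  have hnegw : (-w1) ^ 2 = (-s1) ^ 4 + a * (-s1) ^ 2 + b := by
    rw [neg_sq, hw1]; ring
  have hnegc : 2 * (-s1) ^ 2 + a + 2 * (-w1) = 2 * s1 ^ 2 + a - 2 * w1 := by ring
  rcases h2 c1 (2 * s1 * c1) hc10 hz with h1 | h1
  · exact Step_halve a b s1 w1 hb hD0 hs1 hw1 h1 X Y h hX2 hY
  · have h2 : IsSquare (2 * (-s1) ^ 2 + a + 2 * (-w1)) := by
      rw [hnegc, hc']
      obtain ⟨r, hr⟩ := h1
      refine ⟨r / c1, ?_⟩
      field_simp
      linear_combination hr
    exact Step_halve a b (-s1) (-w1) hb hD0 (neg_ne_zero.mpr hs1) hnegw h2 X Y h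
      (by rw [hX2]; ring) (by rw [hY]; ring)

/-- product of the abscissas of three collinear points -/
theorem chord_prod (a b x₁ y₁ x₂ y₂ L x₃ : ℚ) (hne : x₁ ≠ x₂)
    (h₁ : y₁ ^ 2 = x₁ ^ 3 + a * x₁ ^ 2 + b * x₁) (h₂ : y₂ ^ 2 = x₂ ^ 3 + a * x₂ ^ 2 + b * x₂)
    (hL : L = (y₁ - y₂) / (x₁ - x₂)) (hx₃ : x₃ = L ^ 2 - a - x₁ - x₂) :
    x₁ * x₂ * x₃ = (y₁ - L * x₁) ^ 2 := by
  have hd : x₁ - x₂ ≠ 0 := sub_ne_zero.2 hne
  have hL' : L * (x₁ - x₂) = y₁ - y₂ := by rw [hL]; field_simp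
  -- both `x₁`, `x₂` are roots of the cubic minus the line
  have h3 : y₂ = y₁ - L * (x₁ - x₂) := by linear_combination hL'
  rw [h3] at h₂
  subst hx₃
  have key : (x₁ - x₂) * (x₁ * x₂ * (L ^ 2 - a - x₁ - x₂) - (y₁ - L * x₁) ^ 2) = 0 := by
    linear_combination x₂ * h₁ - x₁ * h₂
  rcases mul_eq_zero.1 key with h | h
  · exact absurd h hd
  · linear_combination h

theorem step2_core (a b g y₀ : ℚ) (hb : b ≠ 0) (hD : ¬ IsSquare (a ^ 2 - 4 * b)) (hg0 : g ≠ 0)
    (h2 : ∀ c z : ℚ, c ≠ 0 → z ^ 2 = c * (c ^ 2 - 2 * a * c + (a ^ 2 - 4 * b)) →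
      IsSquare c ∨ IsSquare ((a ^ 2 - 4 * b) * c))
    (hP : (ec a b).toAffine.Nonsingular g y₀)
    (hT : (ec a b).toAffine.Nonsingular 0 0)
    (X Y : ℚ) (h : (ec a b).toAffine.Nonsingular X Y) (hX0 : X ≠ 0)
    (hX : IsSquare X ∨ IsSquare (g * X)) :
    ∃ (U : (ec a b).toAffine.Point) (i j : ℤ),
      Affine.Point.some X Y h = U + U + i • Affine.Point.some _ _ hP +
        j • Affine.Point.some _ _ hT := by
  have hD0 : a ^ 2 - 4 * b ≠ 0 := by
    intro h
    exact hD (by rw [h]; exact ⟨0, by ring⟩)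
  rcases hX with hX | hX
  · obtain ⟨U, hU⟩ := sq_dbl a b hb hD0 h2 X Y h hX0 hX
    exact ⟨U, 0, 0, by simp [hU]⟩
  · by_cases hne : X = g
    · subst hne
      have e1 := ec_of_nonsing h
      have e2 := ec_of_nonsing hP
      have h5 : (Y - y₀) * (Y + y₀) = 0 := by linear_combination e1 - e2
      rcases mul_eq_zero.mp h5 with h6 | h6
      · have h7 : Y = y₀ := by linear_combination h6
        subst h7
        exact ⟨0, 1, 0, by simp⟩
      · refine ⟨0, -1, 0, ?_⟩
        rw [add_zero, zero_add, neg_smul, one_smul, zero_zsmul, add_zero, Affine.Point.neg_some]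
        have h7 : Y = (ec a b).toAffine.negY X y₀ := by
          simp only [Affine.negY, ec]
          linear_combination h6
        simp only [h7]
    · have hnP : (ec a b).toAffine.Nonsingular g (-y₀) := by
        apply ec_nonsing hb hD0
        have := ec_of_nonsing hP
        linear_combination this
      have hneg : -(Affine.Point.some _ _ hP : (ec a b).toAffine.Point) =
          Affine.Point.some _ _ hnP := by
        rw [Affine.Point.neg_some]
        have h7 : (ec a b).toAffine.negY g y₀ = -y₀ := by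
          simp only [Affine.negY, ec]
          ring
        simp only [h7]
      obtain ⟨L, x₃, y₃, h₃, hL, hx₃, hy₃, hsum⟩ := add_chord a b X Y g (-y₀) hne h hnP
      have hR : (Affine.Point.some _ _ h : (ec a b).toAffine.Point) =
          Affine.Point.some _ _ h₃ + Affine.Point.some _ _ hP := by
        rw [← hsum, ← hneg]
        abel
      have hprod := chord_prod a b X Y g (-y₀) L x₃ hne (ec_of_nonsing h) (ec_of_nonsing hnP)
        hL hx₃
      by_cases hx30 : x₃ = 0
      · have hy30 : y₃ = 0 := by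
          have := ec_of_nonsing h₃
          rw [hx30] at this
          have h8 : y₃ ^ 2 = 0 := by rw [this]; ring
          exact pow_eq_zero_iff (two_ne_zero) |>.mp h8
        subst hx30 hy30
        refine ⟨0, 1, 1, ?_⟩
        rw [hR]
        simp only [one_smul, add_zero, zero_add]
        exact add_comm _ _
      · have hsq : IsSquare x₃ := by
          obtain ⟨r, hr⟩ := hX
          have hr0 : r ≠ 0 := by
            rintro rfl
            rw [mul_zero] at hr
            rcases mul_eq_zero.1 hr with h9 | h9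
            · exact hg0 h9
            · exact hX0 h9
          refine ⟨(Y - L * X) / r, ?_⟩
          field_simp
          rw [← hprod]
          linear_combination (-x₃) * hr
        obtain ⟨U, hU⟩ := sq_dbl a b hb hD0 h2 x₃ y₃ h₃ hx30 hsq
        refine ⟨U, 1, 0, ?_⟩
        rw [hR, hU]
        simp

/-- Every rational point is `2 U + i P + j T`. -/
theorem step2 (a b g y₀ : ℚ) (hb : b ≠ 0) (hD : ¬ IsSquare (a ^ 2 - 4 * b)) (hg0 : g ≠ 0)
    (h1 : ∀ x y : ℚ, x ≠ 0 → y ^ 2 = x ^ 3 + a * x ^ 2 + b * x →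
      IsSquare x ∨ IsSquare (b * x) ∨ IsSquare (g * x) ∨ IsSquare (g * b * x))
    (h2 : ∀ c z : ℚ, c ≠ 0 → z ^ 2 = c * (c ^ 2 - 2 * a * c + (a ^ 2 - 4 * b)) →
      IsSquare c ∨ IsSquare ((a ^ 2 - 4 * b) * c))
    (hP : (ec a b).toAffine.Nonsingular g y₀)
    (hT : (ec a b).toAffine.Nonsingular 0 0) (R : (ec a b).toAffine.Point) :
    ∃ (U : (ec a b).toAffine.Point) (i j : ℤ),
      R = U + U + i • Affine.Point.some _ _ hP + j • Affine.Point.some _ _ hT := by
  rcases R with _ | ⟨x, y, h⟩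
  · exact ⟨0, 0, 0, by simp [Affine.Point.zero_def]⟩
  · have hy := ec_of_nonsing h
    by_cases hx : x = 0
    · subst hx
      have hy0 : y = 0 := by
        have : y ^ 2 = 0 := by rw [hy]; ring
        exact pow_eq_zero_iff (two_ne_zero) |>.mp this
      subst hy0
      exact ⟨0, 0, 1, by simp⟩
    · have key : ∀ hsq : IsSquare (b * x) ∨ IsSquare (g * b * x),
          ∃ (U : (ec a b).toAffine.Point) (i j : ℤ), Affine.Point.some x y h =
            U + U + i • Affine.Point.some _ _ hP + j • Affine.Point.some _ _ hT := by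
        intro hsq
        obtain ⟨h', hadd⟩ := add_T a b x y hx h hT
        have hsq' : IsSquare (b / x) ∨ IsSquare (g * (b / x)) := by
          rcases hsq with ⟨r, hr⟩ | ⟨r, hr⟩
          · left
            refine ⟨r / x, ?_⟩
            field_simp
            linear_combination hr
          · right
            refine ⟨r / x, ?_⟩
            field_simp
            linear_combination hr
        obtain ⟨U, i, j, hU⟩ := step2_core a b g y₀ hb hD hg0 h2 hP hT _ _ h'
          (div_ne_zero hb hx) hsq'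
        refine ⟨U, i, j + 1, ?_⟩
        rw [add_zsmul, one_zsmul, ← add_assoc, ← hU, ← hadd, add_assoc, T_add_T, add_zero]
      rcases h1 x y hx hy with hsq | hsq | hsq | hsq
      · exact step2_core a b g y₀ hb hD hg0 h2 hP hT _ _ h hx (Or.inl hsq)
      · exact key (Or.inl hsq)
      · exact step2_core a b g y₀ hb hD hg0 h2 hP hT _ _ h hx (Or.inr hsq)
      · exact key (Or.inr hsq)

theorem inf_order2 (a b g y₀ : ℚ) (hb : b ≠ 0) (hbs : ¬ IsSquare b)
    (hD : ¬ IsSquare (a ^ 2 - 4 * b)) (hg0 : g ≠ 0) (hg : ¬ IsSquare g)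
    (hgb : ¬ IsSquare (g * b)) (hP : (ec a b).toAffine.Nonsingular g y₀) :
    ¬ IsOfFinAddOrder (Affine.Point.some _ _ hP : (ec a b).toAffine.Point) := by
  have hD0 : a ^ 2 - 4 * b ≠ 0 := by
    intro h
    exact hD (by rw [h]; exact ⟨0, by ring⟩)
  have hT : (ec a b).toAffine.Nonsingular 0 0 := ec_nonsing hb hD0 (by ring)
  refine inf_order_aux _ (Affine.Point.some 0 0 hT) (T_add_T a b hT)
    (fun U hU => two_tors a b hD hT U hU) ?_ ?_ ?_
  · intro U hU
    obtain ⟨s', w', r, h1, -, h3, -⟩ := dbl_inv a b 0 0 hb hD0 hT U hU.symm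
    have hs' : s' = 0 := by
      have : s' ^ 2 = 0 := h1.symm
      exact pow_eq_zero_iff (two_ne_zero) |>.mp this
    apply hbs
    refine ⟨w', ?_⟩
    rw [hs'] at h3
    linear_combination -h3
  · intro U hU
    obtain ⟨s', w', r, h1, h2, h3, h4⟩ := dbl_inv a b _ _ hb hD0 hP U hU.symm
    exact hg ⟨s', by rw [h1]; ring⟩
  · intro U hU
    obtain ⟨h', hadd⟩ := add_T a b _ _ hg0 hP hT
    rw [hadd] at hU
    obtain ⟨s', w', r, h1, h2, h3, h4⟩ := dbl_inv a b _ _ hb hD0 h' U hU.symm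
    apply hgb
    refine ⟨g * s', ?_⟩
    rw [div_eq_iff hg0] at h1
    linear_combination g * h1

end Rk1
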