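import Pool.Agent.LibRk1.Cls1
import Pool.Agent.LibRk1.Step2
import Pool.Agent.LibRk1.FG
import Pool.Agent.LibRk1.Harm
import Pool.Agent.LibRk1.Finite
import Pool.Agent.LibRk1.Pairs16
import Pool.Agent.LibRk1.Jinv
import Pool.Agent.LibRk1.MultiFG

/-!
Assembly.
-/

open WeierstrassCurve Pool.Agent.LibBH2 Pool.Agent.LibIG50
open scoped Classical

namespace Rk1

/-- the pairs `(p, q)` -/
def GoodPair (p q : ℕ) : Prop :=
  p.Prime ∧ q.Prime ∧ (q + 2 * p).Prime ∧ p % 8 = 3 ∧ q % 8 = 5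

/-- no square class with odd valuation -/
theorem not_sq_of_val (x : ℚ) (r : ℕ) (hr : r.Prime) (hx : x ≠ 0) (h : Odd (padicValRat r x)) :
    ¬ IsSquare x := by
  rintro ⟨y, rfl⟩
  have hy : y ≠ 0 := by rintro rfl; simp at hx
  have := Fact.mk hr
  rw [padicValRat.mul hy hy] at h
  exact (Int.not_odd_iff_even.2 ⟨_, rfl⟩) h

theorem val_mul (r : ℕ) (hr : r.Prime) {x y : ℚ} (hx : x ≠ 0) (hy : y ≠ 0) :
    padicValRat r (x * y) = padicValRat r x + padicValRat r y := by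
  have := Fact.mk hr
  exact padicValRat.mul hx hy

theorem val_prime_ne (r p : ℕ) (hr : r.Prime) (hp : p.Prime) (h : r ≠ p) :
    padicValRat r (p : ℚ) = 0 := by
  have := Fact.mk hr
  rw [padicValRat.of_nat, padicValNat.eq_zero_of_not_dvd]
  · rfl
  · intro h1; exact h ((Nat.prime_dvd_prime_iff_eq hr hp).1 h1)

theorem val_self (r : ℕ) (hr : r.Prime) : padicValRat r (r : ℚ) = 1 := by
  have := Fact.mk hr
  exact padicValRat.self hr.one_lt

/-- everything about one curve -/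
theorem one_curve (p q l : ℕ) (hp : p.Prime) (hq : q.Prime) (hl : l.Prime) (hp8 : p % 8 = 3)
    (hq8 : q % 8 = 5) (hlq : l = q + 2 * p) :
    let W := ec (-(4 * p * q)) (2 * p * q ^ 2 * l)
    W.Δ ≠ 0 ∧ AddGroup.FG W.toAffine.Point ∧ Module.finrank ℤ W.toAffine.Point = 1 ∧
    ∃ (y : ℚ) (hP : W.toAffine.Nonsingular (-(2 * (2 * p * q ^ 2 * l)) / -(4 * p * q)) y)
      (T : W.toAffine.Point), T + T = 0 ∧
      ∀ R : W.toAffine.Point, ∃ N : ℕ, 0 < N ∧
        N • R ∈ AddSubgroup.closure {Affine.Point.some _ _ hP, T} := by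
  intro W
  have hp0 : (p : ℚ) ≠ 0 := by exact_mod_cast hp.ne_zero
  have hq0 : (q : ℚ) ≠ 0 := by exact_mod_cast hq.ne_zero
  have hl0 : (l : ℚ) ≠ 0 := by exact_mod_cast hl.ne_zero
  have hlqQ : (l : ℚ) = q + 2 * p := by rw [hlq]; push_cast; ring
  have hpos : (0 : ℚ) < p := by exact_mod_cast hp.pos
  have hqpos : (0 : ℚ) < q := by exact_mod_cast hq.pos
  have hlpos : (0 : ℚ) < l := by exact_mod_cast hl.pos
  have hlp : l ≠ p := by have := hp.pos; have := hq.pos; omega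
  have hlq' : l ≠ q := by have := hp.pos; omega
  have hl2 : l ≠ 2 := by rintro rfl; omega
  have hp2 : p ≠ 2 := by rintro rfl; omega
  have hpq : p ≠ q := by rintro rfl; omega
  have hg : -(2 * (2 * (p : ℚ) * q ^ 2 * l)) / -(4 * p * q) = q * l := by
    field_simp
    norm_num
  have hD : (-(4 * (p : ℚ) * q)) ^ 2 - 4 * (2 * p * q ^ 2 * l) = -(8 * p * q ^ 3) := by
    rw [hlqQ]; ring
  have hB0 : 2 * (p : ℚ) * q ^ 2 * l ≠ 0 := by positivity
  have hDsq : ¬ IsSquare (-(8 * (p : ℚ) * q ^ 3)) := by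
    rintro ⟨r, hr⟩
    have h1 : 0 < 8 * (p : ℚ) * q ^ 3 := by positivity
    nlinarith [mul_self_nonneg r]
  have hD0 : (-(4 * (p : ℚ) * q)) ^ 2 - 4 * (2 * p * q ^ 2 * l) ≠ 0 := by
    rw [hD]
    have : 0 < 8 * (p : ℚ) * q ^ 3 := by positivity
    linarith
  have hbs : ¬ IsSquare (2 * (p : ℚ) * q ^ 2 * l) := by
    apply not_sq_of_val _ l hl (by positivity)
    have e2 := val_prime_ne l 2 hl Nat.prime_two hl2
    have e3 := val_prime_ne l p hl hp hlp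
    have e4 := val_prime_ne l q hl hq hlq'
    have e5 := val_self l hl
    push_cast at e2
    have : (2 * (p : ℚ) * q ^ 2 * l) = 2 * (p * (q * (q * l))) := by ring
    rw [this]
    repeat rw [val_mul l hl (by positivity) (by positivity)]
    rw [e2, e3, e4, e5]
    norm_num
  have hgs : ¬ IsSquare ((q : ℚ) * l) := by
    apply not_sq_of_val _ l hl (by positivity)
    have e4 := val_prime_ne l q hl hq hlq'
    have e5 := val_self l hl
    rw [val_mul l hl (by positivity) (by positivity), e4, e5]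
    norm_num
  have hgbs : ¬ IsSquare ((q : ℚ) * l * (2 * p * q ^ 2 * l)) := by
    apply not_sq_of_val _ p hp (by positivity)
    have e2 := val_prime_ne p 2 hp Nat.prime_two hp2
    have e3 := val_prime_ne p l hp hl (Ne.symm hlp)
    have e4 := val_prime_ne p q hp hq hpq
    have e5 := val_self p hp
    push_cast at e2
    have : ((q : ℚ) * l * (2 * p * q ^ 2 * l)) = 2 * (q * (q * (q * (l * (l * p))))) := by ring
    rw [this]
    repeat rw [val_mul p hp (by positivity) (by positivity)]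
    rw [e2, e3, e4, e5]
    norm_num
  have hT : W.toAffine.Nonsingular 0 0 := ec_nonsing hB0 hD0 (by ring)
  have hP : W.toAffine.Nonsingular (-(2 * (2 * (p : ℚ) * q ^ 2 * l)) / -(4 * p * q))
      (l * q ^ 2) := by
    rw [hg]
    exact ec_nonsing hB0 hD0 (by rw [hlqQ]; ring)
  have hΔ : W.Δ ≠ 0 := by
    rw [ec_disc]
    exact mul_ne_zero (mul_ne_zero (by norm_num) (pow_ne_zero 2 hB0)) hD0
  have h1 : ∀ x y : ℚ, x ≠ 0 → y ^ 2 = x ^ 3 + (-(4 * p * q)) * x ^ 2 +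
      (2 * p * q ^ 2 * l) * x →
      IsSquare x ∨ IsSquare ((2 * p * q ^ 2 * l) * x) ∨
      IsSquare ((-(2 * (2 * (p : ℚ) * q ^ 2 * l)) / -(4 * p * q)) * x) ∨
      IsSquare ((-(2 * (2 * (p : ℚ) * q ^ 2 * l)) / -(4 * p * q)) * (2 * p * q ^ 2 * l) * x) := by
    intro x y hx h
    rw [hg]
    rcases cls1b p q l hp hq hl hp8 hq8 hlq (4 * x) (8 * y) (mul_ne_zero (by norm_num) hx)
      (by linear_combination 64 * h) with ⟨r, hr⟩ | ⟨r, hr⟩ | ⟨r, hr⟩ | ⟨r, hr⟩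
    · left
      exact ⟨r / 2, by linear_combination hr / 4⟩
    · right; left
      exact ⟨r / 8, by linear_combination hr / 64⟩
    · right; right; left
      exact ⟨r / 4, by linear_combination hr / 16⟩
    · right; right; right
      exact ⟨r / 16, by linear_combination hr / 256⟩
  have h2 : ∀ c z : ℚ, c ≠ 0 → z ^ 2 = c * (c ^ 2 - 2 * (-(4 * p * q)) * c +
      ((-(4 * p * q)) ^ 2 - 4 * (2 * p * q ^ 2 * l))) →
      IsSquare c ∨ IsSquare (((-(4 * p * q)) ^ 2 - 4 * (2 * p * q ^ 2 * l)) * c) := by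
    intro c z hc h
    rw [hD] at h ⊢
    exact cls1a p q l hp hq hl hp8 hq8 hlq c z hc (by linear_combination h)
  have hg0 : (-(2 * (2 * (p : ℚ) * q ^ 2 * l)) / -(4 * p * q)) ≠ 0 := by
    rw [hg]; positivity
  have hstep := step2 (-(4 * p * q)) (2 * p * q ^ 2 * l) _ _ hB0 (by rwa [hD]) hg0 h1 h2 hP hT
  have hTT := T_add_T _ _ hT
  have hfg := fg_of_step W hΔ _ _ hstep hTT
  have hinf := inf_order2 (-(4 * p * q)) (2 * p * q ^ 2 * l) _ _ hB0 hbs (by rwa [hD]) hg0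
    (by rwa [hg]) (by rwa [hg]) hP
  have hodd := fun R => odd_mult _ _ hstep R
  exact ⟨hΔ, hfg, rank_one _ _ hinf hTT hodd, _, hP, _, hTT, hodd⟩

/-- torsion from generators -/
theorem torsion_all (W W' : WeierstrassCurve ℚ) (hΔ : W.Δ ≠ 0) (hΔ' : W'.Δ ≠ 0)
    (P T : W.toAffine.Point) (P' T' : W'.toAffine.Point) (hT : T + T = 0) (hT' : T' + T' = 0)
    (hN : ∀ R : W.toAffine.Point, ∃ N : ℕ, 0 < N ∧ N • R ∈ AddSubgroup.closure {P, T})
    (hN' : ∀ R : W'.toAffine.Point, ∃ N : ℕ, 0 < N ∧ N • R ∈ AddSubgroup.closure {P', T'})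
    (h2 : 2 • (zc (constPt Qb P) (constPt Qb P') : CH0 (W⁄Qb) (W'⁄Qb)) = 0)
    (R : W.toAffine.Point) (S : W'.toAffine.Point) :
    IsOfFinAddOrder (zc (constPt Qb R) (constPt Qb S) : CH0 (W⁄Qb) (W'⁄Qb)) := by
  have hE : W.IsElliptic := ⟨isUnit_iff_ne_zero.2 hΔ⟩
  have hE' : W'.IsElliptic := ⟨isUnit_iff_ne_zero.2 hΔ'⟩
  let f : W.toAffine.Point →+ W'.toAffine.Point →+ CH0 (W⁄Qb) (W'⁄Qb) :=
    AddMonoidHom.mk' (fun R => (zHom (W⁄Qb) (W'⁄Qb) (constHom Qb W R)).comp (constHom Qb W'))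
      (fun R R' => by
        ext S
        simp only [map_add, AddMonoidHom.add_apply, AddMonoidHom.comp_apply])
  have hf : ∀ R S, f R S = zc (constPt Qb R) (constPt Qb S) := fun R S => rfl
  have hr : ∀ R, IsOfFinAddOrder (f R T') := by
    intro R
    refine isOfFinAddOrder_iff_nsmul_eq_zero.2 ⟨2, by norm_num, ?_⟩
    rw [← map_nsmul, two_nsmul, hT', map_zero]
  have hl : ∀ S, IsOfFinAddOrder (f T S) := by
    intro S
    refine isOfFinAddOrder_iff_nsmul_eq_zero.2 ⟨2, by norm_num, ?_⟩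
    rw [← AddMonoidHom.nsmul_apply, ← map_nsmul, two_nsmul, hT, map_zero,
      AddMonoidHom.zero_apply]
  exact rk15_torsion f P T P' T' hN hN'
    (isOfFinAddOrder_iff_nsmul_eq_zero.2 ⟨2, by norm_num, h2⟩) (hr P) (hl P') (hr T) R S

/-- two curves, explicit equations -/
theorem two_curves_ec (p q l p' q' l' : ℕ) (hp : p.Prime) (hq : q.Prime) (hl : l.Prime)
    (hp8 : p % 8 = 3) (hq8 : q % 8 = 5) (hlq : l = q + 2 * p)
    (hp' : p'.Prime) (hq' : q'.Prime) (hl' : l'.Prime)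
    (hp8' : p' % 8 = 3) (hq8' : q' % 8 = 5) (hlq' : l' = q' + 2 * p')
    (R : (ec (-(4 * p * q)) (2 * p * q ^ 2 * l)).toAffine.Point)
    (S : (ec (-(4 * p' * q')) (2 * p' * q' ^ 2 * l')).toAffine.Point) :
    IsOfFinAddOrder (zc (constPt Qb R) (constPt Qb S) :
      CH0 ((ec (-(4 * p * q)) (2 * p * q ^ 2 * l))⁄Qb)
        ((ec (-(4 * p' * q')) (2 * p' * q' ^ 2 * l'))⁄Qb)) := by
  obtain ⟨hΔ, -, -, y, hP, T, hT, hN⟩ := one_curve p q l hp hq hl hp8 hq8 hlq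
  obtain ⟨hΔ', -, -, y', hP', T', hT', hN'⟩ :=
    one_curve p' q' l' hp' hq' hl' hp8' hq8' hlq'
  refine torsion_all _ _ hΔ hΔ' _ T _ T' hT hT' hN hN' ?_ R S
  have hp0 : (p : ℚ) ≠ 0 := by exact_mod_cast hp.ne_zero
  have hq0 : (q : ℚ) ≠ 0 := by exact_mod_cast hq.ne_zero
  have hl0 : (l : ℚ) ≠ 0 := by exact_mod_cast hl.ne_zero
  have hp0' : (p' : ℚ) ≠ 0 := by exact_mod_cast hp'.ne_zero
  have hq0' : (q' : ℚ) ≠ 0 := by exact_mod_cast hq'.ne_zero
  have hl0' : (l' : ℚ) ≠ 0 := by exact_mod_cast hl'.ne_zero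
  have hlqQ : (l : ℚ) = q + 2 * p := by rw [hlq]; push_cast; ring
  have hlqQ' : (l' : ℚ) = q' + 2 * p' := by rw [hlq']; push_cast; ring
  have hD : (-(4 * (p : ℚ) * q)) ^ 2 - 4 * (2 * p * q ^ 2 * l) = -(8 * p * q ^ 3) := by
    rw [hlqQ]; ring
  have hD' : (-(4 * (p' : ℚ) * q')) ^ 2 - 4 * (2 * p' * q' ^ 2 * l') = -(8 * p' * q' ^ 3) := by
    rw [hlqQ']; ring
  by_cases hne : (p' : ℚ) * q = p * q'
  · have hne' : p' * q = p * q' := by exact_mod_cast hne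
    have h1 : p ∣ p' * q := hne' ▸ Dvd.intro _ rfl
    have hpp : p = p' := by
      rcases (Nat.Prime.dvd_mul hp).1 h1 with h2 | h2
      · exact (Nat.prime_dvd_prime_iff_eq hp hp').1 h2
      · exfalso
        have := (Nat.prime_dvd_prime_iff_eq hp hq).1 h2
        omega
    have hqq : q = q' := by
      rw [hpp] at hne'
      exact Nat.eq_of_mul_eq_mul_left hp'.pos hne'
    subst hpp hqq
    have hll : l = l' := by rw [hlq, hlq']
    subst hll
    have hE : (ec (-(4 * (p : ℚ) * q)) (2 * p * q ^ 2 * l)).IsElliptic :=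
      ⟨isUnit_iff_ne_zero.2 hΔ⟩
    have hyy : (y - y') * (y + y') = 0 := by
      have e1 := ec_of_nonsing hP
      have e2 := ec_of_nonsing hP'
      linear_combination e1 - e2
    have h2 := self_zc ((ec (-(4 * (p : ℚ) * q)) (2 * p * q ^ 2 * l))⁄Qb)
      (constPt Qb (Affine.Point.some _ _ hP))
    rcases mul_eq_zero.1 hyy with h3 | h3
    · have : y = y' := by linear_combination h3
      subst this
      exact h2
    · have h4 : (Affine.Point.some _ _ hP' : (ec (-(4 * (p : ℚ) * q))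
          (2 * p * q ^ 2 * l)).toAffine.Point) = -Affine.Point.some _ _ hP := by
        rw [Affine.Point.neg_some]
        have h7 : y' = (ec (-(4 * (p : ℚ) * q)) (2 * p * q ^ 2 * l)).toAffine.negY
            (-(2 * (2 * (p : ℚ) * q ^ 2 * l)) / -(4 * p * q)) y := by
          simp only [Affine.negY, ec]
          linear_combination h3
        simp only [h7]
      rw [h4]
      have h5 := map_neg (constHom Qb (ec (-(4 * (p : ℚ) * q)) (2 * p * q ^ 2 * l)))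
        (Affine.Point.some _ _ hP)
      simp only [constHom_apply] at h5
      rw [h5, zc_neg_right, smul_neg, h2, neg_zero]
  · refine harm_zc _ _ _ _ (by positivity) (by positivity) ?_ ?_
      (neg_ne_zero.2 (by positivity)) (neg_ne_zero.2 (by positivity)) ?_ _ _ _ _ rfl rfl hP hP'
    · rw [hD]
      exact neg_ne_zero.2 (by positivity)
    · rw [hD']
      exact neg_ne_zero.2 (by positivity)
    · rw [hD, hD']
      intro h3
      apply hne
      have h4 : (128 * (p : ℚ) * p' * q ^ 2 * q' ^ 2) * (p' * q) =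
          (128 * (p : ℚ) * p' * q ^ 2 * q' ^ 2) * (p * q') := by
        linear_combination -h3
      exact mul_left_cancel₀ (by positivity) h4

theorem two_curves (p q p' q' : ℕ) (h : GoodPair p q) (h' : GoodPair p' q')
    (R : (rkCurve p q).toAffine.Point) (S : (rkCurve p' q').toAffine.Point) :
    IsOfFinAddOrder (zc (constPt Qb R) (constPt Qb S) :
      CH0 ((rkCurve p q)⁄Qb) ((rkCurve p' q')⁄Qb)) := by
  obtain ⟨hp, hq, hl, hp8, hq8⟩ := h
  obtain ⟨hp', hq', hl', hp8', hq8'⟩ := h'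
  have e := rkCurve_eq p q (q + 2 * p) rfl
  have e' := rkCurve_eq p' q' (q' + 2 * p') rfl
  revert R S
  rw [e, e']
  intro R S
  exact two_curves_ec p q _ p' q' _ hp hq hl hp8 hq8 rfl hp' hq' hl' hp8' hq8' rfl R S

/-- the curves `y² = x³ - 4 p q x² + 2 p q² (q + 2 p) x` with `p`, `q`, `q + 2 p` prime,
`p = 3`, `q = 5` modulo `8` -/
def rkSet : Set (WeierstrassCurve ℚ) :=
  {W | ∃ p q : ℕ, p.Prime ∧ q.Prime ∧ (q + 2 * p).Prime ∧ p % 8 = 3 ∧ q % 8 = 5 ∧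
    W = ⟨0, -4 * p * q, 0, 2 * p * q ^ 2 * (q + 2 * p), 0⟩}

theorem mem_rkSet {W : WeierstrassCurve ℚ} :
    W ∈ rkSet ↔ ∃ p q : ℕ, GoodPair p q ∧ W = rkCurve p q := by
  constructor
  · rintro ⟨p, q, h1, h2, h3, h4, h5, h6⟩
    exact ⟨p, q, ⟨h1, h2, h3, h4, h5⟩, h6⟩
  · rintro ⟨p, q, ⟨h1, h2, h3, h4, h5⟩, h6⟩
    exact ⟨p, q, h1, h2, h3, h4, h5, h6⟩

theorem rkSet_nonisog {W W' : WeierstrassCurve ℚ} (h : W ∈ rkSet) (h' : W' ∈ rkSet)
    (hne : W ≠ W') : ∃ r : ℕ, r.Prime ∧ padicValRat r (W.c₄ ^ 3 / W.Δ) < 0 ∧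
      0 ≤ padicValRat r (W'.c₄ ^ 3 / W'.Δ) := by
  obtain ⟨p, q, ⟨hp, hq, hl, hp8, hq8⟩, rfl⟩ := mem_rkSet.1 h
  obtain ⟨p', q', ⟨hp', hq', hl', hp8', hq8'⟩, rfl⟩ := mem_rkSet.1 h'
  refine rk_nonisog p q p' q' hp hq hl hp8 hq8 hp' hq' hl' hp8' hq8' ?_
  intro h
  rw [Prod.mk.injEq] at h
  exact hne (by rw [h.1, h.2])

theorem rkSet_infinite : rkSet.Infinite := by
  have hinj : Set.InjOn (fun x : ℕ × ℕ => rkCurve x.1 x.2) {x : ℕ × ℕ | x.1.Prime ∧ x.2.Prime ∧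
      (x.2 + 2 * x.1).Prime ∧ x.1 % 8 = 3 ∧ x.2 % 8 = 5} := by
    rintro ⟨p, q⟩ ⟨hp, hq, hl, hp8, hq8⟩ ⟨p', q'⟩ ⟨hp', hq', hl', hp8', hq8'⟩ h
    by_contra hne
    obtain ⟨r, -, h1, h2⟩ := rk_nonisog p q p' q' hp hq hl hp8 hq8 hp' hq' hl' hp8' hq8' hne
    simp only at h
    rw [h] at h1
    exact absurd h2 (not_le.2 h1)
  refine (pairs16.image hinj).mono ?_
  rintro _ ⟨⟨p, q⟩, h, rfl⟩
  exact mem_rkSet.2 ⟨p, q, h, rfl⟩

theorem rkSet_rank {W : WeierstrassCurve ℚ} (h : W ∈ rkSet) :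
    W.Δ ≠ 0 ∧ AddGroup.FG W.toAffine.Point ∧ Module.finrank ℤ W.toAffine.Point = 1 := by
  obtain ⟨p, q, ⟨hp, hq, hl, hp8, hq8⟩, rfl⟩ := mem_rkSet.1 h
  rw [rkCurve_eq p q (q + 2 * p) rfl]
  obtain ⟨h1, h2, h3, -⟩ := one_curve p q (q + 2 * p) hp hq hl hp8 hq8 rfl
  exact ⟨h1, h2, h3⟩

theorem rkSet_zc {W W' : WeierstrassCurve ℚ} (h : W ∈ rkSet) (h' : W' ∈ rkSet)
    (R : W.toAffine.Point) (S : W'.toAffine.Point) :
    IsOfFinAddOrder (zc (constPt Qb R) (constPt Qb S) : CH0 (W⁄Qb) (W'⁄Qb)) := by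
  obtain ⟨p, q, h1, rfl⟩ := mem_rkSet.1 h
  obtain ⟨p', q', h1', rfl⟩ := mem_rkSet.1 h'
  exact two_curves p q p' q' h1 h1' R S

theorem rkSet_cycles (r : ℕ) (W : Fin r → WeierstrassCurve ℚ) (hW : ∀ i, W i ∈ rkSet)
    (c : (∀ i, (W i).toAffine.Point) →₀ ℤ) (hdeg : (c.sum fun _ n => n) = 0)
    (hsum : ∀ i, IsOfFinAddOrder (c.sum fun a n => n • a i)) :
    IsOfFinAddOrder (cls (fun i => (W i)⁄Qb) (c.mapDomain fun a i => constPt Qb (a i))) := by
  have hE : ∀ i, ((W i)⁄Qb).IsElliptic := by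
    intro i
    have : (W i).IsElliptic := ⟨isUnit_iff_ne_zero.2 (rkSet_rank (hW i)).1⟩
    infer_instance
  refine cls_torsion (fun i => (W i)⁄Qb) (fun i => (constHom Qb (W i)).range) ?_ _ ?_ ?_ ?_
  · rintro i j - _ ⟨R, rfl⟩ _ ⟨S, rfl⟩
    exact rkSet_zc (hW i) (hW j) R S
  · intro a ha i
    have h1 := Finsupp.mapDomain_support ha
    rw [Finset.mem_image] at h1
    obtain ⟨b, -, rfl⟩ := h1
    exact ⟨b i, rfl⟩
  · rw [Finsupp.sum_mapDomain_index (fun _ => rfl) (fun _ _ _ => rfl)]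
    exact hdeg
  · intro i
    rw [Finsupp.sum_mapDomain_index
      (h := fun (a : Pts (fun i => (W i)⁄Qb)) (n : ℤ) => n • a i)
      (fun _ => zero_zsmul _) (fun _ _ _ => add_zsmul _ _ _)]
    have h1 := (constHom Qb (W i)).isOfFinAddOrder (hsum i)
    rw [Finsupp.sum, map_sum] at h1
    rw [Finsupp.sum]
    simpa only [map_zsmul, constHom_apply] using h1

theorem rkSet_finite (r : ℕ) (W : Fin r → WeierstrassCurve ℚ) (hW : ∀ i, W i ∈ rkSet) :
    {γ : CHN (fun i => (W i)⁄Qb) | ∃ c : (∀ i, (W i).toAffine.Point) →₀ ℤ,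
      (c.sum fun _ n => n) = 0 ∧ (∀ i, IsOfFinAddOrder (c.sum fun a n => n • a i)) ∧
      γ = cls (fun i => (W i)⁄Qb) (c.mapDomain fun a i => constPt Qb (a i))}.Finite := by
  refine (finite_tors _ (cls_fg W (fun i => (rkSet_rank (hW i)).1)
    (fun i => (rkSet_rank (hW i)).2.1))).subset ?_
  rintro _ ⟨c, hdeg, hsum, rfl⟩
  refine ⟨?_, rkSet_cycles r W hW c hdeg hsum⟩
  let clsHom : (Pts (fun i => (W i)⁄Qb) →₀ ℤ) →+ CHN (fun i => (W i)⁄Qb) :=
    QuotientAddGroup.mk' _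
  have h1 : cls (fun i => (W i)⁄Qb) (c.mapDomain fun a i => constPt Qb (a i)) =
      ∑ a ∈ c.support, c a • cls (fun i => (W i)⁄Qb)
        (Finsupp.single (fun i => constPt Qb (a i)) 1) := by
    change clsHom _ = ∑ a ∈ c.support, c a • clsHom _
    rw [Finsupp.mapDomain, Finsupp.sum, map_sum]
    refine Finset.sum_congr rfl fun a _ => ?_
    rw [← map_zsmul, Finsupp.smul_single]
    simp
  rw [h1]
  refine sum_mem fun a _ => zsmul_mem (AddSubgroup.subset_closure ?_) _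
  exact ⟨a, rfl⟩

end Rk1
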