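import Pool.Agent.LibRk1.Defs

/-!
RK5. Squarefree integers with prime factors among `2, p, q, l`; symbols modulo `q`.
-/

namespace Rk1

/-- one prime: `d = r ^ i * e` with `r` not dividing `e` -/
theorem sqfree_peel (d : ℤ) (hd : Squarefree d) (r : ℕ) (hr : r.Prime) :
    ∃ (i : ℕ) (e : ℤ), i ≤ 1 ∧ d = (r : ℤ) ^ i * e ∧ ¬ (r : ℤ) ∣ e ∧ e ∣ d := by
  by_cases h : (r : ℤ) ∣ d
  · obtain ⟨e, rfl⟩ := h
    refine ⟨1, e, le_rfl, by ring, ?_, Dvd.intro_left _ rfl⟩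
    intro h2
    obtain ⟨e', rfl⟩ := h2
    have h3 := hd (r : ℤ) ⟨e', by ring⟩
    exact (Nat.prime_iff_prime_int.1 hr).not_unit h3
  · exact ⟨0, d, by norm_num, by ring, h, dvd_rfl⟩

theorem sqfree_cases (d : ℤ) (hd : Squarefree d) (p q l : ℕ) (hp : p.Prime) (hq : q.Prime)
    (hl : l.Prime)
    (h : ∀ r : ℕ, r.Prime → (r : ℤ) ∣ d → r = 2 ∨ r = p ∨ r = q ∨ r = l) :
    ∃ (s : ℤ) (i j k m : ℕ), (s = 1 ∨ s = -1) ∧ i ≤ 1 ∧ j ≤ 1 ∧ k ≤ 1 ∧ m ≤ 1 ∧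
      d = s * 2 ^ i * p ^ j * q ^ k * l ^ m := by
  obtain ⟨i, e1, hi, h1, n1, d1⟩ := sqfree_peel d hd 2 Nat.prime_two
  obtain ⟨j, e2, hj, h2, n2, d2⟩ := sqfree_peel e1 (hd.squarefree_of_dvd d1) p hp
  obtain ⟨k, e3, hk, h3, n3, d3⟩ := sqfree_peel e2 (hd.squarefree_of_dvd (d2.trans d1)) q hq
  obtain ⟨m, e4, hm, h4, n4, d4⟩ := sqfree_peel e3
    (hd.squarefree_of_dvd (d3.trans (d2.trans d1))) l hl
  have hun : e4.natAbs = 1 := by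
    by_contra hne
    obtain ⟨r, hr, hrd⟩ := Nat.exists_prime_and_dvd hne
    have hre : (r : ℤ) ∣ e4 := Int.natCast_dvd.2 hrd
    rcases h r hr (hre.trans (d4.trans (d3.trans (d2.trans d1)))) with h5 | h5 | h5 | h5
    · subst h5; exact n1 (hre.trans (d4.trans (d3.trans d2)))
    · subst h5; exact n2 (hre.trans (d4.trans d3))
    · subst h5; exact n3 (hre.trans d4)
    · subst h5; exact n4 hre
  refine ⟨e4, i, j, k, m, Int.natAbs_eq_iff.1 hun, hi, hj, hk, hm, ?_⟩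
  rw [h1, h2, h3, h4]
  push_cast
  ring

/-- `2` is not a square modulo `q = 5 mod 8` -/
theorem two_nonsq (q : ℕ) [Fact q.Prime] (hq : q % 8 = 5) (a : ZMod q) (ha : a ≠ 0) :
    ¬ IsSquare (2 * a ^ 2) := by
  rintro ⟨b, hb⟩
  have hq2 : q ≠ 2 := by rintro rfl; omega
  have h2 : IsSquare (2 : ZMod q) := by
    refine ⟨b / a, ?_⟩
    field_simp
    rw [hb]; ring
  rw [ZMod.exists_sq_eq_two_iff hq2] at h2
  omega

end Rk1
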