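import Pool.Agent.LibRk1.Defs

/-!
RK4. Conditions at an odd prime `q`.
-/

namespace Rk1

private lemma cast_zero_iff (q : ℕ) (a : ℤ) : ((a : ℤ) : ZMod q) = 0 ↔ (q : ℤ) ∣ a :=
  ZMod.intCast_zmod_eq_zero_iff_dvd a q

/-- If `k² = q³ a` then `a` is zero modulo `q`. -/
private lemma three (q : ℕ) [hq : Fact q.Prime] (k a : ℤ) (h : k ^ 2 = (q : ℤ) ^ 3 * a) :
    ∃ k2 : ℤ, k = (q : ℤ) ^ 2 * k2 ∧ (q : ℤ) * k2 ^ 2 = a := by
  have hp : Prime (q : ℤ) := Nat.prime_iff_prime_int.1 hq.out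
  have hq0 : (q : ℤ) ≠ 0 := hp.ne_zero
  have h1 : (q : ℤ) ∣ k := by
    apply hp.dvd_of_dvd_pow (n := 2)
    exact ⟨(q : ℤ) ^ 2 * a, by rw [h]; ring⟩
  obtain ⟨k1, rfl⟩ := h1
  have h2 : k1 ^ 2 = q * a := by
    apply mul_left_cancel₀ (pow_ne_zero 2 hq0)
    linear_combination h
  have h3 : (q : ℤ) ∣ k1 := by
    apply hp.dvd_of_dvd_pow (n := 2)
    exact ⟨a, h2⟩
  obtain ⟨k2, rfl⟩ := h3
  refine ⟨k2, by ring, ?_⟩
  apply mul_left_cancel₀ hq0
  linear_combination h2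

theorem q_a (q : ℕ) [Fact q.Prime] (hq2 : q ≠ 2) (A₁ d m n k : ℤ) (hA : ¬ (q : ℤ) ∣ A₁)
    (hd : Squarefree d) (hmn : IsCoprime m n)
    (h : k ^ 2 = QF (q * A₁) (-(q ^ 3 * A₁)) d m n) :
    (¬ (q : ℤ) ∣ d → IsSquare (d : ZMod q)) ∧
      ∀ d' : ℤ, d = q * d' → IsSquare ((-(d' * A₁) : ℤ) : ZMod q) := by
  have hp : Prime (q : ℤ) := Nat.prime_iff_prime_int.1 (Fact.out : q.Prime)
  have hq0 : (q : ℤ) ≠ 0 := hp.ne_zero
  have hA' : ((A₁ : ℤ) : ZMod q) ≠ 0 := fun h0 => hA ((cast_zero_iff q _).1 h0)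
  unfold QF at h
  have hmn' : (q : ℤ) ∣ m → ¬ (q : ℤ) ∣ n := fun hm hn =>
    hp.not_isUnit (hmn.isUnit_of_dvd' hm hn)
  constructor
  · intro hqd
    have hd' : ((d : ℤ) : ZMod q) ≠ 0 := fun h0 => hqd ((cast_zero_iff q _).1 h0)
    by_cases hm : (q : ℤ) ∣ m
    · have hn := hmn' hm
      have hn' : ((n : ℤ) : ZMod q) ≠ 0 := fun h0 => hn ((cast_zero_iff q _).1 h0)
      obtain ⟨m', rfl⟩ := hm
      obtain ⟨k2, -, h2⟩ := three q k (d * (q * (d ^ 2 * m' ^ 4) + A₁ * d * m' ^ 2 * n ^ 2 -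
        A₁ * n ^ 4)) (by rw [h]; ring)
      have h3 := congrArg (fun z : ℤ => (z : ZMod q)) h2
      simp only [Int.cast_mul, Int.cast_add, Int.cast_sub, Int.cast_pow, Int.cast_natCast,
        CharP.cast_eq_zero, zero_mul, zero_add] at h3
      have h4 : (d : ZMod q) * (m' : ZMod q) ^ 2 = (n : ZMod q) ^ 2 := by
        have h5 : (d : ZMod q) * A₁ * (n : ZMod q) ^ 2 *
            ((d : ZMod q) * (m' : ZMod q) ^ 2 - (n : ZMod q) ^ 2) = 0 := by
          rw [h3]; ring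
        have h6 : (d : ZMod q) * A₁ * (n : ZMod q) ^ 2 ≠ 0 :=
          mul_ne_zero (mul_ne_zero hd' hA') (pow_ne_zero 2 hn')
        exact sub_eq_zero.1 ((mul_eq_zero.1 h5).resolve_left h6)
      have hm' : ((m' : ℤ) : ZMod q) ≠ 0 := by
        intro h0
        rw [h0] at h4
        apply pow_ne_zero 2 hn'
        rw [← h4]; ring
      refine ⟨(n : ZMod q) / m', ?_⟩
      field_simp
      linear_combination h4
    · have hm' : ((m : ℤ) : ZMod q) ≠ 0 := fun h0 => hm ((cast_zero_iff q _).1 h0)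
      have h3 := congrArg (fun z : ℤ => (z : ZMod q)) h
      simp only [Int.cast_mul, Int.cast_add, Int.cast_neg, Int.cast_pow, Int.cast_natCast,
        CharP.cast_eq_zero, zero_mul, zero_add, add_zero, ne_eq, OfNat.ofNat_ne_zero,
        not_false_eq_true, zero_pow, neg_zero] at h3
      refine ⟨(k : ZMod q) / (d * m ^ 2), ?_⟩
      field_simp
      linear_combination -h3
  · rintro d' rfl
    have hd' : ¬ (q : ℤ) ∣ d' := by
      rintro ⟨e, rfl⟩
      exact hp.not_isUnit (hd q ⟨e, by ring⟩)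
    have hd'' : ((d' : ℤ) : ZMod q) ≠ 0 := fun h0 => hd' ((cast_zero_iff q _).1 h0)
    obtain ⟨k2, -, h2⟩ := three q k (d' * (d' ^ 2 * m ^ 4 + A₁ * d' * m ^ 2 * n ^ 2 -
        q * (A₁ * n ^ 4))) (by rw [h]; ring)
    by_cases hm : (q : ℤ) ∣ m
    · have hn := hmn' hm
      have hn' : ((n : ℤ) : ZMod q) ≠ 0 := fun h0 => hn ((cast_zero_iff q _).1 h0)
      obtain ⟨m', rfl⟩ := hm
      have h4 : k2 ^ 2 = d' * (q * (q ^ 2 * d' ^ 2 * m' ^ 4 + A₁ * d' * m' ^ 2 * n ^ 2) -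
          A₁ * n ^ 4) := by
        apply mul_left_cancel₀ hq0
        linear_combination h2
      have h3 := congrArg (fun z : ℤ => (z : ZMod q)) h4
      simp only [Int.cast_mul, Int.cast_add, Int.cast_sub, Int.cast_pow, Int.cast_natCast,
        CharP.cast_eq_zero, zero_mul, zero_sub] at h3
      refine ⟨(k2 : ZMod q) / (n ^ 2), ?_⟩
      push_cast
      field_simp
      linear_combination -h3
    · have hm' : ((m : ℤ) : ZMod q) ≠ 0 := fun h0 => hm ((cast_zero_iff q _).1 h0)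
      have h3 := congrArg (fun z : ℤ => (z : ZMod q)) h2
      simp only [Int.cast_mul, Int.cast_add, Int.cast_sub, Int.cast_pow, Int.cast_natCast,
        CharP.cast_eq_zero, zero_mul, sub_zero] at h3
      have h4 : (d' : ZMod q) * (m : ZMod q) ^ 2 + A₁ * (n : ZMod q) ^ 2 = 0 := by
        have h5 : (d' : ZMod q) ^ 2 * (m : ZMod q) ^ 2 *
            ((d' : ZMod q) * (m : ZMod q) ^ 2 + A₁ * (n : ZMod q) ^ 2) = 0 := by
          rw [h3]; ring
        have h6 : (d' : ZMod q) ^ 2 * (m : ZMod q) ^ 2 ≠ 0 :=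
          mul_ne_zero (pow_ne_zero 2 hd'') (pow_ne_zero 2 hm')
        exact (mul_eq_zero.1 h5).resolve_left h6
      refine ⟨(A₁ : ZMod q) * n / m, ?_⟩
      push_cast
      field_simp
      linear_combination -h4

theorem q_b (q : ℕ) [Fact q.Prime] (hq2 : q ≠ 2) (A₂ B₁ d m n k : ℤ) (hA : ¬ (q : ℤ) ∣ A₂)
    (hB : (q : ℤ) ∣ B₁ - A₂ ^ 2) (hd : Squarefree d) (hmn : IsCoprime m n)
    (h : k ^ 2 = QF (2 * q * A₂) (q ^ 2 * B₁) d m n) :
    (¬ (q : ℤ) ∣ d → IsSquare (d : ZMod q)) ∧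
      ∀ d' : ℤ, d = q * d' → IsSquare ((-(d' * A₂) : ℤ) : ZMod q) := by
  have hp : Prime (q : ℤ) := Nat.prime_iff_prime_int.1 (Fact.out : q.Prime)
  have hq0 : (q : ℤ) ≠ 0 := hp.ne_zero
  have hA' : ((A₂ : ℤ) : ZMod q) ≠ 0 := fun h0 => hA ((cast_zero_iff q _).1 h0)
  have hB' : ((B₁ : ℤ) : ZMod q) = (A₂ : ZMod q) ^ 2 := by
    have := (cast_zero_iff q _).2 hB
    push_cast at this
    exact sub_eq_zero.1 this
  unfold QF at h
  have hmn' : (q : ℤ) ∣ m → ¬ (q : ℤ) ∣ n := fun hm hn =>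
    hp.not_isUnit (hmn.isUnit_of_dvd' hm hn)
  constructor
  · intro hqd
    have hd' : ((d : ℤ) : ZMod q) ≠ 0 := fun h0 => hqd ((cast_zero_iff q _).1 h0)
    by_cases hm : (q : ℤ) ∣ m
    · have hn := hmn' hm
      have hn' : ((n : ℤ) : ZMod q) ≠ 0 := fun h0 => hn ((cast_zero_iff q _).1 h0)
      obtain ⟨m', rfl⟩ := hm
      have hk : (q : ℤ) ∣ k := by
        apply hp.dvd_of_dvd_pow (n := 2)
        refine ⟨q * (d * (q * (q * d ^ 2 * m' ^ 4 + 2 * A₂ * d * m' ^ 2 * n ^ 2) +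
          B₁ * n ^ 4)), ?_⟩
        rw [h]; ring
      obtain ⟨k1, rfl⟩ := hk
      have h4 : k1 ^ 2 = d * (q * (q * d ^ 2 * m' ^ 4 + 2 * A₂ * d * m' ^ 2 * n ^ 2) +
          B₁ * n ^ 4) := by
        apply mul_left_cancel₀ (pow_ne_zero 2 hq0)
        linear_combination h
      have h3 := congrArg (fun z : ℤ => (z : ZMod q)) h4
      simp only [Int.cast_mul, Int.cast_add, Int.cast_sub, Int.cast_pow, Int.cast_natCast,
        CharP.cast_eq_zero, zero_mul, zero_add, hB'] at h3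
      refine ⟨(k1 : ZMod q) / (A₂ * n ^ 2), ?_⟩
      field_simp
      linear_combination -h3
    · have hm' : ((m : ℤ) : ZMod q) ≠ 0 := fun h0 => hm ((cast_zero_iff q _).1 h0)
      have h3 := congrArg (fun z : ℤ => (z : ZMod q)) h
      simp only [Int.cast_mul, Int.cast_add, Int.cast_neg, Int.cast_pow, Int.cast_natCast,
        CharP.cast_eq_zero, zero_mul, mul_zero, zero_add, add_zero, ne_eq, OfNat.ofNat_ne_zero,
        not_false_eq_true, zero_pow, neg_zero] at h3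
      refine ⟨(k : ZMod q) / (d * m ^ 2), ?_⟩
      field_simp
      linear_combination -h3
  · rintro d' rfl
    have hd' : ¬ (q : ℤ) ∣ d' := by
      rintro ⟨e, rfl⟩
      exact hp.not_isUnit (hd q ⟨e, by ring⟩)
    have hd'' : ((d' : ℤ) : ZMod q) ≠ 0 := fun h0 => hd' ((cast_zero_iff q _).1 h0)
    obtain ⟨k2, -, h2⟩ := three q k (d' * (d' ^ 2 * m ^ 4 + 2 * A₂ * d' * m ^ 2 * n ^ 2 +
        B₁ * n ^ 4)) (by rw [h]; ring)
    have h3 := congrArg (fun z : ℤ => (z : ZMod q)) h2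
    simp only [Int.cast_mul, Int.cast_add, Int.cast_sub, Int.cast_pow, Int.cast_natCast,
      CharP.cast_eq_zero, zero_mul, Int.cast_ofNat, hB'] at h3
    have h4 : (d' : ZMod q) * (m : ZMod q) ^ 2 + A₂ * (n : ZMod q) ^ 2 = 0 := by
      have h5 : (d' : ZMod q) *
          ((d' : ZMod q) * (m : ZMod q) ^ 2 + A₂ * (n : ZMod q) ^ 2) ^ 2 = 0 := by
        rw [h3]; ring
      exact pow_eq_zero_iff (two_ne_zero) |>.1 ((mul_eq_zero.1 h5).resolve_left hd'')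
    have hm' : ((m : ℤ) : ZMod q) ≠ 0 := by
      intro h0
      have hm := (cast_zero_iff q _).1 h0
      have hn' : ((n : ℤ) : ZMod q) ≠ 0 := fun h1 => hmn' hm ((cast_zero_iff q _).1 h1)
      rw [h0] at h4
      have h6 : (A₂ : ZMod q) * (n : ZMod q) ^ 2 = 0 := by
        rw [← h4]; ring
      exact mul_ne_zero hA' (pow_ne_zero 2 hn') h6
    refine ⟨(A₂ : ZMod q) * n / m, ?_⟩
    push_cast
    field_simp
    linear_combination -h4

end Rk1
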