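import Pool.Agent.LibRk1.Defs

/-!
RK2. Two-adic conditions, types a and d.
-/

namespace Rk1

private lemma pv1 : ∀ k d m : ZMod 8, (4 * d ≠ 0) → (4 * m ≠ 0) → k ^ 2 = d ^ 3 * m ^ 4 → d = 1 := by
  decide +kernel

private lemma pv2 : ∀ k e : ZMod 16, 8 * e ≠ 0 → k ^ 2 ≠ 8 * e := by
  decide +kernel

private lemma pv3 : ∀ k d n : ZMod 8, (4 * d ≠ 0) → (4 * n ≠ 0) → k ^ 2 = d * n ^ 4 → d = 1 := by
  decide +kernel

private lemma pv4 : ∀ k d m n : ZMod 8, (4 * d ≠ 0) → (4 * m ≠ 0 ∨ 4 * n ≠ 0) →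
    k ^ 2 = d * (d ^ 2 * m ^ 4 + 6 * d * m ^ 2 * n ^ 2 + 2 * n ^ 4) → d = 1 := by
  decide +kernel

private lemma pv5 : ∀ k d m n : ZMod 8, (4 * d ≠ 0) → (4 * m ≠ 0 ∨ 4 * n ≠ 0) →
    k ^ 2 = d * (2 * d ^ 2 * m ^ 4 + 6 * d * m ^ 2 * n ^ 2 + n ^ 4) → d = 1 := by
  decide +kernel

private lemma pv_odd8 {d : ℤ} (h : ¬ 2 ∣ d) : (4 * (d : ZMod 8)) ≠ 0 := by
  intro h0
  have h1 : (((4 * d : ℤ)) : ZMod 8) = 0 := by push_cast; exact h0
  rw [ZMod.intCast_zmod_eq_zero_iff_dvd] at h1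
  push_cast at h1
  omega

private lemma pv_odd16 {d : ℤ} (h : ¬ 2 ∣ d) : (8 * (d : ZMod 16)) ≠ 0 := by
  intro h0
  have h1 : (((8 * d : ℤ)) : ZMod 16) = 0 := by push_cast; exact h0
  rw [ZMod.intCast_zmod_eq_zero_iff_dvd] at h1
  push_cast at h1
  omega

private lemma pv_one8 {d : ℤ} (h : (d : ZMod 8) = 1) : d % 8 = 1 := by
  have h1 : (((d - 1 : ℤ)) : ZMod 8) = 0 := by push_cast; rw [h]; ring
  rw [ZMod.intCast_zmod_eq_zero_iff_dvd] at h1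
  push_cast at h1
  omega

private lemma pv_cast8 {a b : ℤ} (h : 8 ∣ a - b) : (a : ZMod 8) = (b : ZMod 8) := by
  have := (ZMod.intCast_zmod_eq_zero_iff_dvd (a - b) 8).2 (by push_cast; exact h)
  push_cast at this
  exact sub_eq_zero.1 this

private lemma pv_cast16 {a b : ℤ} (h : 16 ∣ a - b) : (a : ZMod 16) = (b : ZMod 16) := by
  have := (ZMod.intCast_zmod_eq_zero_iff_dvd (a - b) 16).2 (by push_cast; exact h)
  push_cast at this
  exact sub_eq_zero.1 this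

private lemma pv_mn {m n : ℤ} (hmn : IsCoprime m n) : ¬ 2 ∣ m ∨ ¬ 2 ∣ n := by
  by_contra hcon
  push Not at hcon
  obtain ⟨u, v, huv⟩ := hmn
  have : (2 : ℤ) ∣ 1 := by
    rw [← huv]
    exact dvd_add (dvd_mul_of_dvd_right hcon.1 _) (dvd_mul_of_dvd_right hcon.2 _)
  omega

theorem two_a (A B d m n k : ℤ) (hA : A % 8 = 0) (hB : B % 64 = 8) (hd : ¬ 4 ∣ d)
    (hmn : IsCoprime m n) (h : k ^ 2 = QF A B d m n) : d % 8 = 1 ∨ d % 16 = 2 := by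
  obtain ⟨A', rfl⟩ : ∃ A', A = 8 * A' := ⟨A / 8, by omega⟩
  obtain ⟨B', rfl⟩ : ∃ B', B = 8 + 64 * B' := ⟨B / 64, by omega⟩
  unfold QF at h
  by_cases hd2 : 2 ∣ d
  · right
    obtain ⟨e, rfl⟩ := hd2
    have he : ¬ 2 ∣ e := by omega
    by_cases hm : 2 ∣ m
    · obtain ⟨m', rfl⟩ := hm
      have hn : ¬ 2 ∣ n := by
        rcases pv_mn hmn with h1 | h1
        · exact absurd (dvd_mul_right _ _) h1
        · exact h1
      have h2 : k ^ 2 = 4 ^ 2 * (e * (n ^ 4 + 8 * (e ^ 2 * m' ^ 4 + A' * e * m' ^ 2 * n ^ 2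
          + B' * n ^ 4))) := by
        rw [h]; ring
      have h4 : (4 : ℤ) ∣ k := by
        rw [← Int.pow_dvd_pow_iff (n := 2) (by norm_num), h2]
        exact dvd_mul_right _ _
      obtain ⟨k', rfl⟩ := h4
      have h3 : k' ^ 2 = e * (n ^ 4 + 8 * (e ^ 2 * m' ^ 4 + A' * e * m' ^ 2 * n ^ 2
          + B' * n ^ 4)) := by
        have : (4 : ℤ) ^ 2 * k' ^ 2 = 4 ^ 2 * (e * (n ^ 4 + 8 * (e ^ 2 * m' ^ 4
          + A' * e * m' ^ 2 * n ^ 2 + B' * n ^ 4))) := by rw [← h2]; ring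
        exact mul_left_cancel₀ (by norm_num) this
      have h5 : ((k' : ZMod 8)) ^ 2 = (e : ZMod 8) * (n : ZMod 8) ^ 4 := by
        have h6 : ((k' ^ 2 : ℤ) : ZMod 8) = ((e * n ^ 4 : ℤ) : ZMod 8) := by
          apply pv_cast8
          rw [h3]
          exact ⟨e * (e ^ 2 * m' ^ 4 + A' * e * m' ^ 2 * n ^ 2 + B' * n ^ 4), by ring⟩
        push_cast at h6
        exact h6
      have h7 := pv_one8 (pv3 _ _ _ (pv_odd8 he) (pv_odd8 hn) h5)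
      omega
    · exfalso
      have h5 : ((k ^ 2 : ℤ) : ZMod 16) = ((8 * (e ^ 3 * m ^ 4) : ℤ) : ZMod 16) := by
        apply pv_cast16
        rw [h]
        exact ⟨2 * A' * e ^ 2 * m ^ 2 * n ^ 2 + e * (1 + 8 * B') * n ^ 4, by ring⟩
      have hodd : ¬ (2 : ℤ) ∣ e ^ 3 * m ^ 4 := by
        intro h6
        rcases Int.prime_two.dvd_or_dvd h6 with h6 | h6
        · exact he (Int.prime_two.dvd_of_dvd_pow h6)
        · exact hm (Int.prime_two.dvd_of_dvd_pow h6)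
      have h8 := pv2 (k : ZMod 16) ((e ^ 3 * m ^ 4 : ℤ) : ZMod 16) (pv_odd16 hodd)
      apply h8
      push_cast at h5 ⊢
      exact h5
  · left
    by_cases hm : 2 ∣ m
    · exfalso
      have hn : ¬ 2 ∣ n := by
        rcases pv_mn hmn with h1 | h1
        · exact absurd hm h1
        · exact h1
      obtain ⟨m', rfl⟩ := hm
      have h5 : ((k ^ 2 : ℤ) : ZMod 16) = ((8 * (d * n ^ 4) : ℤ) : ZMod 16) := by
        apply pv_cast16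
        rw [h]
        exact ⟨d ^ 3 * m' ^ 4 + 2 * A' * d ^ 2 * m' ^ 2 * n ^ 2 + 4 * d * B' * n ^ 4, by ring⟩
      have hodd : ¬ (2 : ℤ) ∣ d * n ^ 4 := by
        intro h6
        rcases Int.prime_two.dvd_or_dvd h6 with h6 | h6
        · exact hd2 h6
        · exact hn (Int.prime_two.dvd_of_dvd_pow h6)
      have h8 := pv2 (k : ZMod 16) ((d * n ^ 4 : ℤ) : ZMod 16) (pv_odd16 hodd)
      apply h8
      push_cast at h5 ⊢
      exact h5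
    · have h5 : ((k ^ 2 : ℤ) : ZMod 8) = ((d ^ 3 * m ^ 4 : ℤ) : ZMod 8) := by
        apply pv_cast8
        rw [h]
        exact ⟨A' * d ^ 2 * m ^ 2 * n ^ 2 + d * (1 + 8 * B') * n ^ 4, by ring⟩
      push_cast at h5
      exact pv_one8 (pv1 _ _ _ (pv_odd8 hd2) (pv_odd8 hm) h5)

theorem two_d (A B d m n k : ℤ) (hA : A % 16 = 14) (hB : B % 16 = 2) (hd : ¬ 4 ∣ d)
    (hmn : IsCoprime m n) (h : k ^ 2 = QF A B d m n) : d % 8 = 1 ∨ d % 16 = 2 := by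
  obtain ⟨A', rfl⟩ : ∃ A', A = 14 + 16 * A' := ⟨A / 16, by omega⟩
  obtain ⟨B', rfl⟩ : ∃ B', B = 2 + 16 * B' := ⟨B / 16, by omega⟩
  unfold QF at h
  have hmn' : 4 * (m : ZMod 8) ≠ 0 ∨ 4 * (n : ZMod 8) ≠ 0 := by
    rcases pv_mn hmn with h1 | h1
    · exact Or.inl (pv_odd8 h1)
    · exact Or.inr (pv_odd8 h1)
  by_cases hd2 : 2 ∣ d
  · right
    obtain ⟨e, rfl⟩ := hd2
    have he : ¬ 2 ∣ e := by omega
    have h2 : k ^ 2 = 2 ^ 2 * (e * (2 * e ^ 2 * m ^ 4 + (14 + 16 * A') * e * m ^ 2 * n ^ 2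
        + (1 + 8 * B') * n ^ 4)) := by
      rw [h]; ring
    have h4 : (2 : ℤ) ∣ k := by
      rw [← Int.pow_dvd_pow_iff (n := 2) (by norm_num), h2]
      exact dvd_mul_right _ _
    obtain ⟨k', rfl⟩ := h4
    have h3 : k' ^ 2 = e * (2 * e ^ 2 * m ^ 4 + (14 + 16 * A') * e * m ^ 2 * n ^ 2
        + (1 + 8 * B') * n ^ 4) := by
      have : (2 : ℤ) ^ 2 * k' ^ 2 = 2 ^ 2 * (e * (2 * e ^ 2 * m ^ 4
        + (14 + 16 * A') * e * m ^ 2 * n ^ 2 + (1 + 8 * B') * n ^ 4)) := by rw [← h2]; ring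
      exact mul_left_cancel₀ (by norm_num) this
    have h5 : ((k' ^ 2 : ℤ) : ZMod 8)
        = ((e * (2 * e ^ 2 * m ^ 4 + 6 * e * m ^ 2 * n ^ 2 + n ^ 4) : ℤ) : ZMod 8) := by
      apply pv_cast8
      rw [h3]
      exact ⟨e * ((1 + 2 * A') * e * m ^ 2 * n ^ 2 + B' * n ^ 4), by ring⟩
    push_cast at h5
    have h7 := pv_one8 (pv5 _ _ _ _ (pv_odd8 he) hmn' h5)
    omega
  · left
    have h5 : ((k ^ 2 : ℤ) : ZMod 8)
        = ((d * (d ^ 2 * m ^ 4 + 6 * d * m ^ 2 * n ^ 2 + 2 * n ^ 4) : ℤ) : ZMod 8) := by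
      apply pv_cast8
      rw [h]
      exact ⟨d * ((1 + 2 * A') * d * m ^ 2 * n ^ 2 + 2 * B' * n ^ 4), by ring⟩
    push_cast at h5
    exact pv_one8 (pv4 _ _ _ _ (pv_odd8 hd2) hmn' h5)

end Rk1
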