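import Pool.Agent.LibRk1.Defs

/-!
RK3. Two-adic conditions, types b and c.
-/

namespace Rk1

private lemma sqo (x : ℤ) (h : x % 2 = 1) : ∃ y, x ^ 2 = 8 * y + 1 := by
  obtain ⟨t, rfl⟩ : ∃ t, x = 2 * t + 1 := ⟨x / 2, by omega⟩
  have h1 : t * (t + 1) % 2 = 0 := by
    rcases Int.emod_two_eq_zero_or_one t with h0 | h0
    · rw [Int.mul_emod, h0]; simp
    · have : (t + 1) % 2 = 0 := by omega
      rw [Int.mul_emod, this]; simp
  refine ⟨t * (t + 1) / 2, ?_⟩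
  have h2 : t * (t + 1) = 2 * (t * (t + 1) / 2) := by omega
  have h3 : (2 * t + 1) ^ 2 = 4 * (t * (t + 1)) + 1 := by ring
  rw [h3]
  omega

private lemma sqe (x : ℤ) (h : x % 2 = 0) : ∃ y, x ^ 2 = 4 * y := by
  obtain ⟨t, rfl⟩ : ∃ t, x = 2 * t := ⟨x / 2, by omega⟩
  exact ⟨t ^ 2, by ring⟩

private lemma fin7 (k d u : ℤ) (hd : d % 2 = 1) (h : k ^ 2 = 8 * u + 7 * d) : d % 8 = 7 := by
  rcases Int.emod_two_eq_zero_or_one k with h0 | h0
  · obtain ⟨y, hy⟩ := sqe k h0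
    omega
  · obtain ⟨y, hy⟩ := sqo k h0
    omega

private lemma fin1 (k d u : ℤ) (hd : d % 2 = 1) (h : k ^ 2 = 8 * u + d) : d % 8 = 1 := by
  rcases Int.emod_two_eq_zero_or_one k with h0 | h0
  · obtain ⟨y, hy⟩ := sqe k h0
    omega
  · obtain ⟨y, hy⟩ := sqo k h0
    omega

private lemma fin2 (k d u : ℤ) (hd : d % 2 = 1) (h : k ^ 2 = 8 * u + 2 * d) : False := by
  rcases Int.emod_two_eq_zero_or_one k with h0 | h0
  · obtain ⟨y, hy⟩ := sqe k h0
    omega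
  · obtain ⟨y, hy⟩ := sqo k h0
    omega

private lemma parity (m n : ℤ) (hmn : IsCoprime m n) : m % 2 = 1 ∨ (m % 2 = 0 ∧ n % 2 = 1) := by
  rcases Int.emod_two_eq_zero_or_one m with h0 | h0
  · rcases Int.emod_two_eq_zero_or_one n with h1 | h1
    · exfalso
      obtain ⟨a, b, hab⟩ := hmn
      obtain ⟨s, rfl⟩ : ∃ t, m = 2 * t := ⟨m / 2, by omega⟩
      obtain ⟨t, rfl⟩ : ∃ t, n = 2 * t := ⟨n / 2, by omega⟩
      have : 2 * (a * s + b * t) = 1 := by rw [← hab]; ring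
      omega
    · exact Or.inr ⟨h0, h1⟩
  · exact Or.inl h0

theorem two_b (A B d m n k : ℤ) (hA : A % 8 = 4) (hB : B % 16 = 2) (hd : ¬ 4 ∣ d)
    (hmn : IsCoprime m n) (h : k ^ 2 = QF A B d m n) :
    d % 8 = 1 ∨ d % 8 = 7 ∨ d % 16 = 2 ∨ d % 16 = 14 := by
  obtain ⟨α, rfl⟩ : ∃ t, A = 8 * t + 4 := ⟨A / 8, by omega⟩
  obtain ⟨β, rfl⟩ : ∃ t, B = 16 * t + 2 := ⟨B / 16, by omega⟩
  unfold QF at h
  rcases Int.emod_two_eq_zero_or_one d with hd2 | hd2
  · obtain ⟨e, rfl⟩ : ∃ t, d = 2 * t := ⟨d / 2, by omega⟩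
    have he : e % 2 = 1 := by omega
    have hk2 : k % 2 = 0 := by
      rcases Int.emod_two_eq_zero_or_one k with h0 | h0
      · exact h0
      · exfalso
        obtain ⟨y, hy⟩ := sqo k h0
        have : k ^ 2 = 2 * (e * ((2 * e) ^ 2 * m ^ 4 + (8 * α + 4) * (2 * e) * m ^ 2 * n ^ 2 +
          (16 * β + 2) * n ^ 4)) := by rw [h]; ring
        omega
    obtain ⟨k', rfl⟩ : ∃ t, k = 2 * t := ⟨k / 2, by omega⟩
    have h1 : k' ^ 2 = e * (2 * e ^ 2 * m ^ 4 + (8 * α + 4) * e * m ^ 2 * n ^ 2 +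
        (8 * β + 1) * n ^ 4) := by linarith
    obtain ⟨c, hc⟩ := sqo e he
    obtain ⟨γ, hγ⟩ : ∃ t, e = 2 * t + 1 := ⟨e / 2, by omega⟩
    rcases parity m n hmn with hm | ⟨hm, hn⟩
    · obtain ⟨a, ha⟩ := sqo m hm
      rcases Int.emod_two_eq_zero_or_one n with hn | hn
      · exfalso
        obtain ⟨b, hb⟩ := sqe n hn
        refine fin2 k' e (e * (2 * c * (8 * a + 1) ^ 2 + (16 * a ^ 2 + 4 * a) +
          (4 * α + 2) * e * (8 * a + 1) * b + (16 * β + 2) * b ^ 2)) he ?_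
        rw [h1, show m ^ 4 = (m ^ 2) ^ 2 by ring, show n ^ 4 = (n ^ 2) ^ 2 by ring, ha, hb, hc]
        ring
      · obtain ⟨b, hb⟩ := sqo n hn
        have := fin7 k' e (e * (2 * c * (8 * a + 1) ^ 2 + (16 * a ^ 2 + 4 * a) +
          α * e * (8 * a + 1) * (8 * b + 1) + e * (32 * a * b + 4 * a + 4 * b) + γ +
          β * (8 * b + 1) ^ 2 + (8 * b ^ 2 + 2 * b))) he (by
            rw [h1, show m ^ 4 = (m ^ 2) ^ 2 by ring, show n ^ 4 = (n ^ 2) ^ 2 by ring, ha, hb, hc]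
            have h4 : (4 : ℤ) * e = 8 * γ + 4 := by rw [hγ]; ring
            linear_combination e * h4)
        omega
    · obtain ⟨a, ha⟩ := sqe m hm
      obtain ⟨b, hb⟩ := sqo n hn
      have := fin1 k' e (e * (4 * e ^ 2 * a ^ 2 + (4 * α + 2) * e * a * (8 * b + 1) +
          β * (8 * b + 1) ^ 2 + (8 * b ^ 2 + 2 * b))) he (by
            rw [h1, show m ^ 4 = (m ^ 2) ^ 2 by ring, show n ^ 4 = (n ^ 2) ^ 2 by ring, ha, hb]
            ring)
      omega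
  · obtain ⟨c, hc⟩ := sqo d hd2
    obtain ⟨γ, hγ⟩ : ∃ t, d = 2 * t + 1 := ⟨d / 2, by omega⟩
    rcases parity m n hmn with hm | ⟨hm, hn⟩
    · obtain ⟨a, ha⟩ := sqo m hm
      rcases Int.emod_two_eq_zero_or_one n with hn | hn
      · obtain ⟨b, hb⟩ := sqe n hn
        left
        refine fin1 k d (d * (c * (8 * a + 1) ^ 2 + (8 * a ^ 2 + 2 * a) +
          (4 * α + 2) * d * (8 * a + 1) * b + (32 * β + 4) * b ^ 2)) hd2 ?_
        rw [h, show m ^ 4 = (m ^ 2) ^ 2 by ring, show n ^ 4 = (n ^ 2) ^ 2 by ring, ha, hb, hc]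
        ring
      · obtain ⟨b, hb⟩ := sqo n hn
        right; left
        refine fin7 k d (d * (c * (8 * a + 1) ^ 2 + (8 * a ^ 2 + 2 * a) +
          α * d * (8 * a + 1) * (8 * b + 1) + d * (32 * a * b + 4 * a + 4 * b) + γ +
          2 * β * (8 * b + 1) ^ 2 + (16 * b ^ 2 + 4 * b))) hd2 ?_
        rw [h, show m ^ 4 = (m ^ 2) ^ 2 by ring, show n ^ 4 = (n ^ 2) ^ 2 by ring, ha, hb, hc]
        have h4 : (4 : ℤ) * d = 8 * γ + 4 := by rw [hγ]; ring
        linear_combination d * h4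
    · obtain ⟨a, ha⟩ := sqe m hm
      obtain ⟨b, hb⟩ := sqo n hn
      exfalso
      refine fin2 k d (d * (2 * d ^ 2 * a ^ 2 + (4 * α + 2) * d * a * (8 * b + 1) +
          2 * β * (8 * b + 1) ^ 2 + (16 * b ^ 2 + 4 * b))) hd2 ?_
      rw [h, show m ^ 4 = (m ^ 2) ^ 2 by ring, show n ^ 4 = (n ^ 2) ^ 2 by ring, ha, hb]
      ring

theorem two_c (A B d m n k : ℤ) (hA : A % 32 = 4) (hB : B % 64 = 60) (hd : ¬ 4 ∣ d)
    (hmn : IsCoprime m n) (h : k ^ 2 = QF A B d m n) :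
    d % 8 = 1 ∨ d % 8 = 7 ∨ d % 16 = 2 ∨ d % 16 = 14 := by
  obtain ⟨α, rfl⟩ : ∃ t, A = 32 * t + 4 := ⟨A / 32, by omega⟩
  obtain ⟨β, rfl⟩ : ∃ t, B = 64 * t + 60 := ⟨B / 64, by omega⟩
  unfold QF at h
  rcases Int.emod_two_eq_zero_or_one d with hd2 | hd2
  · obtain ⟨e, rfl⟩ : ∃ t, d = 2 * t := ⟨d / 2, by omega⟩
    have he : e % 2 = 1 := by omega
    have h8 : k ^ 2 = 8 * (e * (e ^ 2 * m ^ 4 + (16 * α + 2) * e * m ^ 2 * n ^ 2 +
        (16 * β + 15) * n ^ 4)) := by rw [h]; ring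
    have hk2 : k % 2 = 0 := by
      rcases Int.emod_two_eq_zero_or_one k with h0 | h0
      · exact h0
      · exfalso
        obtain ⟨y, hy⟩ := sqo k h0
        omega
    obtain ⟨k', rfl⟩ : ∃ t, k = 2 * t := ⟨k / 2, by omega⟩
    have h9 : k' ^ 2 = 2 * (e * (e ^ 2 * m ^ 4 + (16 * α + 2) * e * m ^ 2 * n ^ 2 +
        (16 * β + 15) * n ^ 4)) := by linarith
    have hk3 : k' % 2 = 0 := by
      rcases Int.emod_two_eq_zero_or_one k' with h0 | h0
      · exact h0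
      · exfalso
        obtain ⟨y, hy⟩ := sqo k' h0
        omega
    obtain ⟨s, rfl⟩ : ∃ t, k' = 2 * t := ⟨k' / 2, by omega⟩
    have h10 : 2 * s ^ 2 = e * (e ^ 2 * m ^ 4 + (16 * α + 2) * e * m ^ 2 * n ^ 2 +
        (16 * β + 15) * n ^ 4) := by linarith
    obtain ⟨c, hc⟩ := sqo e he
    obtain ⟨γ, hγ⟩ : ∃ t, e = 2 * t + 1 := ⟨e / 2, by omega⟩
    rcases parity m n hmn with hm | ⟨hm, hn⟩
    · obtain ⟨a, ha⟩ := sqo m hm
      rcases Int.emod_two_eq_zero_or_one n with hn | hn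
      · exfalso
        obtain ⟨b, hb⟩ := sqe n hn
        have : 2 * s ^ 2 = 2 * (e * (4 * c * (8 * a + 1) ^ 2 + (32 * a ^ 2 + 8 * a) +
          (32 * α + 4) * e * (8 * a + 1) * b + 8 * (16 * β + 15) * b ^ 2)) + e := by
          rw [h10, show m ^ 4 = (m ^ 2) ^ 2 by ring, show n ^ 4 = (n ^ 2) ^ 2 by ring, ha, hb, hc]
          ring
        omega
      · obtain ⟨b, hb⟩ := sqo n hn
        have h11 : 2 * s ^ 2 = 2 * (8 * (e * (c * (8 * a ^ 2 + 2 * a) * 4 + (4 * a ^ 2 + a) +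
            (α * e * (8 * a + 1) * (8 * b + 1)) + e * (8 * a * b + a + b) +
            β * (8 * b + 1) ^ 2 + 15 * (4 * b ^ 2 + b) + 1)) + 4 * (e * c) + e ^ 2) := by
          rw [h10, show m ^ 4 = (m ^ 2) ^ 2 by ring, show n ^ 4 = (n ^ 2) ^ 2 by ring, ha, hb, hc]
          have h12 : e ^ 2 = 8 * c + 1 := hc
          linear_combination (2 : ℤ) * h12
        rcases Int.emod_two_eq_zero_or_one s with h0 | h0
        · exfalso
          obtain ⟨y, hy⟩ := sqe s h0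
          omega
        · obtain ⟨y, hy⟩ := sqo s h0
          have h13 : e * c = 2 * (γ * c) + c := by rw [hγ]; ring
          have h14 : c % 2 = 0 := by omega
          have h15 : e ^ 2 = 4 * (γ * (γ + 1)) + 1 := by rw [hγ]; ring
          have h16 : (γ * (γ + 1)) % 4 = 0 := by omega
          have h17 : γ % 4 = 0 ∨ γ % 4 = 3 := by
            have h18 : γ % 4 = 0 ∨ γ % 4 = 1 ∨ γ % 4 = 2 ∨ γ % 4 = 3 := by omega
            rcases h18 with h18 | h18 | h18 | h18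
            · exact Or.inl h18
            · exfalso
              have h19 : (γ + 1) % 4 = 2 := by omega
              rw [Int.mul_emod, h18, h19] at h16
              norm_num at h16
            · exfalso
              have h19 : (γ + 1) % 4 = 3 := by omega
              rw [Int.mul_emod, h18, h19] at h16
              norm_num at h16
            · exact Or.inr h18
          omega
    · exfalso
      obtain ⟨a, ha⟩ := sqe m hm
      obtain ⟨b, hb⟩ := sqo n hn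
      have : 2 * s ^ 2 = 2 * (e * (8 * e ^ 2 * a ^ 2 + (32 * α + 4) * e * a * (8 * b + 1) +
          8 * β * (8 * b + 1) ^ 2 + 15 * (32 * b ^ 2 + 8 * b) + 7)) + e := by
        rw [h10, show m ^ 4 = (m ^ 2) ^ 2 by ring, show n ^ 4 = (n ^ 2) ^ 2 by ring, ha, hb]
        ring
      omega
  · obtain ⟨c, hc⟩ := sqo d hd2
    obtain ⟨γ, hγ⟩ : ∃ t, d = 2 * t + 1 := ⟨d / 2, by omega⟩
    rcases parity m n hmn with hm | ⟨hm, hn⟩
    · obtain ⟨a, ha⟩ := sqo m hm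
      left
      rcases Int.emod_two_eq_zero_or_one n with hn | hn
      · obtain ⟨b, hb⟩ := sqe n hn
        refine fin1 k d (d * (c * (8 * a + 1) ^ 2 + (8 * a ^ 2 + 2 * a) +
          (16 * α + 2) * d * (8 * a + 1) * b + (128 * β + 120) * b ^ 2)) hd2 ?_
        rw [h, show m ^ 4 = (m ^ 2) ^ 2 by ring, show n ^ 4 = (n ^ 2) ^ 2 by ring, ha, hb, hc]
        ring
      · obtain ⟨b, hb⟩ := sqo n hn
        refine fin1 k d (d * (c * (8 * a + 1) ^ 2 + (8 * a ^ 2 + 2 * a) +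
          4 * α * d * (8 * a + 1) * (8 * b + 1) + d * (32 * a * b + 4 * a + 4 * b) + γ +
          (8 * β + 7) * (8 * b + 1) ^ 2 + (32 * b ^ 2 + 8 * b) + 1)) hd2 ?_
        rw [h, show m ^ 4 = (m ^ 2) ^ 2 by ring, show n ^ 4 = (n ^ 2) ^ 2 by ring, ha, hb, hc]
        have h4 : (4 : ℤ) * d = 8 * γ + 4 := by rw [hγ]; ring
        linear_combination d * h4
    · obtain ⟨m', rfl⟩ : ∃ t, m = 2 * t := ⟨m / 2, by omega⟩
      obtain ⟨b, hb⟩ := sqo n hn
      have hk2 : k % 2 = 0 := by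
        rcases Int.emod_two_eq_zero_or_one k with h0 | h0
        · exact h0
        · exfalso
          obtain ⟨y, hy⟩ := sqo k h0
          have : k ^ 2 = 2 * (d * (8 * d ^ 2 * m' ^ 4 + 2 * (32 * α + 4) * d * m' ^ 2 * n ^ 2 +
            (32 * β + 30) * n ^ 4)) := by rw [h]; ring
          omega
      obtain ⟨k', rfl⟩ : ∃ t, k = 2 * t := ⟨k / 2, by omega⟩
      have h1 : k' ^ 2 = d * (4 * d ^ 2 * m' ^ 4 + (32 * α + 4) * d * m' ^ 2 * n ^ 2 +
          (16 * β + 15) * n ^ 4) := by linarith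
      right; left
      rcases Int.emod_two_eq_zero_or_one m' with hm' | hm'
      · obtain ⟨a, ha⟩ := sqe m' hm'
        refine fin7 k' d (d * (8 * d ^ 2 * a ^ 2 + (16 * α + 2) * d * a * (8 * b + 1) +
          2 * β * (8 * b + 1) ^ 2 + 15 * (8 * b ^ 2 + 2 * b) + 1)) hd2 ?_
        rw [h1, show m' ^ 4 = (m' ^ 2) ^ 2 by ring, show n ^ 4 = (n ^ 2) ^ 2 by ring, ha, hb]
        ring
      · obtain ⟨a, ha⟩ := sqo m' hm'
        refine fin7 k' d (d * (4 * c * (8 * a + 1) ^ 2 + (32 * a ^ 2 + 8 * a) +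
          4 * α * d * (8 * a + 1) * (8 * b + 1) + d * (32 * a * b + 4 * a + 4 * b) + γ +
          2 * β * (8 * b + 1) ^ 2 + 15 * (8 * b ^ 2 + 2 * b) + 2)) hd2 ?_
        rw [h1, show m' ^ 4 = (m' ^ 2) ^ 2 by ring, show n ^ 4 = (n ^ 2) ^ 2 by ring, ha, hb, hc]
        have h4 : (4 : ℤ) * d = 8 * γ + 4 := by rw [hγ]; ring
        linear_combination d * h4

end Rk1
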