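import Pool.Agent.LibRk1.Extract
import Pool.Agent.LibRk1.TwoA
import Pool.Agent.LibRk1.TwoB
import Pool.Agent.LibRk1.QAdic
import Pool.Agent.LibRk1.Cases

/-!
RK6. The two descent images of `y² = x³ + 8 p q x² - 8 p q³ x`.
-/

namespace Rk1

/-- the squarefree candidates, with the factor two and the sign split off -/
theorem casesE (d : ℤ) (hd : Squarefree d) (p q l : ℕ) (hp : p.Prime) (hq : q.Prime)
    (hl : l.Prime)
    (h : ∀ r : ℕ, r.Prime → (r : ℤ) ∣ d → r = 2 ∨ r = p ∨ r = q ∨ r = l) :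
    ∃ s e : ℤ, (s = 1 ∨ s = -1) ∧
      (e = 1 ∨ e = p ∨ e = q ∨ e = l ∨ e = p * q ∨ e = p * l ∨ e = l * q ∨ e = l * (p * q)) ∧
      (d = s * e ∨ d = 2 * (s * e)) := by
  obtain ⟨s, i, j, k, m, hs, hi, hj, hk, hm, hd'⟩ := sqfree_cases d hd p q l hp hq hl h
  refine ⟨s, (p : ℤ) ^ j * q ^ k * l ^ m, hs, ?_, ?_⟩
  · have hj' : j = 0 ∨ j = 1 := by omega
    have hk' : k = 0 ∨ k = 1 := by omega
    have hm' : m = 0 ∨ m = 1 := by omega
    rcases hj' with rfl | rfl <;> rcases hk' with rfl | rfl <;> rcases hm' with rfl | rfl <;>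
      simp only [pow_zero, pow_one, one_mul, mul_one]
    · exact Or.inl trivial
    · exact Or.inr (Or.inr (Or.inr (Or.inl trivial)))
    · exact Or.inr (Or.inr (Or.inl trivial))
    · exact Or.inr (Or.inr (Or.inr (Or.inr (Or.inr (Or.inr (Or.inl (by first | trivial | ring)))))))
    · exact Or.inr (Or.inl trivial)
    · exact Or.inr (Or.inr (Or.inr (Or.inr (Or.inr (Or.inl trivial)))))
    · exact Or.inr (Or.inr (Or.inr (Or.inr (Or.inl trivial))))
    · exact Or.inr (Or.inr (Or.inr (Or.inr (Or.inr (Or.inr (Or.inr (by first | trivial | ring)))))))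
  · have hi' : i = 0 ∨ i = 1 := by omega
    rcases hi' with rfl | rfl
    · left; rw [hd']; ring
    · right; rw [hd']; ring

theorem not_four_dvd {d : ℤ} (hd : Squarefree d) : ¬ 4 ∣ d := by
  intro h
  have h2 : IsUnit (2 : ℤ) := hd 2 (by simpa using h)
  rw [Int.isUnit_iff] at h2
  omega

theorem prime_dvd_aux {r : ℕ} (hr : r.Prime) {p q l : ℕ} (hp : p.Prime) (hq : q.Prime)
    (hl : l.Prime) (a b c e : ℕ) (h : r ∣ 2 ^ a * p ^ b * q ^ c * l ^ e) :
    (r = 2) ∨ (r = p ∧ b ≠ 0) ∨ (r = q ∧ c ≠ 0) ∨ (r = l ∧ e ≠ 0) := by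
  have hpow : ∀ {t u : ℕ}, t.Prime → r ∣ t ^ u → r = t ∧ u ≠ 0 := by
    intro t u ht hd
    refine ⟨(Nat.prime_dvd_prime_iff_eq hr ht).1 (hr.dvd_of_dvd_pow hd), ?_⟩
    rintro rfl
    rw [pow_zero] at hd
    exact hr.one_lt.ne' (Nat.dvd_one.1 hd)
  rcases (Nat.Prime.dvd_mul hr).1 h with h | h
  · rcases (Nat.Prime.dvd_mul hr).1 h with h | h
    · rcases (Nat.Prime.dvd_mul hr).1 h with h | h
      · exact Or.inl (hpow Nat.prime_two h).1
      · exact Or.inr (Or.inl (hpow hp h))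
    · exact Or.inr (Or.inr (Or.inl (hpow hq h)))
  · exact Or.inr (Or.inr (Or.inr (hpow hl h)))

/-- the residues -/
theorem resid (p q l : ℕ) (hp8 : p % 8 = 3) (hq8 : q % 8 = 5) (hlq : l = q + 2 * p) :
    (p : ℤ) % 8 = 3 ∧ (q : ℤ) % 8 = 5 ∧ (l : ℤ) % 8 = 3 ∧ ((p : ℤ) * q) % 8 = 7 ∧
      ((p : ℤ) * l) % 8 = 1 ∧ ((l : ℤ) * q) % 16 = 7 ∧ ((l : ℤ) * (p * q)) % 8 = 5 := by
  have h1 : (p : ℤ) % 8 = 3 := by omega
  have h2 : (q : ℤ) % 8 = 5 := by omega
  have h3 : (l : ℤ) % 8 = 3 := by omega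
  have h4 : ((p : ℤ) * q) % 8 = 7 := by rw [Int.mul_emod, h1, h2]; norm_num
  refine ⟨h1, h2, h3, h4, ?_, ?_, ?_⟩
  · rw [Int.mul_emod, h1, h3]; norm_num
  · have h5 : (q : ℤ) % 16 = 5 ∨ (q : ℤ) % 16 = 13 := by omega
    rcases h5 with h5 | h5
    · have h6 : (l : ℤ) % 16 = 11 := by omega
      rw [Int.mul_emod, h5, h6]; norm_num
    · have h6 : (l : ℤ) % 16 = 3 := by omega
      rw [Int.mul_emod, h5, h6]; norm_num
  · rw [Int.mul_emod, h3, h4]; norm_num

theorem zmod_facts (p q l : ℕ) [Fact q.Prime] (hp : p.Prime) (hp8 : p % 8 = 3)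
    (hq8 : q % 8 = 5) (hlq : l = q + 2 * p) :
    (p : ZMod q) ≠ 0 ∧ (2 : ZMod q) ≠ 0 ∧ (l : ZMod q) = 2 * p ∧ ¬ (q : ℤ) ∣ p ∧
      ¬ (q : ℤ) ∣ 2 ∧ ¬ (q : ℤ) ∣ l := by
  have hq : q.Prime := Fact.out
  have hqp : ¬ q ∣ p := by
    intro h
    have := (Nat.prime_dvd_prime_iff_eq hq hp).1 h
    omega
  have hq2 : ¬ q ∣ 2 := by
    intro h
    have := (Nat.prime_dvd_prime_iff_eq hq Nat.prime_two).1 h
    omega
  have hql : ¬ q ∣ l := by
    intro h
    rw [hlq] at h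
    have h2 : q ∣ 2 * p := (Nat.dvd_add_right (dvd_refl q)).1 h
    rcases (Nat.Prime.dvd_mul hq).1 h2 with h3 | h3
    · exact hq2 h3
    · exact hqp h3
  refine ⟨?_, ?_, ?_, ?_, ?_, ?_⟩
  · rwa [Ne, ZMod.natCast_eq_zero_iff]
  · have : ((2 : ℕ) : ZMod q) ≠ 0 := by rwa [Ne, ZMod.natCast_eq_zero_iff]
    exact_mod_cast this
  · rw [hlq]; push_cast; simp
  · exact_mod_cast hqp
  · exact_mod_cast hq2
  · exact_mod_cast hql

theorem cls1a (p q l : ℕ) (hp : p.Prime) (hq : q.Prime) (hl : l.Prime) (hp8 : p % 8 = 3)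
    (hq8 : q % 8 = 5) (hlq : l = q + 2 * p) (x y : ℚ) (hx : x ≠ 0)
    (h : y ^ 2 = x ^ 3 + 8 * p * q * x ^ 2 + (-(8 * p * q ^ 3)) * x) :
    IsSquare x ∨ IsSquare ((-(8 * p * q ^ 3)) * x) := by
  have : Fact q.Prime := ⟨hq⟩
  obtain ⟨r1, r2, r3, r4, r5, r6, r7⟩ := resid p q l hp8 hq8 hlq
  obtain ⟨z1, z2, z3, z4, z5, z6⟩ := zmod_facts p q l hp hp8 hq8 hlq
  have hsq : IsSquare (x * (x ^ 2 + ((q * (8 * p) : ℤ) : ℚ) * x + ((-(q ^ 3 * (8 * p)) : ℤ) : ℚ))) := by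
    refine ⟨y, ?_⟩
    push_cast
    linear_combination -h
  obtain ⟨d, m, n, k, hd, hmn, hm, hn, hxd, hk⟩ := extract _ _ x hx hsq
  have hB8 : (-(q ^ 3 * (8 * p)) : ℤ) % 64 = 8 := by
    have e : (-(q ^ 3 * (8 * p)) : ℤ) = 8 * (-(p * q * (q * q))) := by ring
    have e2 : ((q : ℤ) * q) % 8 = 1 := by rw [Int.mul_emod, r2]; norm_num
    have e3 : ((p : ℤ) * q * (q * q)) % 8 = 7 := by rw [Int.mul_emod, r4, e2]; norm_num
    rw [e]
    omega
  have hA8 : ((q * (8 * p) : ℤ)) % 8 = 0 := by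
    have e : ((q * (8 * p) : ℤ)) = 8 * (q * p) := by ring
    rw [e]
    omega
  have h2 := two_a _ _ d m n k hA8 hB8 (not_four_dvd hd) hmn hk
  have hqa := q_a q (by omega) (8 * p) d m n k (by
    intro h
    rcases (Nat.prime_iff_prime_int.1 hq).dvd_or_dvd h with h | h
    · have : (q : ℤ) ∣ 2 ^ 3 := by simpa using h
      exact z5 ((Nat.prime_iff_prime_int.1 hq).dvd_of_dvd_pow this)
    · exact z4 h) hd hmn (by simpa using hk)
  have hpr : ∀ r : ℕ, r.Prime → (r : ℤ) ∣ d → r = 2 ∨ r = p ∨ r = q := by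
    intro r hr hrd
    have hB := dvd_B _ _ d m n k hd hmn hk r (Nat.prime_iff_prime_int.1 hr) hrd
    have hB' : (r : ℤ) ∣ ((2 ^ 3 * p ^ 1 * q ^ 3 * l ^ 0 : ℕ) : ℤ) := by
      have e : ((2 ^ 3 * p ^ 1 * q ^ 3 * l ^ 0 : ℕ) : ℤ) = q ^ 3 * (8 * p) := by
        push_cast
        ring
      rw [e]
      exact dvd_neg.1 hB
    rcases prime_dvd_aux hr hp hq hl 3 1 3 0 (Int.natCast_dvd_natCast.1 hB') with h | h | h | h
    · exact Or.inl h
    · exact Or.inr (Or.inl h.1)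
    · exact Or.inr (Or.inr h.1)
    · exact absurd rfl h.2
  have hld : ¬ (l : ℤ) ∣ d := by
    intro hh
    have hp0 := hp.pos
    rcases hpr l hl hh with h | h | h <;> omega
  obtain ⟨s, e, hs, he, hde⟩ := casesE d hd p q l hp hq hl (fun r hr hrd => by
    rcases hpr r hr hrd with h | h | h
    · exact Or.inl h
    · exact Or.inr (Or.inl h)
    · exact Or.inr (Or.inr (Or.inl h)))
  have hse : d = 1 ∨ d = 2 ∨ d = -(p * q) ∨ d = 2 * -(p * q) := by
    have hle : ¬ (l : ℤ) ∣ e := by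
      intro hh
      apply hld
      rcases hde with h | h
      · rw [h]; exact dvd_mul_of_dvd_right hh s
      · rw [h]; exact dvd_mul_of_dvd_right (dvd_mul_of_dvd_right hh s) 2
    rcases he with rfl | rfl | rfl | rfl | rfl | rfl | rfl | rfl
    · rcases hs with rfl | rfl <;> omega
    · rcases hs with rfl | rfl <;> omega
    · rcases hs with rfl | rfl <;> omega
    · exact absurd (dvd_refl _) hle
    · rcases hs with rfl | rfl <;> omega
    · exact absurd (dvd_mul_left _ _) hle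
    · exact absurd (dvd_mul_right _ _) hle
    · exact absurd (dvd_mul_right _ _) hle
  have hnq : (n : ℚ) ≠ 0 := by exact_mod_cast hn
  rcases hse with rfl | rfl | rfl | rfl
  · left
    exact ⟨m / n, by rw [hxd]; push_cast; ring⟩
  · exfalso
    have := hqa.1 z5
    apply two_nonsq q hq8 1 one_ne_zero
    simpa using this
  · exfalso
    have := hqa.2 (-p) (by ring)
    apply two_nonsq q hq8 (2 * (p : ZMod q)) (mul_ne_zero z2 z1)
    convert this using 1
    push_cast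
    ring
  · right
    exact ⟨4 * p * q ^ 2 * (m / n), by rw [hxd]; push_cast; ring⟩

theorem cls1b (p q l : ℕ) (hp : p.Prime) (hq : q.Prime) (hl : l.Prime) (hp8 : p % 8 = 3)
    (hq8 : q % 8 = 5) (hlq : l = q + 2 * p) (c z : ℚ) (hc : c ≠ 0)
    (h : z ^ 2 = c * (c ^ 2 - 2 * (8 * p * q) * c + 32 * p * q ^ 2 * l)) :
    IsSquare c ∨ IsSquare (32 * p * q ^ 2 * l * c) ∨ IsSquare (4 * q * l * c) ∨
      IsSquare (4 * q * l * (32 * p * q ^ 2 * l) * c) := by
  have : Fact q.Prime := ⟨hq⟩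
  obtain ⟨r1, r2, r3, r4, r5, r6, r7⟩ := resid p q l hp8 hq8 hlq
  obtain ⟨z1, z2, z3, z4, z5, z6⟩ := zmod_facts p q l hp hp8 hq8 hlq
  have hp0 : (0 : ℚ) < p := by exact_mod_cast hp.pos
  have hq0 : (0 : ℚ) < q := by exact_mod_cast hq.pos
  have hl0 : (0 : ℚ) < l := by exact_mod_cast hl.pos
  have hpz : (0 : ℤ) < p := by exact_mod_cast hp.pos
  have hqz : (0 : ℤ) < q := by exact_mod_cast hq.pos
  have hlz : (0 : ℤ) < l := by exact_mod_cast hl.pos
  have hcpos : 0 < c := by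
    by_contra hneg
    have hc' : c < 0 := lt_of_le_of_ne (not_lt.1 hneg) hc
    have h1 : 0 < c ^ 2 - 2 * (8 * p * q) * c + 32 * p * q ^ 2 * l := by
      have e1 : 0 < c ^ 2 := by positivity
      have e2 : 0 < 2 * (8 * (p : ℚ) * q) * (-c) := by
        have : 0 < -c := by linarith
        positivity
      have e3 : 0 < 32 * (p : ℚ) * q ^ 2 * l := by positivity
      linarith
    have h2 : c * (c ^ 2 - 2 * (8 * p * q) * c + 32 * p * q ^ 2 * l) < 0 :=
      mul_neg_of_neg_of_pos hc' h1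
    have h3 := sq_nonneg z
    rw [h] at h3
    linarith
  have hsq : IsSquare (c / 4 * ((c / 4) ^ 2 + ((2 * q * (-2 * p) : ℤ) : ℚ) * (c / 4) +
      ((q ^ 2 * (2 * p * l) : ℤ) : ℚ))) := by
    refine ⟨z / 8, ?_⟩
    push_cast
    linear_combination (-1 / 64) * h
  obtain ⟨d, m, n, k, hd, hmn, hm, hn, hxd, hk⟩ := extract _ _ (c / 4) (by
    exact div_ne_zero hc (by norm_num)) hsq
  have hnq : (n : ℚ) ≠ 0 := by exact_mod_cast hn
  have hmq : (m : ℚ) ≠ 0 := by exact_mod_cast hm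
  have hdpos : 0 < d := by
    have h1 : 0 < (d : ℚ) * ((m : ℚ) / n) ^ 2 := by rw [← hxd]; positivity
    have h2 : 0 < ((m : ℚ) / n) ^ 2 := by positivity
    have h3 : 0 < (d : ℚ) := by
      by_contra hcon
      have : (d : ℚ) * ((m : ℚ) / n) ^ 2 ≤ 0 :=
        mul_nonpos_of_nonpos_of_nonneg (not_lt.1 hcon) h2.le
      linarith
    exact_mod_cast h3
  have hB8 : ((q ^ 2 * (2 * p * l) : ℤ)) % 16 = 2 := by
    have e : ((q ^ 2 * (2 * p * l) : ℤ)) = 2 * (p * l * (q * q)) := by ring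
    have e2 : ((q : ℤ) * q) % 8 = 1 := by rw [Int.mul_emod, r2]; norm_num
    have e3 : ((p : ℤ) * l * (q * q)) % 8 = 1 := by rw [Int.mul_emod, r5, e2]; norm_num
    rw [e]
    omega
  have hA8 : ((2 * q * (-2 * p) : ℤ)) % 8 = 4 := by
    have e : ((2 * q * (-2 * p) : ℤ)) = -4 * (p * q) := by ring
    rw [e]
    omega
  have h2 := two_b _ _ d m n k hA8 hB8 (not_four_dvd hd) hmn hk
  have hqb := q_b q (by omega) (-2 * p) (2 * p * l) d m n k (by
    intro h
    have h' : (q : ℤ) ∣ 2 * p := by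
      have e : (2 * p : ℤ) = -(-2 * p) := by ring
      rw [e]
      exact dvd_neg.2 h
    rcases (Nat.prime_iff_prime_int.1 hq).dvd_or_dvd h' with h | h
    · exact z5 h
    · exact z4 h) ⟨2 * p, by rw [hlq]; push_cast; ring⟩ hd hmn hk
  have hpr : ∀ r : ℕ, r.Prime → (r : ℤ) ∣ d → r = 2 ∨ r = p ∨ r = q ∨ r = l := by
    intro r hr hrd
    have hB := dvd_B _ _ d m n k hd hmn hk r (Nat.prime_iff_prime_int.1 hr) hrd
    have hB' : (r : ℤ) ∣ ((2 ^ 1 * p ^ 1 * q ^ 2 * l ^ 1 : ℕ) : ℤ) := by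
      have e : ((2 ^ 1 * p ^ 1 * q ^ 2 * l ^ 1 : ℕ) : ℤ) = q ^ 2 * (2 * p * l) := by
        push_cast
        ring
      rw [e]
      exact hB
    rcases prime_dvd_aux hr hp hq hl 1 1 2 1 (Int.natCast_dvd_natCast.1 hB') with h | h | h | h
    · exact Or.inl h
    · exact Or.inr (Or.inl h.1)
    · exact Or.inr (Or.inr (Or.inl h.1))
    · exact Or.inr (Or.inr (Or.inr h.1))
  obtain ⟨s, e, hs, he, hde⟩ := casesE d hd p q l hp hq hl hpr
  have hse : d = 1 ∨ d = 2 ∨ d = p * l ∨ d = 2 * (p * l) ∨ d = p * q ∨ d = 2 * (p * q) ∨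
      d = l * q ∨ d = 2 * (l * q) := by
    have hpl : (0 : ℤ) < p * l := by positivity
    have hpq : (0 : ℤ) < p * q := by positivity
    have hlq' : (0 : ℤ) < l * q := by positivity
    rcases he with rfl | rfl | rfl | rfl | rfl | rfl | rfl | rfl <;>
      rcases hs with rfl | rfl <;> omega
  have hc4 : c = 4 * (d * ((m : ℚ) / n) ^ 2) := by rw [← hxd]; ring
  rcases hse with rfl | rfl | rfl | rfl | rfl | rfl | rfl | rfl
  · left
    exact ⟨2 * (m / n), by rw [hc4]; push_cast; ring⟩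
  · exfalso
    have := hqb.1 z5
    apply two_nonsq q hq8 1 one_ne_zero
    simpa using this
  · exfalso
    have := hqb.1 (by
      intro h
      rcases (Nat.prime_iff_prime_int.1 hq).dvd_or_dvd h with h | h
      · exact z4 h
      · exact z6 h)
    apply two_nonsq q hq8 (p : ZMod q) z1
    convert this using 1
    push_cast
    rw [z3]
    ring
  · right; left
    exact ⟨16 * p * q * l * (m / n), by rw [hc4]; push_cast; ring⟩
  · exfalso
    have := hqb.2 p (by ring)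
    apply two_nonsq q hq8 (p : ZMod q) z1
    convert this using 1
    push_cast
    ring
  · right; right; right
    exact ⟨32 * p * q ^ 2 * l * (m / n), by rw [hc4]; push_cast; ring⟩
  · right; right; left
    exact ⟨4 * l * q * (m / n), by rw [hc4]; push_cast; ring⟩
  · exfalso
    have := hqb.2 (2 * l) (by ring)
    apply two_nonsq q hq8 (2 * (p : ZMod q)) (mul_ne_zero z2 z1)
    convert this using 1
    push_cast
    rw [z3]
    ring

end Rk1
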