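import Pool.Agent.LibRk1.Halve
import Pool.Agent.LibBH2.Family
import Pool.Agent.LibBH2.TwTools

/-!
RK14. The rational equivalence `2 z(P, P') = 0`.
-/

open WeierstrassCurve Pool.Agent.LibBH2
open scoped Classical

namespace Rk1

theorem rk14_b₂ (a b : ℚ) : (ec a b).b₂ = 4 * a := by
  simp [ec, WeierstrassCurve.b₂]

theorem rk14_b₄ (a b : ℚ) : (ec a b).b₄ = 2 * b := by
  simp [ec, WeierstrassCurve.b₄]

theorem rk14_b₆ (a b : ℚ) : (ec a b).b₆ = 0 := by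
  simp [ec, WeierstrassCurve.b₆]

theorem rk14_ell {a b : ℚ} (hb : b ≠ 0) (hD : a ^ 2 - 4 * b ≠ 0) : (ec a b).IsElliptic := by
  refine ⟨?_⟩
  rw [ec_disc, isUnit_iff_ne_zero]
  exact mul_ne_zero (mul_ne_zero (by norm_num) (pow_ne_zero 2 hb)) hD

theorem rk14_ellU {u v : ℚ} (hu : u ≠ 0) (hv : v ≠ 0) (hu' : 4 * v - u ≠ 0) :
    (ec (-(u * v)) (u * v ^ 3)).IsElliptic := by
  refine rk14_ell (mul_ne_zero hu (pow_ne_zero 3 hv)) ?_
  have : (-(u * v)) ^ 2 - 4 * (u * v ^ 3) = -(u * v ^ 2 * (4 * v - u)) := by ring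
  rw [this]
  exact neg_ne_zero.2 (mul_ne_zero (mul_ne_zero hu (pow_ne_zero 2 hv)) hu')

/-- the relation on the genus two curve, at the points `(u v, -u v²)` and `(u' v, -u' v²)`,
`u' = 4 v - u`: use `genus2_zc` with `a := u v / 2`, `m := u' v / 2`, `κ := u u' v² / 4`,
`z² = u v / 2`, `ν := u' z³ / u`. -/
theorem rel_T (u v : ℚ) (hu : u ≠ 0) (hv : v ≠ 0) (hu' : 4 * v - u ≠ 0)
    (h : (ec (-(u * v)) (u * v ^ 3)).toAffine.Nonsingular (u * v) (-(u * v ^ 2)))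
    (h' : (ec (-((4 * v - u) * v)) ((4 * v - u) * v ^ 3)).toAffine.Nonsingular
      ((4 * v - u) * v) (-((4 * v - u) * v ^ 2))) :
    2 • (zc (constPt Qb (Affine.Point.some _ _ h)) (constPt Qb (Affine.Point.some _ _ h')) :
      CH0 ((ec (-(u * v)) (u * v ^ 3))⁄Qb)
        ((ec (-((4 * v - u) * v)) ((4 * v - u) * v ^ 3))⁄Qb)) = 0 := by
  have hE₁ := rk14_ellU hu hv hu'
  have hE₂ : (ec (-((4 * v - u) * v)) ((4 * v - u) * v ^ 3)).IsElliptic :=
    rk14_ellU hu' hv (by simpa using hu)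
  set φ := algebraMap ℚ Qb with hφ
  have hinj : ∀ x : ℚ, x ≠ 0 → φ x ≠ 0 := fun x hx => by
    rw [hφ, Ne, map_eq_zero_iff _ (algebraMap ℚ Qb).injective]; exact hx
  obtain ⟨z, hz⟩ := IsAlgClosed.exists_pow_nat_eq (φ (u * v / 2)) (n := 2) (by norm_num)
  have hz0 : z ≠ 0 := by
    rintro rfl
    apply hinj (u * v / 2) (div_ne_zero (mul_ne_zero hu hv) two_ne_zero)
    rw [← hz]; ring
  have hU := hinj u hu
  have hV := hinj v hv
  have hU' := hinj _ hu'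
  have h4 : φ 4 = 4 := map_ofNat _ 4
  have h2 : φ 2 = 2 := map_ofNat _ 2
  rw [constPt_some, constPt_some]
  refine genus2_zc (W₁ := (ec (-(u * v)) (u * v ^ 3))⁄Qb)
    (W₂ := (ec (-((4 * v - u) * v)) ((4 * v - u) * v ^ 3))⁄Qb)
    (φ (u * v / 2)) (φ ((4 * v - u) * v / 2)) (φ (u * (4 * v - u) * v ^ 2 / 4))
    (φ ((4 * v - u) / u) * z ^ 3) ?_ ?_ ?_ z hz0 _ _ ?_ ?_ ?_
  · exact hinj _ (div_ne_zero (mul_ne_zero (mul_ne_zero hu hu') (pow_ne_zero 2 hv)) (by norm_num))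
  · exact mul_ne_zero (hinj _ (div_ne_zero hu' hu)) (pow_ne_zero 3 hz0)
  · intro t
    have hz6 : z ^ 6 = φ (u * v / 2) ^ 3 := by rw [← hz]; ring
    simp only [baseChange, map_b₂, map_b₄, map_b₆, rk14_b₂, rk14_b₄, rk14_b₆, ← hφ]
    have e : (φ ((4 * v - u) / u) * z ^ 3) ^ 2 = φ ((4 * v - u) / u) ^ 2 * z ^ 6 := by ring
    rw [e, hz6]
    simp only [map_div₀, map_mul, map_sub, map_neg, map_pow, map_zero, h4, h2]
    simp only [map_sub, map_mul, h4] at hU'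
    field_simp
    ring
  · rw [hz, ← map_add]; congr 1; ring
  · rw [hz, ← map_div₀, ← map_add]; congr 1; field_simp; ring
  · simp only [baseChange, ec, map_a₁, map_a₃, map_zero, zero_mul, add_zero, ← hφ]
    simp only [map_div₀, map_mul, map_sub, map_neg, map_pow, h4]
    field_simp

/-- the same for `P = (v², v³)` on both curves (translate by `(0, 0)`) -/
theorem rel_P (u v : ℚ) (hu : u ≠ 0) (hv : v ≠ 0) (hu' : 4 * v - u ≠ 0)
    (h : (ec (-(u * v)) (u * v ^ 3)).toAffine.Nonsingular (v ^ 2) (v * v ^ 2))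
    (h' : (ec (-((4 * v - u) * v)) ((4 * v - u) * v ^ 3)).toAffine.Nonsingular
      (v ^ 2) (v * v ^ 2)) :
    2 • (zc (constPt Qb (Affine.Point.some _ _ h)) (constPt Qb (Affine.Point.some _ _ h')) :
      CH0 ((ec (-(u * v)) (u * v ^ 3))⁄Qb)
        ((ec (-((4 * v - u) * v)) ((4 * v - u) * v ^ 3))⁄Qb)) = 0 := by
  have hE₁ := rk14_ellU hu hv hu'
  have hE₂ : (ec (-((4 * v - u) * v)) ((4 * v - u) * v ^ 3)).IsElliptic :=
    rk14_ellU hu' hv (by simpa using hu)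
  have key : ∀ w : ℚ, w ≠ 0 → 4 * v - w ≠ 0 →
      ∀ hP : (ec (-(w * v)) (w * v ^ 3)).toAffine.Nonsingular (v ^ 2) (v * v ^ 2),
      ∃ (T : (ec (-(w * v)) (w * v ^ 3)).toAffine.Point)
        (hR : (ec (-(w * v)) (w * v ^ 3)).toAffine.Nonsingular (w * v) (-(w * v ^ 2))),
        T + T = 0 ∧ Affine.Point.some _ _ hP + T = Affine.Point.some _ _ hR := by
    intro w hw hw' hP
    have hb : w * v ^ 3 ≠ 0 := mul_ne_zero hw (pow_ne_zero 3 hv)
    have hD : (-(w * v)) ^ 2 - 4 * (w * v ^ 3) ≠ 0 := by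
      have : (-(w * v)) ^ 2 - 4 * (w * v ^ 3) = -(w * v ^ 2 * (4 * v - w)) := by ring
      rw [this]
      exact neg_ne_zero.2 (mul_ne_zero (mul_ne_zero hw (pow_ne_zero 2 hv)) hw')
    have hT : (ec (-(w * v)) (w * v ^ 3)).toAffine.Nonsingular 0 0 :=
      ec_nonsing hb hD (by ring)
    have hR : (ec (-(w * v)) (w * v ^ 3)).toAffine.Nonsingular (w * v) (-(w * v ^ 2)) :=
      ec_nonsing hb hD (by ring)
    obtain ⟨h1, h2⟩ := add_T _ _ _ _ (pow_ne_zero 2 hv) hP hT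
    have e1 : w * v ^ 3 / v ^ 2 = w * v := by field_simp
    have e2 : -(w * v ^ 3 * (v * v ^ 2) / (v ^ 2) ^ 2) = -(w * v ^ 2) := by field_simp
    refine ⟨Affine.Point.some 0 0 hT, hR, T_add_T _ _ hT, ?_⟩
    rw [h2]
    simp only [Affine.Point.some.injEq]
    exact ⟨e1, e2⟩
  obtain ⟨T, hR, hT2, hPT⟩ := key u hu hu' h
  obtain ⟨T', hR', hT2', hPT'⟩ := key (4 * v - u) hu' (by simpa using hu) h'
  have h1 := rel_T u v hu hv hu' hR hR'
  rw [← hPT, ← hPT'] at h1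
  have c1 : ∀ (a b : ℚ) (X Y : (ec a b).toAffine.Point),
      (constPt Qb (X + Y) : ((ec a b)⁄Qb).toAffine.Point) = constPt Qb X + constPt Qb Y :=
    fun a b X Y => (constHom Qb (ec a b)).map_add X Y
  have c0 : ∀ (a b : ℚ), (constPt Qb (0 : (ec a b).toAffine.Point) :
      ((ec a b)⁄Qb).toAffine.Point) = 0 := fun a b => (constHom Qb (ec a b)).map_zero
  have hT : 2 • (constPt Qb T : ((ec (-(u * v)) (u * v ^ 3))⁄Qb).toAffine.Point) = 0 := by
    rw [two_nsmul, ← c1, hT2, c0]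
  have hT' : 2 • (constPt Qb T' :
      ((ec (-((4 * v - u) * v)) ((4 * v - u) * v ^ 3))⁄Qb).toAffine.Point) = 0 := by
    rw [two_nsmul, ← c1, hT2', c0]
  have hz : ∀ X, 2 • (zc X (constPt Qb T') :
      CH0 ((ec (-(u * v)) (u * v ^ 3))⁄Qb)
        ((ec (-((4 * v - u) * v)) ((4 * v - u) * v ^ 3))⁄Qb)) = 0 := by
    intro X
    rw [← zc_nsmul_right, hT']
    exact map_zero (zHom _ _ X)
  rw [c1, c1, zc_add_left, zc_add_right, smul_add, smul_add, hz, add_zero,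
    two_zc_of_torsion_left _ _ hT, add_zero] at h1
  exact h1

end Rk1
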