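import Mathlib

/-!
Curves `y² = x³ + a x² + b x` over the rationals and the quartic forms of their descent.
-/

open WeierstrassCurve

namespace Rk1

/-- `y² = x³ + a x² + b x` -/
def ec (a b : ℚ) : WeierstrassCurve ℚ := ⟨0, a, 0, b, 0⟩

/-- `d (d² m⁴ + A d m² n² + B n⁴)` -/
def QF (A B d m n : ℤ) : ℤ := d * (d ^ 2 * m ^ 4 + A * d * m ^ 2 * n ^ 2 + B * n ^ 4)

theorem ec_eqn (a b x y : ℚ) : (ec a b).toAffine.Equation x y ↔ y ^ 2 = x ^ 3 + a * x ^ 2 + b * x := by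
  rw [Affine.equation_iff]
  simp [ec]

theorem ec_disc (a b : ℚ) : (ec a b).Δ = 16 * b ^ 2 * (a ^ 2 - 4 * b) := by
  simp only [ec, WeierstrassCurve.Δ, WeierstrassCurve.b₂, WeierstrassCurve.b₄, WeierstrassCurve.b₆,
    WeierstrassCurve.b₈]
  ring

theorem ec_nonsing {a b : ℚ} (hb : b ≠ 0) (hD : a ^ 2 - 4 * b ≠ 0) {x y : ℚ}
    (h : y ^ 2 = x ^ 3 + a * x ^ 2 + b * x) : (ec a b).toAffine.Nonsingular x y := by
  apply (Affine.equation_iff_nonsingular_of_Δ_ne_zero (W := (ec a b)) ?_).1 ((ec_eqn a b x y).2 h)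
  rw [ec_disc]
  exact mul_ne_zero (mul_ne_zero (by norm_num) (pow_ne_zero 2 hb)) hD

theorem ec_of_nonsing {a b x y : ℚ} (h : (ec a b).toAffine.Nonsingular x y) :
    y ^ 2 = x ^ 3 + a * x ^ 2 + b * x := (ec_eqn a b x y).1 h.1

end Rk1
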