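import Pool.Agent.LibRk1.Defs

/-!
RK1. From a rational `x` with `x (x² + A x + B)` a square to an integral point of the quartic form.
-/

namespace Rk1

private lemma int_sq_mul_squarefree (z : ℤ) (hz : z ≠ 0) :
    ∃ d r : ℤ, Squarefree d ∧ r ≠ 0 ∧ z = d * r ^ 2 := by
  obtain ⟨a, b, h, ha⟩ := Nat.sq_mul_squarefree z.natAbs
  have hb : b ≠ 0 := by
    rintro rfl
    have : z.natAbs = 0 := by rw [← h]; ring
    exact hz (Int.natAbs_eq_zero.1 this)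
  have ha' : Squarefree (a : ℤ) := Int.squarefree_natCast.2 ha
  rcases Int.natAbs_eq z with h1 | h1
  · refine ⟨a, b, ha', by exact_mod_cast hb, ?_⟩
    rw [h1, ← h]; push_cast; ring
  · refine ⟨-a, b, ?_, by exact_mod_cast hb, ?_⟩
    · rw [← Int.squarefree_natAbs]
      simpa using ha
    · rw [h1, ← h]; push_cast; ring

theorem extract (A B : ℤ) (x : ℚ) (hx : x ≠ 0) (h : IsSquare (x * (x ^ 2 + A * x + B))) :
    ∃ d m n k : ℤ, Squarefree d ∧ IsCoprime m n ∧ m ≠ 0 ∧ n ≠ 0 ∧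
      x = d * ((m : ℚ) / n) ^ 2 ∧ k ^ 2 = QF A B d m n := by
  have hnum : x.num ≠ 0 := Rat.num_ne_zero.2 hx
  have hden : (x.den : ℤ) ≠ 0 := by exact_mod_cast x.den_ne_zero
  have hdenq : (x.den : ℚ) ≠ 0 := by exact_mod_cast x.den_ne_zero
  obtain ⟨d, r, hd, hr, hz⟩ := int_sq_mul_squarefree (x.num * x.den) (mul_ne_zero hnum hden)
  set y : ℚ := (r : ℚ) / x.den with hy
  have hy0 : y ≠ 0 := div_ne_zero (by exact_mod_cast hr) hdenq
  have hxy : x = d * y ^ 2 := by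
    have h1 : ((x.num * x.den : ℤ) : ℚ) = ((d * r ^ 2 : ℤ) : ℚ) := by rw [hz]
    push_cast at h1
    have h2 : x * x.den = x.num := Rat.mul_den_eq_num x
    rw [hy]
    field_simp
    rw [← h1, ← h2]
    ring
  have hm0 : (y.num : ℚ) ≠ 0 := by exact_mod_cast Rat.num_ne_zero.2 hy0
  have hn0 : (y.den : ℚ) ≠ 0 := by exact_mod_cast y.den_ne_zero
  have hyd : y = (y.num : ℚ) / ((y.den : ℤ) : ℚ) := by
    push_cast
    exact (Rat.num_div_den y).symm
  have hsq : IsSquare ((QF A B d y.num y.den : ℤ) : ℚ) := by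
    obtain ⟨s, hs⟩ := h
    refine ⟨s / (y / (y.den : ℚ) ^ 2), ?_⟩
    have h1 : x * (x ^ 2 + A * x + B) =
        (y / (y.den : ℚ) ^ 2) ^ 2 * ((QF A B d y.num y.den : ℤ) : ℚ) := by
      have h2 : y = (y.num : ℚ) / (y.den : ℚ) := (Rat.num_div_den y).symm
      rw [hxy]
      unfold QF
      push_cast
      have h3 : (y.num : ℚ) = y * y.den := (Rat.mul_den_eq_num y).symm
      rw [h3]
      field_simp
    rw [h1] at hs
    have h4 : y / (y.den : ℚ) ^ 2 ≠ 0 := div_ne_zero hy0 (pow_ne_zero 2 hn0)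
    rw [div_mul_div_comm, ← hs, ← sq]
    field_simp
  rw [Rat.isSquare_intCast_iff] at hsq
  obtain ⟨k, hk⟩ := hsq
  refine ⟨d, y.num, y.den, k, hd, ?_, ?_, ?_, ?_, ?_⟩
  · rw [Int.isCoprime_iff_gcd_eq_one]
    have := y.reduced
    rw [Int.gcd_eq_natAbs]
    simpa using this
  · exact_mod_cast hm0
  · exact_mod_cast hn0
  · rw [← hyd]; exact hxy
  · rw [hk]; ring

theorem dvd_B (A B d m n k : ℤ) (hd : Squarefree d) (hmn : IsCoprime m n)
    (h : k ^ 2 = QF A B d m n) (r : ℤ) (hr : Prime r) (hrd : r ∣ d) : r ∣ B := by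
  obtain ⟨d', rfl⟩ := hrd
  have hrd' : ¬ r ∣ d' := by
    rintro ⟨e, rfl⟩
    exact hr.not_isUnit (hd r ⟨e, by ring⟩)
  have hr0 : r ≠ 0 := hr.ne_zero
  unfold QF at h
  have hk : r ∣ k := by
    apply hr.dvd_of_dvd_pow (n := 2)
    rw [h]
    exact ⟨_, by rw [mul_assoc]⟩
  obtain ⟨k', rfl⟩ := hk
  have h1 : r * k' ^ 2 = d' * ((r * d') ^ 2 * m ^ 4 + A * (r * d') * m ^ 2 * n ^ 2 + B * n ^ 4) := by
    apply mul_left_cancel₀ hr0
    linear_combination h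
  have h2 : r ∣ d' * (B * n ^ 4) := by
    refine ⟨k' ^ 2 - d' * (r * d' ^ 2 * m ^ 4 + A * d' * m ^ 2 * n ^ 2), ?_⟩
    linear_combination -h1
  rcases hr.dvd_or_dvd h2 with h3 | h3
  · exact absurd h3 hrd'
  rcases hr.dvd_or_dvd h3 with h4 | h4
  · exact h4
  exfalso
  have hn : r ∣ n := hr.dvd_of_dvd_pow h4
  have hm : ¬ r ∣ m := fun hm => hr.not_isUnit (hmn.isUnit_of_dvd' hm hn)
  obtain ⟨n', rfl⟩ := hn
  have h5 : k' ^ 2 = r * (d' * (d' ^ 2 * m ^ 4 + r * (A * d' * m ^ 2 * n' ^ 2 +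
      B * r * n' ^ 4))) := by
    apply mul_left_cancel₀ hr0
    linear_combination h1
  have hk2 : r ∣ k' := by
    apply hr.dvd_of_dvd_pow (n := 2)
    rw [h5]
    exact dvd_mul_right _ _
  obtain ⟨k'', rfl⟩ := hk2
  have h6 : r ∣ d' * (d' ^ 2 * m ^ 4) := by
    refine ⟨k'' ^ 2 - d' * (A * d' * m ^ 2 * n' ^ 2 + B * r * n' ^ 4), ?_⟩
    apply mul_left_cancel₀ hr0
    linear_combination -h5
  rcases hr.dvd_or_dvd h6 with h7 | h7
  · exact hrd' h7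
  rcases hr.dvd_or_dvd h7 with h8 | h8
  · exact hrd' (hr.dvd_of_dvd_pow h8)
  · exact hm (hr.dvd_of_dvd_pow h8)

end Rk1
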