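import Pool.Agent.LibRk1.Defs

/-!
RK8. Halving and doubling on `y² = x³ + a x² + b x`.
-/

open WeierstrassCurve

namespace Rk1

private theorem some_congr {a b x y x' y' : ℚ} (h : (ec a b).toAffine.Nonsingular x y)
    (h' : (ec a b).toAffine.Nonsingular x' y') (hx : x = x') (hy : y = y') :
    Affine.Point.some x y h = Affine.Point.some x' y' h' := by
  subst hx hy
  rfl

private theorem some_inj' {W : WeierstrassCurve.Affine ℚ} {x y x' y' : ℚ}
    {h : W.Nonsingular x y} {h' : W.Nonsingular x' y'}
    (he : Affine.Point.some x y h = Affine.Point.some x' y' h') : x = x' ∧ y = y' := by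
  have h1 := congrArg (fun P : W.Point => match P with
    | .zero => (0, 0)
    | .some u v _ => (u, v)) he
  exact ⟨congrArg Prod.fst h1, congrArg Prod.snd h1⟩

private theorem dbl (a b x y l : ℚ) (hy : y ≠ 0) (hl : 2 * l * y = 3 * x ^ 2 + 2 * a * x + b)
    (h : (ec a b).toAffine.Nonsingular x y) :
    ∃ h' : (ec a b).toAffine.Nonsingular (l ^ 2 - a - 2 * x)
      (-(l * ((l ^ 2 - a - 2 * x) - x) + y)),
      Affine.Point.some x y h + Affine.Point.some x y h = Affine.Point.some _ _ h' := by
  have hne : y ≠ (ec a b).toAffine.negY x y := by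
    simp only [Affine.negY, ec]
    intro h1
    apply hy
    linarith
  have hs : (ec a b).toAffine.slope x x y y = l := by
    rw [Affine.slope_of_Y_ne rfl hne]
    have h2 : y - (ec a b).toAffine.negY x y = 2 * y := by
      simp only [Affine.negY, ec]
      ring
    rw [h2, div_eq_iff (mul_ne_zero two_ne_zero hy)]
    simp only [ec]
    linarith
  have hX : (ec a b).toAffine.addX x x l = l ^ 2 - a - 2 * x := by
    simp only [Affine.addX, ec]
    ring
  have hY : (ec a b).toAffine.addY x x y l = -(l * ((l ^ 2 - a - 2 * x) - x) + y) := by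
    simp only [Affine.addY, Affine.negAddY, Affine.negY, hX]
    simp only [ec]
    ring
  have h3 := Affine.Point.add_self_of_Y_ne (h₁ := h) hne
  have h4 : (ec a b).toAffine.Nonsingular ((ec a b).toAffine.addX x x l)
      ((ec a b).toAffine.addY x x y l) := by
    rw [← hs]
    exact Affine.nonsingular_add h h fun hxy => hne hxy.right
  refine ⟨by rw [← hY, ← hX]; exact h4, ?_⟩
  rw [h3]
  exact some_congr _ _ (by rw [hs, hX]) (by rw [hs, hY])

/-- If `2 s² + a + 2 w = r²` then `(s², s w)` is the double of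
`(s² + w + s r, r (s² + w + s r))`. -/
theorem halve (a b s w r : ℚ) (hb : b ≠ 0) (hD : a ^ 2 - 4 * b ≠ 0) (hs : s ≠ 0)
    (hw : w ^ 2 = s ^ 4 + a * s ^ 2 + b) (hr : r ^ 2 = 2 * s ^ 2 + a + 2 * w)
    (h : (ec a b).toAffine.Nonsingular (s ^ 2) (s * w)) :
    ∃ U : (ec a b).toAffine.Point, Affine.Point.some _ _ h = U + U := by
  have hr0 : r ≠ 0 := by
    rintro rfl
    apply hD
    linear_combination (-(2 * s ^ 2 + a - 2 * w)) * hr + 4 * hw
  have hxb : (s ^ 2 + w + s * r) * (s ^ 2 + w - s * r) = b := by
    linear_combination hw - s ^ 2 * hr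
  have hx0 : s ^ 2 + w + s * r ≠ 0 := by
    intro h0
    rw [h0, zero_mul] at hxb
    exact hb hxb.symm
  have heq : (r * (s ^ 2 + w + s * r)) ^ 2 = (s ^ 2 + w + s * r) ^ 3 +
      a * (s ^ 2 + w + s * r) ^ 2 + b * (s ^ 2 + w + s * r) := by
    linear_combination (s ^ 2 + w + s * r) ^ 2 * hr + (s ^ 2 + w + s * r) * hxb
  obtain ⟨h', h1⟩ := dbl a b (s ^ 2 + w + s * r) (r * (s ^ 2 + w + s * r)) (r + s)
    (mul_ne_zero hr0 hx0) (by
      linear_combination 2 * (s ^ 2 + w + s * r) * hr + hxb) (ec_nonsing hb hD heq)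
  refine ⟨_, Eq.trans ?_ h1.symm⟩
  refine some_congr _ _ ?_ ?_
  · linear_combination -hr
  · linear_combination (r + s) * hr

/-- Conversely, with `U = (x, y)`, `r = y / x`, `λ` the slope of the tangent, `s = λ - r`,
`w = x - s² - s r`. -/
theorem dbl_inv (a b X Y : ℚ) (hb : b ≠ 0) (hD : a ^ 2 - 4 * b ≠ 0)
    (h : (ec a b).toAffine.Nonsingular X Y) (U : (ec a b).toAffine.Point)
    (hU : Affine.Point.some X Y h = U + U) :
    ∃ s w r : ℚ, X = s ^ 2 ∧ Y = s * w ∧ w ^ 2 = s ^ 4 + a * s ^ 2 + b ∧
      r ^ 2 = 2 * s ^ 2 + a + 2 * w := by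
  rcases U with _ | ⟨x, y, hxy⟩
  · exfalso
    have h1 : (Affine.Point.zero : (ec a b).toAffine.Point) = 0 := rfl
    rw [h1, add_zero] at hU
    exact Affine.Point.some_ne_zero h hU
  · have heq := ec_of_nonsing hxy
    by_cases hy : y = 0
    · exfalso
      have h1 : y = (ec a b).toAffine.negY x y := by
        simp only [Affine.negY, ec, hy]
        ring
      rw [Affine.Point.add_self_of_Y_eq h1] at hU
      exact Affine.Point.some_ne_zero h hU
    · have hx : x ≠ 0 := by
        rintro rfl
        apply hy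
        have : y ^ 2 = 0 := by rw [heq]; ring
        exact pow_eq_zero_iff two_ne_zero |>.1 this
      obtain ⟨l, hly⟩ : ∃ l, 2 * l * y = 3 * x ^ 2 + 2 * a * x + b :=
        ⟨(3 * x ^ 2 + 2 * a * x + b) / (2 * y), by field_simp⟩
      obtain ⟨h', h1⟩ := dbl a b x y l hy hly hxy
      have hXY := some_inj' (hU.trans h1)
      have hX := hXY.1
      have hY := hXY.2
      obtain ⟨r, hr⟩ : ∃ r, y = r * x := ⟨y / x, by field_simp⟩
      have e1 : r ^ 2 * x = x ^ 2 + a * x + b := by
        apply mul_right_cancel₀ hx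
        rw [hr] at heq
        linear_combination heq
      have e2 : 2 * l * r = a + 2 * x + r ^ 2 := by
        apply mul_right_cancel₀ hx
        rw [hr] at hly
        linear_combination hly - e1
      have ea : a = r ^ 2 + 2 * (l - r) * r - 2 * x := by linear_combination -e2
      have eb : b = x ^ 2 - 2 * (l - r) * r * x := by
        linear_combination -e1 + x * e2
      refine ⟨l - r, x - (l - r) ^ 2 - (l - r) * r, r, ?_, ?_, ?_, ?_⟩
      · rw [hX]
        linear_combination e2
      · rw [hY, hr]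
        linear_combination -l * e2
      · rw [eb]
        linear_combination (-(l - r) ^ 2) * ea
      · linear_combination -ea

/-- translation by `T = (0, 0)` -/
theorem add_T (a b x y : ℚ) (hx : x ≠ 0) (h : (ec a b).toAffine.Nonsingular x y)
    (hT : (ec a b).toAffine.Nonsingular 0 0) :
    ∃ h' : (ec a b).toAffine.Nonsingular (b / x) (-(b * y / x ^ 2)),
      Affine.Point.some x y h + Affine.Point.some 0 0 hT = Affine.Point.some _ _ h' := by
  have heq := ec_of_nonsing h
  have h3 := Affine.Point.add_of_X_ne (h₁ := h) (h₂ := hT) hx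
  have hs : (ec a b).toAffine.slope x 0 y 0 = y / x := by
    rw [Affine.slope_of_X_ne hx, sub_zero, sub_zero]
  have hX : (ec a b).toAffine.addX x 0 ((ec a b).toAffine.slope x 0 y 0) = b / x := by
    rw [hs]
    simp only [Affine.addX, ec]
    field_simp
    linear_combination heq
  have hY : (ec a b).toAffine.addY x 0 y ((ec a b).toAffine.slope x 0 y 0) =
      -(b * y / x ^ 2) := by
    simp only [Affine.addY, Affine.negAddY, Affine.negY, hX]
    rw [hs]
    simp only [ec]
    field_simp
    ring
  have h4 : (ec a b).toAffine.Nonsingular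
      ((ec a b).toAffine.addX x 0 ((ec a b).toAffine.slope x 0 y 0))
      ((ec a b).toAffine.addY x 0 y ((ec a b).toAffine.slope x 0 y 0)) :=
    Affine.nonsingular_add h hT fun hxy => hx hxy.left
  have h5 := h4
  rw [hX, hY] at h5
  refine ⟨h5, ?_⟩
  rw [h3]
  exact some_congr _ _ hX hY

/-- `T` has order two -/
theorem T_add_T (a b : ℚ) (hT : (ec a b).toAffine.Nonsingular 0 0) :
    (Affine.Point.some 0 0 hT : (ec a b).toAffine.Point) + Affine.Point.some 0 0 hT = 0 := by
  apply Affine.Point.add_self_of_Y_eq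
  simp [Affine.negY, ec]

/-- the points of order two, when `a² - 4 b` is not a square -/
theorem two_tors (a b : ℚ) (hD : ¬ IsSquare (a ^ 2 - 4 * b))
    (hT : (ec a b).toAffine.Nonsingular 0 0) (U : (ec a b).toAffine.Point) (hU : U + U = 0) :
    U = 0 ∨ U = Affine.Point.some 0 0 hT := by
  rcases U with _ | ⟨x, y, hxy⟩
  · exact Or.inl rfl
  · right
    have heq := ec_of_nonsing hxy
    have hy : y = 0 := by
      by_contra hy
      obtain ⟨h', h1⟩ := dbl a b x y ((3 * x ^ 2 + 2 * a * x + b) / (2 * y)) hy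
        (by field_simp) hxy
      rw [h1] at hU
      exact Affine.Point.some_ne_zero h' hU
    have hx : x = 0 := by
      by_contra hx
      apply hD
      rw [hy] at heq
      have h2 : x ^ 2 + a * x + b = 0 := by
        apply mul_right_cancel₀ hx
        linear_combination -heq
      exact ⟨2 * x + a, by linear_combination -4 * h2⟩
    exact some_congr _ _ hx hy

end Rk1
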