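import Pool.Agent.LibRk1.Defs

/-!
RK9. The chord through `(s₁², s₁ w₁)` and `(s₂², s₂ w₂)`: the third point.
-/

open WeierstrassCurve

namespace Rk1

private theorem key (a b s₁ w₁ s₂ w₂ L : ℚ) (hne : s₁ ^ 2 - s₂ ^ 2 ≠ 0)
    (h₁ : w₁ ^ 2 = s₁ ^ 4 + a * s₁ ^ 2 + b) (h₂ : w₂ ^ 2 = s₂ ^ 4 + a * s₂ ^ 2 + b)
    (hL : L * (s₁ ^ 2 - s₂ ^ 2) = s₁ * w₁ - s₂ * w₂)
    (K A₁ A₂ M N : ℚ) (hK : K = s₁ * w₁ - L * s₁ ^ 2) (hA₁ : A₁ = s₁ ^ 2 + w₁ + a)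
    (hA₂ : A₂ = s₂ ^ 2 + w₂ + a)
    (hM : M = K * (A₁ * A₂ - b) - b * L * (A₁ + A₂ - a))
    (hN : N = K * (A₁ + A₂ - a) + L * (A₁ * A₂ - b) - a * L * (A₁ + A₂ - a)) :
    M ^ 2 - b * N ^ 2 = (L ^ 2 - a - s₁ ^ 2 - s₂ ^ 2) * (w₁ ^ 2 * w₂ ^ 2 *
      ((2 * s₁ ^ 2 + a + 2 * w₁) * (2 * s₂ ^ 2 + a + 2 * w₂))) ∧
    2 * M * N - a * N ^ 2 = - (w₁ ^ 2 * w₂ ^ 2 *
      ((2 * s₁ ^ 2 + a + 2 * w₁) * (2 * s₂ ^ 2 + a + 2 * w₂))) := by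
  have ha : a = (w₁ ^ 2 - w₂ ^ 2) / (s₁ ^ 2 - s₂ ^ 2) - (s₁ ^ 2 + s₂ ^ 2) := by
    field_simp
    linear_combination h₂ - h₁
  have hb : b = w₁ ^ 2 - s₁ ^ 4 - a * s₁ ^ 2 := by linear_combination - h₁
  have hL' : L = (s₁ * w₁ - s₂ * w₂) / (s₁ ^ 2 - s₂ ^ 2) := by
    field_simp
    exact hL
  rw [hL'] at hK hM hN
  rw [hL']
  subst hK hA₁ hA₂
  subst hM hN
  subst hb
  rw [ha]
  constructor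
  · field_simp
    ring
  · field_simp
    ring

/-- If `(2 s₁² + a + 2 w₁) (2 s₂² + a + 2 w₂)` is a square, then the sum `(x₃, y₃)` of
`(s₁², s₁ w₁)` and `(s₂², s₂ w₂)` is of the form `(s², s w)` with `2 s² + a + 2 w` a square.
Proof: let `θ² + a θ + b = 0`, `c_i = 2 s_i² + a + 2 w_i`. Then
`(x_i - θ) c_i = (x_i - θ + w_i)²` and `(x₁ - θ) (x₂ - θ) (x₃ - θ) = (y₁ + L (θ - x₁))²`, so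
`x₃ - θ = (m + n θ)²` with rational `m, n`, i.e. `m² - b n² = x₃` and `2 m n - a n² = -1`.
Put `w = m² - a m n + b n²`; then `w² = x₃² + a x₃ + b` and `2 x₃ + a + 2 w = (2 m - a n)²`.
Also `x₃` is a square by the same identity with `θ` replaced by `0`. -/
theorem kpart (a b : ℚ) (hD : ¬ IsSquare (a ^ 2 - 4 * b)) (hb : b ≠ 0)
    (s₁ w₁ s₂ w₂ g : ℚ) (hs₁ : s₁ ≠ 0) (hs₂ : s₂ ≠ 0) (hne : s₁ ^ 2 ≠ s₂ ^ 2)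
    (h₁ : w₁ ^ 2 = s₁ ^ 4 + a * s₁ ^ 2 + b) (h₂ : w₂ ^ 2 = s₂ ^ 4 + a * s₂ ^ 2 + b)
    (hg : (2 * s₁ ^ 2 + a + 2 * w₁) * (2 * s₂ ^ 2 + a + 2 * w₂) = g ^ 2)
    (L x₃ y₃ : ℚ) (hL : L = (s₁ * w₁ - s₂ * w₂) / (s₁ ^ 2 - s₂ ^ 2))
    (hx₃ : x₃ = L ^ 2 - a - s₁ ^ 2 - s₂ ^ 2) (hy₃ : y₃ = -(s₁ * w₁ + L * (x₃ - s₁ ^ 2))) :
    ∃ s w r : ℚ, x₃ = s ^ 2 ∧ y₃ = s * w ∧ w ^ 2 = s ^ 4 + a * s ^ 2 + b ∧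
      r ^ 2 = 2 * s ^ 2 + a + 2 * w := by
  have hd : s₁ ^ 2 - s₂ ^ 2 ≠ 0 := sub_ne_zero.2 hne
  have hL1 : L * (s₁ ^ 2 - s₂ ^ 2) = s₁ * w₁ - s₂ * w₂ := by
    rw [hL]; field_simp
  -- nonvanishing
  have hw : ∀ s w : ℚ, w ^ 2 = s ^ 4 + a * s ^ 2 + b → w ≠ 0 := by
    rintro s w h rfl
    apply hD
    exact ⟨2 * s ^ 2 + a, by linear_combination 4 * h⟩
  have hc : ∀ s w : ℚ, w ^ 2 = s ^ 4 + a * s ^ 2 + b → 2 * s ^ 2 + a + 2 * w ≠ 0 := by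
    intro s w h h0
    apply hD
    refine ⟨0, ?_⟩
    linear_combination 4 * h + (2 * s ^ 2 + a - 2 * w) * h0
  have hw₁ := hw _ _ h₁
  have hw₂ := hw _ _ h₂
  have hg0 : g ≠ 0 := by
    rintro rfl
    have := mul_ne_zero (hc _ _ h₁) (hc _ _ h₂)
    apply this
    rw [hg]; norm_num
  obtain ⟨K, hK⟩ : ∃ K : ℚ, K = s₁ * w₁ - L * s₁ ^ 2 := ⟨_, rfl⟩
  obtain ⟨A₁, hA₁⟩ : ∃ A : ℚ, A = s₁ ^ 2 + w₁ + a := ⟨_, rfl⟩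
  obtain ⟨A₂, hA₂⟩ : ∃ A : ℚ, A = s₂ ^ 2 + w₂ + a := ⟨_, rfl⟩
  obtain ⟨M, hM⟩ : ∃ M : ℚ, M = K * (A₁ * A₂ - b) - b * L * (A₁ + A₂ - a) := ⟨_, rfl⟩
  obtain ⟨N, hN⟩ : ∃ N : ℚ, N = K * (A₁ + A₂ - a) + L * (A₁ * A₂ - b) - a * L * (A₁ + A₂ - a) :=
    ⟨_, rfl⟩
  obtain ⟨k1, k2⟩ := key a b s₁ w₁ s₂ w₂ L hd h₁ h₂ hL1 K A₁ A₂ M N hK hA₁ hA₂ hM hN
  rw [hg, ← hx₃] at k1
  rw [hg] at k2
  obtain ⟨m, hm⟩ : ∃ m : ℚ, m = M / (w₁ * w₂ * g) := ⟨_, rfl⟩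
  obtain ⟨n, hn⟩ : ∃ n : ℚ, n = N / (w₁ * w₂ * g) := ⟨_, rfl⟩
  have e1 : m ^ 2 - b * n ^ 2 = x₃ := by
    rw [hm, hn]
    field_simp
    linear_combination k1
  have e2 : 2 * m * n - a * n ^ 2 = -1 := by
    rw [hm, hn]
    field_simp
    linear_combination k2
  -- `x₃` is a square
  have e3 : x₃ * (s₁ * s₂) ^ 2 = K ^ 2 := by
    have ha : a * (s₁ ^ 2 - s₂ ^ 2) = (w₁ ^ 2 - w₂ ^ 2) - (s₁ ^ 2 + s₂ ^ 2) * (s₁ ^ 2 - s₂ ^ 2) := by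
      linear_combination h₂ - h₁
    have hK2 : K * (s₁ ^ 2 - s₂ ^ 2) = s₁ * s₂ * (s₁ * w₂ - s₂ * w₁) := by
      rw [hK]
      linear_combination -s₁ ^ 2 * hL1
    have : (x₃ * (s₁ * s₂) ^ 2 - K ^ 2) * (s₁ ^ 2 - s₂ ^ 2) ^ 2 = 0 := by
      have t1 : K ^ 2 * (s₁ ^ 2 - s₂ ^ 2) ^ 2 = (s₁ * s₂ * (s₁ * w₂ - s₂ * w₁)) ^ 2 := by
        rw [← hK2]; ring
      have t2 : L ^ 2 * (s₁ ^ 2 - s₂ ^ 2) ^ 2 = (s₁ * w₁ - s₂ * w₂) ^ 2 := by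
        rw [← hL1]; ring
      rw [hx₃]
      linear_combination (s₁ * s₂) ^ 2 * t2 - t1 - (s₁ * s₂) ^ 2 * (s₁ ^ 2 - s₂ ^ 2) * ha
    rcases mul_eq_zero.1 this with h | h
    · linear_combination h
    · exact absurd h (pow_ne_zero 2 hd)
  have hx3s : x₃ = (K / (s₁ * s₂)) ^ 2 := by
    field_simp
    linear_combination e3
  obtain ⟨w, hwd⟩ : ∃ w : ℚ, w = m ^ 2 - a * m * n + b * n ^ 2 := ⟨_, rfl⟩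
  have hw2 : w ^ 2 = x₃ ^ 2 + a * x₃ + b := by
    rw [hwd, ← e1]
    linear_combination (-a * (m ^ 2 - b * n ^ 2) + b * (2 * m * n - a * n ^ 2 - 1)) * e2
  have hr : (2 * m - a * n) ^ 2 = 2 * x₃ + a + 2 * w := by
    rw [hwd, ← e1]
    linear_combination -a * e2
  have hy2 : y₃ ^ 2 = x₃ * w ^ 2 := by
    rw [hw2]
    have hd0 : (y₃ ^ 2 - x₃ * (x₃ ^ 2 + a * x₃ + b)) * (s₁ ^ 2 - s₂ ^ 2) = 0 := by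
      have hy : y₃ = -(s₁ * w₁ + L * (x₃ - s₁ ^ 2)) := hy₃
      have hL2 : L ^ 2 = x₃ + a + s₁ ^ 2 + s₂ ^ 2 := by rw [hx₃]; ring
      -- f(x) - (y₁ + L (x - x₁))² = (x - x₁) (x - x₂) (x - x₃)
      rw [hy]
      linear_combination ((s₁ ^ 2 - s₂ ^ 2) + (x₃ - s₁ ^ 2)) * s₁ ^ 2 * h₁ +
        (x₃ - s₁ ^ 2) * ((s₁ ^ 2 - s₂ ^ 2) * (x₃ - s₁ ^ 2) + (s₁ ^ 2 - s₂ ^ 2) ^ 2) * hL2 -
        (x₃ - s₁ ^ 2) * (L * (s₁ ^ 2 - s₂ ^ 2) - s₁ * w₁ - s₂ * w₂) * hL1 -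
        (x₃ - s₁ ^ 2) * s₂ ^ 2 * h₂
    rcases mul_eq_zero.1 hd0 with h | h
    · linear_combination h
    · exact absurd h hd
  have hy3 : y₃ ^ 2 = (K / (s₁ * s₂) * w) ^ 2 := by
    rw [hy2, hx3s]; ring
  rcases sq_eq_sq_iff_eq_or_eq_neg.1 hy3 with h | h
  · refine ⟨K / (s₁ * s₂), w, 2 * m - a * n, hx3s, h, ?_, ?_⟩
    · rw [hw2, hx3s]; ring
    · rw [hr, hx3s]
  · refine ⟨-(K / (s₁ * s₂)), w, 2 * m - a * n, ?_, ?_, ?_, ?_⟩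
    · rw [hx3s]; ring
    · rw [h]; ring
    · rw [hw2, hx3s]; ring
    · rw [hr, hx3s]; ring

/-- addition of two points with distinct `x`-coordinates -/
theorem add_chord (a b x₁ y₁ x₂ y₂ : ℚ) (hne : x₁ ≠ x₂)
    (h₁ : (ec a b).toAffine.Nonsingular x₁ y₁) (h₂ : (ec a b).toAffine.Nonsingular x₂ y₂) :
    ∃ (L x₃ y₃ : ℚ) (h₃ : (ec a b).toAffine.Nonsingular x₃ y₃),
      L = (y₁ - y₂) / (x₁ - x₂) ∧ x₃ = L ^ 2 - a - x₁ - x₂ ∧ y₃ = -(y₁ + L * (x₃ - x₁)) ∧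
      Affine.Point.some x₁ y₁ h₁ + Affine.Point.some x₂ y₂ h₂ = Affine.Point.some x₃ y₃ h₃ := by
  refine ⟨(ec a b).toAffine.slope x₁ x₂ y₁ y₂, _, _,
    Affine.nonsingular_add h₁ h₂ fun hxy => hne hxy.left,
    Affine.slope_of_X_ne hne, ?_, ?_, Affine.Point.add_of_X_ne hne⟩
  · simp [Affine.addX, ec]
  · simp [Affine.addY, Affine.negAddY, Affine.negY, ec]
    ring

end Rk1
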