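import Mathlib

/-!
RK12. Pure group theory.
-/

namespace Rk1

theorem rank_one {G : Type*} [AddCommGroup G] (P T : G) (hP : ¬ IsOfFinAddOrder P)
    (hT : T + T = 0) (h : ∀ R : G, ∃ N : ℕ, 0 < N ∧ N • R ∈ AddSubgroup.closure {P, T}) :
    Module.finrank ℤ G = 1 := by
  have hP' : ∀ n : ℤ, n • P = 0 → n = 0 := by
    intro n hn
    by_contra h0
    exact hP ((isOfFinAddOrder_iff_zsmul_eq_zero).mpr ⟨n, h0, hn⟩)
  have h' : ∀ R : G, ∃ (n i : ℤ), n ≠ 0 ∧ n • R = i • P := by
    intro R
    obtain ⟨N, hN, hR⟩ := h R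
    obtain ⟨i, j, hij⟩ := AddSubgroup.mem_closure_pair.mp hR
    refine ⟨2 * N, 2 * i, by positivity, ?_⟩
    have h1 : (2 * (N : ℤ)) • R = (2 : ℤ) • (N • R) := by
      rw [mul_smul, natCast_zsmul]
    rw [h1, ← hij, smul_add, mul_smul, smul_comm (2 : ℤ) j T, two_zsmul T, hT, smul_zero, add_zero]
  apply Module.finrank_eq_of_rank_eq
  apply le_antisymm
  · refine rank_le ?_
    intro s hs
    by_contra hc
    push Not at hc
    obtain ⟨x, hx, y, hy, hxy⟩ := Finset.one_lt_card.mp hc
    obtain ⟨n, i, hn, hni⟩ := h' x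
    obtain ⟨m, j, hm, hmj⟩ := h' y
    have hpair : LinearIndependent ℤ ![x, y] := by
      have h2 := hs.comp (![⟨x, hx⟩, ⟨y, hy⟩] : Fin 2 → s) (by
        intro a b hab
        fin_cases a <;> fin_cases b <;> simp_all [Subtype.ext_iff])
      convert h2 using 1
      funext a
      fin_cases a <;> rfl
    rw [LinearIndependent.pair_iff] at hpair
    by_cases hi : i = 0
    · have := hpair n 0 (by rw [hni, hi, zero_smul, zero_smul, add_zero])
      exact hn this.1
    · have := hpair (j * n) (-(i * m)) (by
        rw [mul_smul, hni, neg_smul, mul_smul, hmj, smul_comm j i P]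
        abel)
      have h3 := this.2
      rw [neg_eq_zero] at h3
      exact (mul_ne_zero hi hm) h3
  · have hl : LinearIndependent ℤ (fun _ : PUnit => P) := by
      rw [linearIndependent_iff']
      intro s g hg i hi
      have h1 : s = {PUnit.unit} := by
        ext a
        constructor
        · intro _; simp
        · intro _
          cases a
          cases i
          exact hi
      rw [h1, Finset.sum_singleton] at hg
      cases i
      exact hP' _ hg
    have := hl.cardinal_le_rank
    simpa using this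

/-- if `G = 2 G + ⟨P, T⟩` and `G` is finitely generated then an odd multiple of every element is
in `⟨P, T⟩` -/
theorem odd_mult {G : Type*} [AddCommGroup G] [AddGroup.FG G] (P T : G)
    (h : ∀ R : G, ∃ (U : G) (i j : ℤ), R = U + U + i • P + j • T) (R : G) :
    ∃ N : ℕ, 0 < N ∧ N • R ∈ AddSubgroup.closure {P, T} := by
  set H : AddSubgroup G := AddSubgroup.closure {P, T} with hH
  have hfg : AddGroup.FG (G ⧸ H) := QuotientAddGroup.fg H
  have hfin : Module.Finite ℤ (G ⧸ H) := Module.Finite.iff_addGroup_fg.mpr hfg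
  obtain ⟨r, hr, hr'⟩ := Submodule.exists_sub_one_mem_and_smul_eq_zero_of_fg_of_le_smul
    (Ideal.span {(2 : ℤ)}) (⊤ : Submodule ℤ (G ⧸ H)) hfin.fg_top (by
      intro x _
      obtain ⟨y, rfl⟩ := QuotientAddGroup.mk_surjective x
      obtain ⟨U, i, j, hU⟩ := h y
      have h1 : ((i • P + j • T : G) : G ⧸ H) = 0 := by
        rw [QuotientAddGroup.eq_zero_iff]
        exact AddSubgroup.mem_closure_pair.mpr ⟨i, j, rfl⟩
      have h2 : ((y : G) : G ⧸ H) = (2 : ℤ) • ((U : G) : G ⧸ H) := by
        have h3 : y = (U + U) + (i • P + j • T) := by rw [hU]; abel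
        rw [h3, QuotientAddGroup.mk_add, h1, add_zero, QuotientAddGroup.mk_add, two_zsmul]
      rw [h2]
      exact Submodule.smul_mem_smul (Ideal.mem_span_singleton_self _) Submodule.mem_top)
  have hr0 : r ≠ 0 := by
    rintro rfl
    rw [zero_sub, Ideal.mem_span_singleton] at hr
    omega
  refine ⟨r.natAbs, Int.natAbs_pos.mpr hr0, ?_⟩
  have h1 := hr' ((R : G) : G ⧸ H) Submodule.mem_top
  rw [← QuotientAddGroup.mk_zsmul, QuotientAddGroup.eq_zero_iff] at h1
  rcases Int.natAbs_eq r with h2 | h2
  · rw [h2, natCast_zsmul] at h1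
    exact h1
  · rw [h2, neg_smul, natCast_zsmul] at h1
    exact (neg_mem_iff).mp h1

/-- a finitely generated abelian group generated by torsion elements `f R S`, `f` bilinear -/
theorem finite_of_bilin {G₁ G₂ M : Type*} [AddCommGroup G₁] [AddCommGroup G₂] [AddCommGroup M]
    [AddGroup.FG G₁] [AddGroup.FG G₂] (f : G₁ →+ G₂ →+ M)
    (h : ∀ R S, IsOfFinAddOrder (f R S)) :
    (AddSubgroup.closure {c : M | ∃ R S, c = f R S} : Set M).Finite := by
  classical
  obtain ⟨A, hA⟩ := (AddGroup.fg_def.mp (inferInstance : AddGroup.FG G₁))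
  obtain ⟨B, hB⟩ := (AddGroup.fg_def.mp (inferInstance : AddGroup.FG G₂))
  set C : AddSubgroup M := AddSubgroup.closure {c : M | ∃ R S, c = f R S} with hC
  set F : Finset M := Finset.image₂ (fun a b => f a b) A B with hF
  have hle : C ≤ AddSubgroup.closure (F : Set M) := by
    rw [hC, AddSubgroup.closure_le]
    rintro _ ⟨R, S, rfl⟩
    have hR : R ∈ AddSubgroup.closure (A : Set G₁) := by rw [hA]; trivial
    have hS : S ∈ AddSubgroup.closure (B : Set G₂) := by rw [hB]; trivial
    show f R S ∈ AddSubgroup.closure (F : Set M)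
    induction hR using AddSubgroup.closure_induction with
    | mem a ha =>
      induction hS using AddSubgroup.closure_induction with
      | mem b hb =>
        apply AddSubgroup.subset_closure
        rw [hF, Finset.mem_coe, Finset.mem_image₂]
        exact ⟨a, ha, b, hb, rfl⟩
      | zero => rw [map_zero]; exact zero_mem _
      | add x y _ _ hx hy => rw [map_add]; exact add_mem hx hy
      | neg x _ hx => rw [map_neg]; exact neg_mem hx
    | zero => rw [map_zero, AddMonoidHom.zero_apply]; exact zero_mem _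
    | add x y _ _ hx hy => rw [map_add, AddMonoidHom.add_apply]; exact add_mem hx hy
    | neg x _ hx => rw [map_neg, AddMonoidHom.neg_apply]; exact neg_mem hx
  have hle2 : AddSubgroup.closure (F : Set M) ≤ C := by
    rw [AddSubgroup.closure_le]
    intro c hc
    rw [hF, Finset.mem_coe, Finset.mem_image₂] at hc
    obtain ⟨a, _, b, _, rfl⟩ := hc
    exact AddSubgroup.subset_closure ⟨a, b, rfl⟩
  have hCF : C = AddSubgroup.closure (F : Set M) := le_antisymm hle hle2
  have hfg : AddGroup.FG C := by
    rw [AddGroup.fg_iff_addSubgroup_fg]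
    exact ⟨F, hCF.symm⟩
  have htor : IsAddTorsion C := by
    rintro ⟨x, hx⟩
    have h1 : IsOfFinAddOrder x := by
      rw [hC] at hx
      induction hx using AddSubgroup.closure_induction with
      | mem a ha =>
        obtain ⟨R, S, rfl⟩ := ha
        exact h R S
      | zero => exact IsOfFinAddOrder.zero
      | add x y _ _ hx hy => exact hx.add hy
      | neg x _ hx => exact hx.neg
    rw [isOfFinAddOrder_iff_nsmul_eq_zero] at h1 ⊢
    obtain ⟨n, hn, h2⟩ := h1
    exact ⟨n, hn, Subtype.ext h2⟩
  have hfin : Finite C := AddCommGroup.finite_of_fg_isAddTorsion C htor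
  exact Set.toFinite _

end Rk1
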