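import Pool.Agent.LibRk1.Halve
import Pool.Agent.LibRk1.KPart

/-!
RK10. The descent step.
-/

open WeierstrassCurve

namespace Rk1

theorem Step_halve (a b s w : ℚ) (hb : b ≠ 0) (hD : a ^ 2 - 4 * b ≠ 0) (hs : s ≠ 0)
    (hw : w ^ 2 = s ^ 4 + a * s ^ 2 + b) (hr : IsSquare (2 * s ^ 2 + a + 2 * w)) (X Y : ℚ)
    (h : (ec a b).toAffine.Nonsingular X Y) (hX : X = s ^ 2) (hY : Y = s * w) :
    ∃ U : (ec a b).toAffine.Point, Affine.Point.some X Y h = U + U := by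
  subst hX hY
  obtain ⟨r, hr⟩ := hr
  exact halve a b s w r hb hD hs hw (by rw [hr]; ring) h

theorem Step_core (a b s w : ℚ) (hb : b ≠ 0) (hbs : ¬ IsSquare b) (hD : ¬ IsSquare (a ^ 2 - 4 * b))
    (hs : s ≠ 0) (hw : w ^ 2 = s ^ 4 + a * s ^ 2 + b)
    (hP : (ec a b).toAffine.Nonsingular (s ^ 2) (s * w)) (s1 w1 : ℚ) (hs1 : s1 ≠ 0)
    (hw1 : w1 ^ 2 = s1 ^ 4 + a * s1 ^ 2 + b)
    (hc : IsSquare ((2 * s ^ 2 + a + 2 * w) * (2 * s1 ^ 2 + a + 2 * w1)))
    (X Y : ℚ) (h : (ec a b).toAffine.Nonsingular X Y) (hX : X = s1 ^ 2) (hY : Y = s1 * w1) :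
    ∃ (U : (ec a b).toAffine.Point) (i : ℤ),
      Affine.Point.some X Y h = U + U + i • Affine.Point.some _ _ hP := by
  subst hX hY
  have hD0 : a ^ 2 - 4 * b ≠ 0 := by
    intro h
    exact hD (by rw [h]; exact ⟨0, by ring⟩)
  by_cases hne : s1 ^ 2 = s ^ 2
  · -- same `x`-coordinate
    have h5 : (s1 * w1 - s * w) * (s1 * w1 + s * w) = 0 := by
      have : s1 ^ 2 * w1 ^ 2 - s ^ 2 * w ^ 2 = 0 := by
        rw [hw1, hw]
        linear_combination (s1 ^ 4 + s1 ^ 2 * s ^ 2 + s ^ 4 + a * s1 ^ 2 + a * s ^ 2 + b) * hne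
      linear_combination this
    rcases mul_eq_zero.mp h5 with h6 | h6
    · refine ⟨0, 1, ?_⟩
      rw [add_zero, zero_add, one_smul]
      have h7 : s1 * w1 = s * w := by linear_combination h6
      simp only [hne, h7]
    · refine ⟨0, -1, ?_⟩
      rw [add_zero, zero_add, neg_smul, one_smul, Affine.Point.neg_some]
      have h7 : s1 * w1 = (ec a b).toAffine.negY (s ^ 2) (s * w) := by
        simp only [Affine.negY, ec]
        linear_combination h6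
      simp only [hne, h7]
  · -- the chord
    have hnP : (ec a b).toAffine.Nonsingular (s ^ 2) (-(s * w)) := by
      apply ec_nonsing hb hD0
      have := ec_of_nonsing hP
      linear_combination this
    have hneg : -(Affine.Point.some _ _ hP : (ec a b).toAffine.Point) =
        Affine.Point.some _ _ hnP := by
      rw [Affine.Point.neg_some]
      have h7 : (ec a b).toAffine.negY (s ^ 2) (s * w) = -(s * w) := by
        simp only [Affine.negY, ec]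
        ring
      simp only [h7]
    obtain ⟨L, x₃, y₃, h₃, hL, hx₃, hy₃, hsum⟩ :=
      add_chord a b (s1 ^ 2) (s1 * w1) (s ^ 2) (-(s * w)) hne h hnP
    obtain ⟨g, hg⟩ := hc
    obtain ⟨s', w', r, h1, h2, h3, h4⟩ := kpart a b hD hb s1 w1 (-s) w g hs1 (neg_ne_zero.mpr hs)
      (by rw [neg_sq]; exact hne) hw1 (by rw [hw]; ring) (by
        rw [neg_sq]; linear_combination hg) L x₃ y₃
      (by rw [hL]; congr 1 <;> ring) (by rw [hx₃]; ring) hy₃
    have hR : (Affine.Point.some _ _ h : (ec a b).toAffine.Point) =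
        Affine.Point.some _ _ h₃ + Affine.Point.some _ _ hP := by
      rw [← hsum, ← hneg]
      abel
    by_cases hs0 : s' = 0
    · exfalso
      apply hbs
      rw [hs0] at h3
      exact ⟨w', by linear_combination -h3⟩
    · obtain ⟨U, hU⟩ := Step_halve a b s' w' hb hD0 hs0 h3 ⟨r, by rw [← h4]; ring⟩ _ _ h₃ h1 h2
      refine ⟨U, 1, ?_⟩
      rw [one_smul, hR, hU]

theorem Step_main (a b s w : ℚ) (hb : b ≠ 0) (hbs : ¬ IsSquare b) (hD : ¬ IsSquare (a ^ 2 - 4 * b))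
    (hs : s ≠ 0) (hw : w ^ 2 = s ^ 4 + a * s ^ 2 + b)
    (hB : ∀ c z : ℚ, c ≠ 0 → z ^ 2 = c * (c ^ 2 - 2 * a * c + (a ^ 2 - 4 * b)) →
      IsSquare c ∨ IsSquare ((a ^ 2 - 4 * b) * c) ∨ IsSquare ((2 * s ^ 2 + a + 2 * w) * c) ∨
        IsSquare ((2 * s ^ 2 + a + 2 * w) * (a ^ 2 - 4 * b) * c))
    (hP : (ec a b).toAffine.Nonsingular (s ^ 2) (s * w))
    (X Y : ℚ) (h : (ec a b).toAffine.Nonsingular X Y) (hX0 : X ≠ 0) (hX : IsSquare X) :
    ∃ (U : (ec a b).toAffine.Point) (i : ℤ),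
      Affine.Point.some X Y h = U + U + i • Affine.Point.some _ _ hP := by
  have hD0 : a ^ 2 - 4 * b ≠ 0 := by
    intro h
    exact hD (by rw [h]; exact ⟨0, by ring⟩)
  obtain ⟨s1, hs1X⟩ := hX
  have hs1 : s1 ≠ 0 := by
    rintro rfl
    exact hX0 (by rw [hs1X]; ring)
  have hX2 : X = s1 ^ 2 := by rw [hs1X]; ring
  set w1 := Y / s1 with hw1def
  have hY : Y = s1 * w1 := by rw [hw1def]; field_simp
  have hw1 : w1 ^ 2 = s1 ^ 4 + a * s1 ^ 2 + b := by
    have h1 := ec_of_nonsing h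
    rw [hX2, hY] at h1
    have h2 : s1 ^ 2 ≠ 0 := pow_ne_zero 2 hs1
    apply mul_left_cancel₀ h2
    linear_combination h1
  set c1 := 2 * s1 ^ 2 + a + 2 * w1 with hc1
  have hcc : c1 * (2 * s1 ^ 2 + a - 2 * w1) = a ^ 2 - 4 * b := by
    rw [hc1]
    linear_combination (-4 : ℚ) * hw1
  have hc10 : c1 ≠ 0 := by
    intro h0
    rw [h0, zero_mul] at hcc
    exact hD0 hcc.symm
  have hc' : 2 * s1 ^ 2 + a - 2 * w1 = (a ^ 2 - 4 * b) / c1 := by
    rw [eq_div_iff hc10, ← hcc]; ring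
  have hz : (2 * s1 * c1) ^ 2 = c1 * (c1 ^ 2 - 2 * a * c1 + (a ^ 2 - 4 * b)) := by
    rw [← hcc, hc1]
    ring
  have hnegw : (-w1) ^ 2 = (-s1) ^ 4 + a * (-s1) ^ 2 + b := by
    rw [neg_sq, hw1]; ring
  have hnegc : 2 * (-s1) ^ 2 + a + 2 * (-w1) = 2 * s1 ^ 2 + a - 2 * w1 := by ring
  rcases hB c1 (2 * s1 * c1) hc10 hz with h1 | h1 | h1 | h1
  · obtain ⟨U, hU⟩ := Step_halve a b s1 w1 hb hD0 hs1 hw1 h1 X Y h hX2 hY
    exact ⟨U, 0, by rw [zero_zsmul, add_zero, hU]⟩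
  · have h2 : IsSquare (2 * (-s1) ^ 2 + a + 2 * (-w1)) := by
      rw [hnegc, hc']
      obtain ⟨r, hr⟩ := h1
      refine ⟨r / c1, ?_⟩
      field_simp
      linear_combination hr
    obtain ⟨U, hU⟩ := Step_halve a b (-s1) (-w1) hb hD0 (neg_ne_zero.mpr hs1) hnegw h2 X Y h
      (by rw [hX2]; ring) (by rw [hY]; ring)
    exact ⟨U, 0, by rw [zero_zsmul, add_zero, hU]⟩
  · exact Step_core a b s w hb hbs hD hs hw hP s1 w1 hs1 hw1 h1 X Y h hX2 hY
  · refine Step_core a b s w hb hbs hD hs hw hP (-s1) (-w1) (neg_ne_zero.mpr hs1) hnegw ?_ X Y h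
      (by rw [hX2]; ring) (by rw [hY]; ring)
    rw [hnegc, hc']
    obtain ⟨r, hr⟩ := h1
    refine ⟨r / c1, ?_⟩
    field_simp
    linear_combination hr

/-- Every rational point is `2 U + ε P + δ T`. -/
theorem step (a b s w : ℚ) (hb : b ≠ 0) (hbs : ¬ IsSquare b) (hD : ¬ IsSquare (a ^ 2 - 4 * b))
    (hs : s ≠ 0) (hw : w ^ 2 = s ^ 4 + a * s ^ 2 + b)
    (hA : ∀ x y : ℚ, x ≠ 0 → y ^ 2 = x ^ 3 + a * x ^ 2 + b * x → IsSquare x ∨ IsSquare (b * x))
    (hB : ∀ c z : ℚ, c ≠ 0 → z ^ 2 = c * (c ^ 2 - 2 * a * c + (a ^ 2 - 4 * b)) →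
      IsSquare c ∨ IsSquare ((a ^ 2 - 4 * b) * c) ∨ IsSquare ((2 * s ^ 2 + a + 2 * w) * c) ∨
        IsSquare ((2 * s ^ 2 + a + 2 * w) * (a ^ 2 - 4 * b) * c))
    (hP : (ec a b).toAffine.Nonsingular (s ^ 2) (s * w))
    (hT : (ec a b).toAffine.Nonsingular 0 0) (R : (ec a b).toAffine.Point) :
    ∃ (U : (ec a b).toAffine.Point) (i j : ℤ),
      R = U + U + i • Affine.Point.some _ _ hP + j • Affine.Point.some _ _ hT := by
  rcases R with _ | ⟨x, y, h⟩
  · exact ⟨0, 0, 0, by simp [Affine.Point.zero_def]⟩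
  · have hy := ec_of_nonsing h
    by_cases hx : x = 0
    · subst hx
      have hy0 : y = 0 := by
        have : y ^ 2 = 0 := by rw [hy]; ring
        exact pow_eq_zero_iff (two_ne_zero) |>.mp this
      subst hy0
      exact ⟨0, 0, 1, by simp⟩
    · rcases hA x y hx hy with hsq | hsq
      · obtain ⟨U, i, hU⟩ := Step_main a b s w hb hbs hD hs hw hB hP x y h hx hsq
        exact ⟨U, i, 0, by rw [zero_zsmul, add_zero, hU]⟩
      · obtain ⟨h', hadd⟩ := add_T a b x y hx h hT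
        have hsq' : IsSquare (b / x) := by
          obtain ⟨r, hr⟩ := hsq
          refine ⟨r / x, ?_⟩
          field_simp
          linear_combination hr
        obtain ⟨U, i, hU⟩ := Step_main a b s w hb hbs hD hs hw hB hP _ _ h'
          (div_ne_zero hb hx) hsq'
        refine ⟨U, i, 1, ?_⟩
        rw [one_smul, ← hU, ← hadd, add_assoc, T_add_T, add_zero]

end Rk1
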